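import Pool.Agent.K1H41.DG.P2d

set_option autoImplicit false

namespace Pool.Agent.K1H41.DG

open Finset

/-- two contractible spaces are homotopy equivalent -/
theorem equiv_of_contractible (X Y : Type) [TopologicalSpace X] [TopologicalSpace Y]
    [hX : ContractibleSpace X] [hY : ContractibleSpace Y] :
    Nonempty (ContinuousMap.HomotopyEquiv X Y) := by
  obtain ⟨f⟩ := hX.hequiv_unit'
  obtain ⟨g⟩ := hY.hequiv_unit'
  exact ⟨f.trans g.symm⟩

/-- the abstract theorem, from the pieces -/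
theorem abs_of (hKO : S_KO) (hP2 : S_P2) (hJF : S_JF) (hJS : S_JS) (hDU : S_DU) (hJC : S_JC)
    (V N : Type) [Fintype V] [Fintype N] (E : Type) [NormedAddCommGroup E] [NormedSpace ℝ E]
    [FiniteDimensional ℝ E] (D : Dat V N E) (A : Set N)
    (H : Type) [NormedAddCommGroup H] [NormedSpace ℝ H] (Q : Set H) (k0 : V → ℝ)
    (L : V → H →L[ℝ] ℝ) (g : N → H) (r : N → ℝ) (m : ℕ) (hV : Nonempty V)
    (hm : m + Module.finrank ℝ E = Fintype.card V) (hQc : IsCompact Q) (hQn : Q.Nonempty)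
    (hQ : Convex ℝ Q) (hg : ∀ i, g i ∈ Q) (hr : ∀ i, 0 < r i)
    (hgr : ∀ i δ, k0 δ + L δ (g i) = r i * D.f i (D.v δ))
    (hk : ∀ h ∈ Q, ∀ δ, 0 ≤ k0 δ + L δ h)
    (hfac : ∀ h ∈ Q, ∃ i, ∀ δ, k0 δ + L δ h = 0 → D.f i (D.v δ) = 0) :
    Nonempty (ContinuousMap.HomotopyEquiv (D.K A) (iterSusp m (TopCat.of
      ({h | h ∈ Q ∧ ∀ a ∈ A, ∃ δ, k0 δ + L δ h = 0 ∧ 0 < D.f a (D.v δ)} : Set H)))) := by
  set G : Set H := {h | h ∈ Q ∧ ∀ a ∈ A, ∃ δ, k0 δ + L δ h = 0 ∧ 0 < D.f a (D.v δ)} with hG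
  have hGc : IsCompact G := by
    have e : G = Q ∩ ⋂ a ∈ A, ⋃ δ : V, {h : H | k0 δ + L δ h = 0 ∧ 0 < D.f a (D.v δ)} := by
      ext h
      simp [hG]
    rw [e]
    refine hQc.inter_right ?_
    refine isClosed_biInter fun a _ => ?_
    refine isClosed_iUnion_of_finite fun δ => ?_
    by_cases h0 : 0 < D.f a (D.v δ)
    · have : {h : H | k0 δ + L δ h = 0 ∧ 0 < D.f a (D.v δ)} = {h : H | k0 δ + L δ h = 0} := by
        ext h
        simp [h0]
      rw [this]
      exact isClosed_eq (by fun_prop) continuous_const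
    · have : {h : H | k0 δ + L δ h = 0 ∧ 0 < D.f a (D.v δ)} = ∅ := by
        ext h
        simp [h0]
      rw [this]
      exact isClosed_empty
  obtain ⟨e3⟩ := hJS H G m hGc
  rcases A.eq_empty_or_nonempty with hA | hA
  · -- A is empty
    have hK : D.K A = stdSimplex ℝ V := by
      ext w
      simp [Dat.K, hA]
    have hGQ : G = Q := by
      ext h
      simp [hG, hA]
    have h1 : ContractibleSpace (D.K A) := by
      rw [hK]
      refine (convex_stdSimplex ℝ V).contractibleSpace ?_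
      obtain ⟨δ⟩ := hV
      classical
      exact ⟨Pi.single δ 1, single_mem_stdSimplex ℝ δ⟩
    have h2 : ContractibleSpace (J m G) := by
      rw [hGQ]
      exact hJC H Q m hQn hQ
    obtain ⟨e1⟩ := equiv_of_contractible (D.K A) (J m G)
    exact ⟨e1.trans e3.toHomotopyEquiv⟩
  · obtain ⟨e1⟩ := hKO V N E D A hA
    obtain ⟨e2⟩ := hP2 V N E D A m hA hm
    have hU : Bornology.IsBounded (D.U A) := by
      rw [isBounded_iff_forall_norm_le]
      exact ⟨_, fun x hx => D.P_bound hx.1⟩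
    obtain ⟨e4⟩ := hJF E H (D.U A) G m hU hGc.isBounded
      (hDU V N E D A H Q k0 L g r hA hQ hg hr hgr hk hfac)
    exact ⟨((e1.trans e2).trans e4).trans e3.toHomotopyEquiv⟩

end Pool.Agent.K1H41.DG
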