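import Mathlib

/-!
# Stanley's complexes `Δ_β` and `Γ_β`, and suspensions: definitions
-/

set_option autoImplicit false

namespace Pool.Agent.K1H41.DG

open scoped unitInterval

/-! ## Suspensions -/

/-- the relation collapsing the two ends of the cylinder over `Y` to the two cone points -/
inductive SuspRel (Y : Type) : (Y × unitInterval) ⊕ Bool → (Y × unitInterval) ⊕ Bool → Prop
  | bot (y : Y) : SuspRel Y (Sum.inl (y, 0)) (Sum.inr false)
  | top (y : Y) : SuspRel Y (Sum.inl (y, 1)) (Sum.inr true)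

/-- the unreduced suspension: the cylinder `Y × [0,1]` together with two points, the bottom of
the cylinder glued to the first, the top to the second; it is two points when `Y` is empty -/
def Susp (Y : Type) : Type := Quot (SuspRel Y)

instance (Y : Type) [TopologicalSpace Y] : TopologicalSpace (Susp Y) :=
  inferInstanceAs (TopologicalSpace (Quot (SuspRel Y)))

/-- the iterated suspension -/
def iterSusp : ℕ → TopCat.{0} → TopCat.{0}
  | 0, Y => Y
  | m + 1, Y => TopCat.of (Susp (iterSusp m Y))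

/-! ## Cones of nonnegative solutions and the complexes -/

open scoped RealInnerProductSpace

/-- the real point of an integer vector -/
noncomputable def toE {n : ℕ} (β : Fin n → ℤ) : EuclideanSpace ℝ (Fin n) :=
  WithLp.toLp 2 (fun j => (β j : ℝ))

/-- `E_{Φ,α}`: the nonnegative integer solutions of `Φ β = α` -/
def Sol {r n : ℕ} (Φ : Matrix (Fin r) (Fin n) ℤ) (α : Fin r → ℤ) : Set (Fin n → ℤ) :=
  {β | (∀ j, 0 ≤ β j) ∧ ∀ i, ∑ j, Φ i j * β j = α i}

/-- the coset `\bar E_Φ + E_{Φ,α}` of the group generated by `E_Φ` -/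
def Coset {r n : ℕ} (Φ : Matrix (Fin r) (Fin n) ℤ) (α : Fin r → ℤ) : Set (Fin n → ℤ) :=
  {β | ∃ γ ∈ AddSubgroup.closure (Sol Φ 0), ∃ β₀ ∈ Sol Φ α, β = γ + β₀}

/-- the cone `C_Φ` -/
def cone {r n : ℕ} (Φ : Matrix (Fin r) (Fin n) ℤ) : Set (EuclideanSpace ℝ (Fin n)) :=
  {x | (∀ j, 0 ≤ x j) ∧ ∀ i, ∑ j, (Φ i j : ℝ) * x j = 0}

/-- the ray through an integer vector -/
def ray {n : ℕ} (δ : Fin n → ℤ) : Set (EuclideanSpace ℝ (Fin n)) :=
  {x | ∃ t : ℝ, 0 ≤ t ∧ x = t • toE δ}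

/-- `CF_Φ`: the nonzero integer points nearest the origin on the extreme rays of the cone -/
def CF {r n : ℕ} (Φ : Matrix (Fin r) (Fin n) ℤ) : Set (Fin n → ℤ) :=
  {δ | δ ≠ 0 ∧ IsExtreme ℝ (cone Φ) (ray δ) ∧
    ∀ γ : Fin n → ℤ, γ ≠ 0 → toE γ ∈ ray δ → ‖toE δ‖ ≤ ‖toE γ‖}

/-- the faces of `Δ_β` -/
def Delta {r n : ℕ} (Φ : Matrix (Fin r) (Fin n) ℤ) (β : Fin n → ℤ) : Set (Set (CF Φ)) :=
  {S | ∀ j, β j < 0 → ∃ δ : CF Φ, δ ∉ S ∧ 0 < (δ : Fin n → ℤ) j}

/-- the geometric realization of a simplicial complex on a finite vertex set `V`, given by its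
set of faces (the empty face included), in barycentric coordinates -/
def realization {V : Type} (Δ : Set (Set V)) : Set (V → ℝ) :=
  {w | (∀ δ, 0 ≤ w δ) ∧ (∑ᶠ δ, w δ) = 1 ∧ {δ | w δ ≠ 0} ∈ Δ}

/-- the section of the cone by the hyperplane `l = 1` -/
def crossSection {r n : ℕ} (Φ : Matrix (Fin r) (Fin n) ℤ)
    (l : EuclideanSpace ℝ (Fin n) →ₗ[ℝ] ℝ) : Set (EuclideanSpace ℝ (Fin n)) :=
  {x | x ∈ cone Φ ∧ l x = 1}

/-- faces of a polytope, the empty face and the polytope itself included -/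
def IsFace {n : ℕ} (P F : Set (EuclideanSpace ℝ (Fin n))) : Prop :=
  IsExtreme ℝ P F ∧ Convex ℝ F

/-- the support of a face (the support of each of its relative interior points) -/
def suppFace {n : ℕ} (F : Set (EuclideanSpace ℝ (Fin n))) : Set (Fin n) :=
  {j | ∃ x ∈ F, 0 < x j}

/-- the polar dual of the polytope `P` with respect to its relative interior point `x₀`, in the
direction of the affine span of `P` -/
def polarDual {n : ℕ} (P : Set (EuclideanSpace ℝ (Fin n))) (x₀ : EuclideanSpace ℝ (Fin n)) :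
    Set (EuclideanSpace ℝ (Fin n)) :=
  {y | y ∈ vectorSpan ℝ P ∧ ∀ x ∈ P, ⟪y, x - x₀⟫ ≤ 1}

/-- the face `F^*` of the dual polytope corresponding to the face `F` -/
def dualFace {n : ℕ} (P : Set (EuclideanSpace ℝ (Fin n))) (x₀ : EuclideanSpace ℝ (Fin n))
    (F : Set (EuclideanSpace ℝ (Fin n))) : Set (EuclideanSpace ℝ (Fin n)) :=
  {y | y ∈ polarDual P x₀ ∧ ∀ x ∈ F, ⟪y, x - x₀⟫ = 1}

/-- `Γ_β`: the union of the `F^*` over the faces `F` of `P` with `supp_- β ⊆ supp F` -/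
def Gamma {n : ℕ} (P : Set (EuclideanSpace ℝ (Fin n))) (x₀ : EuclideanSpace ℝ (Fin n))
    (β : Fin n → ℤ) : Set (EuclideanSpace ℝ (Fin n)) :=
  {y | ∃ F, IsFace P F ∧ {j | β j < 0} ⊆ suppFace F ∧ y ∈ dualFace P x₀ F}

end Pool.Agent.K1H41.DG
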