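import Pool.Agent.K1H41.DG.Def
import Pool.Agent.K1H41.DG.Abs

set_option autoImplicit false

namespace Pool.Agent.K1H41.DG

open Finset
open scoped RealInnerProductSpace

variable {r n : ℕ} {Φ : Matrix (Fin r) (Fin n) ℤ}

theorem toE_apply (β : Fin n → ℤ) (j : Fin n) : toE β j = (β j : ℝ) := rfl

theorem toE_ne_zero {δ : Fin n → ℤ} (h : δ ≠ 0) : toE δ ≠ 0 := by
  intro h0
  apply h
  ext j
  have := congrArg (fun x : EuclideanSpace ℝ (Fin n) => x j) h0
  simp only [toE_apply, PiLp.zero_apply] at this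
  exact_mod_cast this

theorem CF_mem_cone {δ : Fin n → ℤ} (h : δ ∈ CF Φ) : toE δ ∈ cone Φ :=
  h.2.1.subset ⟨1, zero_le_one, by simp⟩

/-- the span of the cone -/
abbrev SE (Φ : Matrix (Fin r) (Fin n) ℤ) : Submodule ℝ (EuclideanSpace ℝ (Fin n)) :=
  Submodule.span ℝ (cone Φ)

/-- the coordinates that are not identically zero on the cone -/
abbrev NN (Φ : Matrix (Fin r) (Fin n) ℤ) : Type := {j : Fin n // ∃ x ∈ cone Φ, 0 < x j}

theorem SE_coord {x : EuclideanSpace ℝ (Fin n)} (hx : x ∈ SE Φ) {j : Fin n}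
    (hj : ¬ ∃ y ∈ cone Φ, 0 < y j) : x j = 0 := by
  induction hx using Submodule.span_induction with
  | mem y hy =>
    push Not at hj
    exact le_antisymm (hj y hy) (hy.1 j)
  | zero => simp
  | add x y _ _ hx hy => simp [hx, hy]
  | smul a x _ hx => simp [hx]

theorem SE_ker {x : EuclideanSpace ℝ (Fin n)} (hx : x ∈ SE Φ) (i : Fin r) :
    ∑ j, (Φ i j : ℝ) * x j = 0 := by
  induction hx using Submodule.span_induction with
  | mem y hy => exact hy.2 i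
  | zero => simp
  | add x y _ _ hx hy =>
    simp only [PiLp.add_apply, mul_add, Finset.sum_add_distrib, hx, hy, add_zero]
  | smul a x _ hx =>
    simp only [PiLp.smul_apply, smul_eq_mul]
    have : ∑ j, (Φ i j : ℝ) * (a * x j) = a * ∑ j, (Φ i j : ℝ) * x j := by
      rw [Finset.mul_sum]
      exact Finset.sum_congr rfl fun j _ => by ring
    rw [this, hx, mul_zero]

theorem mem_cone_of {x : EuclideanSpace ℝ (Fin n)} (hx : x ∈ SE Φ)
    (h : ∀ j : NN Φ, 0 ≤ x j.1) : x ∈ cone Φ := by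
  refine ⟨fun j => ?_, SE_ker hx⟩
  by_cases hj : ∃ y ∈ cone Φ, 0 < y j
  · exact h ⟨j, hj⟩
  · exact (SE_coord hx hj).ge

/-- the data of the cone -/
theorem exists_dat (hCFG : S_CFG) (l : EuclideanSpace ℝ (Fin n) →ₗ[ℝ] ℝ)
    (hl : ∀ x ∈ cone Φ, x ≠ 0 → 0 < l x) [Fintype (CF Φ)] [Fintype (NN Φ)] :
    ∃ D : Dat (CF Φ) (NN Φ) (SE Φ),
      (∀ δ : CF Φ, (D.v δ : EuclideanSpace ℝ (Fin n)) = (l (toE δ.1))⁻¹ • toE δ.1) ∧
      (∀ j : NN Φ, ∀ x : SE Φ, D.f j x = (x : EuclideanSpace ℝ (Fin n)) j.1) ∧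
      (∀ x : SE Φ, D.l x = l x) := by
  have hpos : ∀ δ : CF Φ, 0 < l (toE δ.1) := fun δ =>
    hl _ (CF_mem_cone δ.2) (toE_ne_zero δ.2.1)
  have hgen : ∀ x ∈ cone Φ, ∃ c : CF Φ → ℝ, (∀ δ, 0 ≤ c δ) ∧
      x = ∑ δ : CF Φ, c δ • ((l (toE δ.1))⁻¹ • toE δ.1) := by
    intro x hx
    obtain ⟨c, hc, hx'⟩ := (hCFG r n Φ).2 x hx
    refine ⟨fun δ => c δ.1 * l (toE δ.1), fun δ => mul_nonneg (hc _) (hpos δ).le, ?_⟩
    rw [hx', finsum_mem_eq_finite_toFinset_sum _ (Set.toFinite (CF Φ))]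
    rw [← Finset.sum_coe_sort]
    have e : ∀ δ : CF Φ, (c δ.1 * l (toE δ.1)) • ((l (toE δ.1))⁻¹ • toE δ.1) = c δ.1 • toE δ.1 := by
      intro δ
      rw [smul_smul, mul_assoc, mul_inv_cancel₀ (hpos δ).ne', mul_one]
    rw [Finset.sum_congr rfl (fun δ _ => e δ)]
    refine Fintype.sum_equiv (Equiv.subtypeEquivRight (fun x => by simp)) _ _ (fun δ => ?_)
    rfl
  refine ⟨{ v := fun δ => ⟨(l (toE δ.1))⁻¹ • toE δ.1,
              Submodule.smul_mem _ _ (Submodule.subset_span (CF_mem_cone δ.2))⟩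
            l := LinearMap.toContinuousLinearMap (l.comp (SE Φ).subtype)
            f := fun j => (EuclideanSpace.proj j.1).comp (SE Φ).subtypeL
            hl := ?_
            hf := ?_
            gen := ?_
            pos := ?_ }, ?_, ?_, ?_⟩
  · intro δ
    change l ((l (toE δ.1))⁻¹ • toE δ.1) = 1
    rw [map_smul, smul_eq_mul, inv_mul_cancel₀ (hpos δ).ne']
  · intro j δ
    change 0 ≤ ((l (toE δ.1))⁻¹ • toE δ.1) j.1
    rw [PiLp.smul_apply, smul_eq_mul]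
    exact mul_nonneg (inv_pos.2 (hpos δ)).le ((CF_mem_cone δ.2).1 j.1)
  · intro x hx
    obtain ⟨c, hc, hx'⟩ := hgen x.1 (mem_cone_of x.2 (fun j => hx j))
    refine ⟨c, hc, ?_⟩
    apply Subtype.ext
    rw [hx']
    simp
  · intro j
    obtain ⟨x, hx, hj⟩ := j.2
    obtain ⟨c, hc, hx'⟩ := hgen x hx
    by_contra hcon
    push Not at hcon
    have h1 : x j.1 = ∑ δ : CF Φ, c δ * ((l (toE δ.1))⁻¹ • toE δ.1) j.1 := by
      conv_lhs => rw [hx']
      simp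
    have h2 : x j.1 ≤ 0 := by
      rw [h1]
      refine Finset.sum_nonpos fun δ _ => ?_
      exact mul_nonpos_of_nonneg_of_nonpos (hc δ) (hcon δ)
    linarith
  · intro δ
    rfl
  · intro j x
    rfl
  · intro x
    rfl

end Pool.Agent.K1H41.DG
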