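import Pool.Agent.K1H41.DG.Conc

set_option autoImplicit false

namespace Pool.Agent.K1H41.DG

open Finset
open scoped RealInnerProductSpace

variable {r n : ℕ} {Φ : Matrix (Fin r) (Fin n) ℤ}

theorem mem_crossSection {l : EuclideanSpace ℝ (Fin n) →ₗ[ℝ] ℝ} {x : EuclideanSpace ℝ (Fin n)} :
    x ∈ crossSection Φ l ↔ x ∈ cone Φ ∧ l x = 1 := Iff.rfl

theorem main_of (hKO : S_KO) (hP2 : S_P2) (hJF : S_JF) (hJS : S_JS) (hDU : S_DU) (hJC : S_JC)
    (hCFG : S_CFG) (hPOS : S_POS) (hDIM : S_DIM) (hPCO : S_PCO) (hNEG : S_NEG) : S_MAIN := by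
  classical
  intro r n Φ α l x₀ hbd hx₀ β hβ
  obtain ⟨hx₀P, hl, hx₀pos⟩ := hPOS r n Φ l x₀ hbd hx₀
  have hfin := (hCFG r n Φ).1
  let _ : Fintype (CF Φ) := hfin.fintype
  let _ : Fintype (NN Φ) := Fintype.ofFinite _
  obtain ⟨D, hDv, hDf, hDl⟩ := exists_dat hCFG l hl
  set P := crossSection Φ l with hP
  have hx₀c : x₀ ∈ cone Φ := hx₀P.1
  have hx₀0 : x₀ ≠ 0 := by
    intro h
    have := hx₀P.2
    rw [h, map_zero] at this
    exact zero_ne_one this
  have hdim := hDIM r n Φ l ⟨x₀, hx₀P⟩ hl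
  rw [← hP] at hdim
  obtain ⟨hQc, hQconv⟩ := hPCO n P x₀ hx₀
  -- N and V are nonempty
  have hN : Nonempty (NN Φ) := by
    by_contra hne
    rw [not_nonempty_iff] at hne
    apply hx₀0
    ext j
    have : ¬ ∃ y ∈ cone Φ, 0 < y j := fun h => hne.false ⟨j, h⟩
    rw [SE_coord (Submodule.subset_span hx₀c) this]
    rfl
  have hV : Nonempty (CF Φ) := by
    obtain ⟨i⟩ := hN
    obtain ⟨δ, _⟩ := D.pos i
    exact ⟨δ⟩
  -- generators lie in P
  have hvP : ∀ δ : CF Φ, (D.v δ : EuclideanSpace ℝ (Fin n)) ∈ P := by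
    intro δ
    refine ⟨?_, ?_⟩
    · refine mem_cone_of (D.v δ).2 (fun j => ?_)
      rw [← hDf j (D.v δ)]
      exact D.hf j δ
    · rw [← hDl]
      exact D.hl δ
  -- dimension
  have hle : Module.finrank ℝ (SE Φ) ≤ Fintype.card (CF Φ) := by
    have h1 := LinearMap.finrank_range_le (D.pi)
    rw [LinearMap.range_eq_top.2 D.pi_surjective, finrank_top, Module.finrank_fintype_fun_eq_card]
      at h1
    exact h1
  have hcard : (CF Φ).ncard = Fintype.card (CF Φ) := by
    rw [← Nat.card_coe_set_eq, Nat.card_eq_fintype_card]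
  refine ⟨hfin, by rw [hcard, ← hdim]; exact hle, ?_⟩
  set m := (CF Φ).ncard - (Module.finrank ℝ (vectorSpan ℝ P) + 1) with hm
  have hm' : m + Module.finrank ℝ (SE Φ) = Fintype.card (CF Φ) := by
    rw [hm, hcard, ← hdim]
    exact Nat.sub_add_cancel hle
  -- the negative coordinates
  set A : Set (NN Φ) := {j | β j.1 < 0} with hA
  have hneg : ∀ j, β j < 0 → ∃ x ∈ cone Φ, 0 < x j := hNEG r n Φ α β hβ
  -- the dual points of the inequalities
  set g : NN Φ → EuclideanSpace ℝ (Fin n) := fun j =>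
    -((x₀ j.1)⁻¹ • ((vectorSpan ℝ P).starProjection (EuclideanSpace.single j.1 (1 : ℝ)))) with hg
  have hgin : ∀ (j : NN Φ) (x : EuclideanSpace ℝ (Fin n)), x ∈ P →
      ⟪g j, x - x₀⟫ = 1 - (x₀ j.1)⁻¹ * x j.1 := by
    intro j x hx
    have hmem : x - x₀ ∈ vectorSpan ℝ P := by
      have := vsub_mem_vectorSpan ℝ hx hx₀P
      simpa using this
    have h1 : ⟪(vectorSpan ℝ P).starProjection (EuclideanSpace.single j.1 (1 : ℝ)), x - x₀⟫ =
        x j.1 - x₀ j.1 := by
      rw [Submodule.inner_starProjection_left_eq_right,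
        Submodule.starProjection_eq_self_iff.2 hmem, EuclideanSpace.inner_single_left]
      simp
    have h2 := (hx₀pos j.1 j.2).ne'
    rw [hg]
    simp only [inner_neg_left, real_inner_smul_left, h1]
    field_simp
    ring
  have hgQ : ∀ j, g j ∈ polarDual P x₀ := by
    intro j
    refine ⟨?_, fun x hx => ?_⟩
    · rw [hg]
      refine Submodule.neg_mem _ (Submodule.smul_mem _ _ ?_)
      exact Submodule.starProjection_apply_mem _ _
    · rw [hgin j x hx]
      have := mul_nonneg (inv_pos.2 (hx₀pos j.1 j.2)).le (hx.1.1 j.1)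
      linarith
  have hfP : ∀ (x : SE Φ), (∀ j, 0 ≤ D.f j x) → D.l x = 1 → (x : EuclideanSpace ℝ (Fin n)) ∈ P := by
    intro x h1 h2
    refine ⟨mem_cone_of x.2 (fun j => ?_), ?_⟩
    · rw [← hDf j x]
      exact h1 j
    · rw [← hDl]
      exact h2
  have key := abs_of hKO hP2 hJF hJS hDU hJC (CF Φ) (NN Φ) (SE Φ) D A
    (EuclideanSpace ℝ (Fin n)) (polarDual P x₀) (fun _ => 1)
    (fun δ => -(innerSL ℝ ((D.v δ : EuclideanSpace ℝ (Fin n)) - x₀))) g
    (fun j => (x₀ j.1)⁻¹) m hV hm' hQc ⟨_, hgQ hN.some⟩ hQconv hgQ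
    (fun j => inv_pos.2 (hx₀pos j.1 j.2))
    (fun j δ => by
      rw [_root_.neg_apply, innerSL_apply_apply, real_inner_comm, hgin j _ (hvP δ), hDf]
      ring)
    (fun h hh δ => by
      rw [_root_.neg_apply, innerSL_apply_apply, real_inner_comm]
      have := hh.2 _ (hvP δ)
      linarith)
    (fun h hh => by
      by_contra hcon
      push Not at hcon
      choose σ hσ1 hσ2 using hcon
      -- average
      set y : SE Φ := (Fintype.card (NN Φ) : ℝ)⁻¹ • ∑ i, D.v (σ i) with hy
      have hcN : (0 : ℝ) < Fintype.card (NN Φ) := by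
        have := Fintype.card_pos (α := NN Φ)
        positivity
      have hy1 : ∀ i, 0 < D.f i y := by
        intro i
        rw [hy, map_smul, map_sum, smul_eq_mul]
        refine mul_pos (inv_pos.2 hcN) ?_
        refine Finset.sum_pos' (fun i' _ => D.hf i _) ⟨i, Finset.mem_univ _, ?_⟩
        exact lt_of_le_of_ne (D.hf i _) (Ne.symm (hσ2 i))
      have hy2 : D.l y = 1 := by
        rw [hy, map_smul, map_sum, smul_eq_mul]
        simp only [D.hl]
        simp
      set x₀' : SE Φ := ⟨x₀, Submodule.subset_span hx₀c⟩ with hx₀'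
      have hl0 : D.l x₀' = 1 := by
        rw [hDl]
        exact hx₀P.2
      obtain ⟨ε, hε, hε2⟩ : ∃ ε : ℝ, 0 < ε ∧ ∀ i, ε * D.f i x₀' ≤ D.f i y := by
        have h0 : ∀ i, 0 < D.f i x₀' := fun i => by
          rw [hDf]
          exact hx₀pos i.1 i.2
        refine ⟨Finset.univ.inf' Finset.univ_nonempty (fun i => D.f i y / D.f i x₀'), ?_, ?_⟩
        · rw [Finset.lt_inf'_iff]
          intro i _
          exact div_pos (hy1 i) (h0 i)
        · intro i
          have : Finset.univ.inf' Finset.univ_nonempty (fun i => D.f i y / D.f i x₀') ≤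
              D.f i y / D.f i x₀' :=
            Finset.inf'_le (fun i => D.f i y / D.f i x₀') (Finset.mem_univ i)
          rw [le_div_iff₀ (h0 i)] at this
          exact this
      have hy' : ((y + ε • (y - x₀') : SE Φ) : EuclideanSpace ℝ (Fin n)) ∈ P := by
        apply hfP
        · intro j
          rw [map_add, map_smul (D.f j) ε, map_sub, smul_eq_mul]
          have h1 := hε2 j
          have h2 := mul_pos hε (hy1 j)
          linarith
        · rw [map_add, map_smul D.l ε, map_sub, hy2, hl0]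
          simp
      have h3 := hh.2 _ hy'
      have h4 : ⟪h, (y : EuclideanSpace ℝ (Fin n)) - x₀⟫ = 1 := by
        have h5 : ∀ i, ⟪h, (D.v (σ i) : EuclideanSpace ℝ (Fin n)) - x₀⟫ = 1 := by
          intro i
          have h6 := hσ1 i
          rw [_root_.neg_apply, innerSL_apply_apply, real_inner_comm] at h6
          linarith
        have h7 : (y : EuclideanSpace ℝ (Fin n)) - x₀ =
            (Fintype.card (NN Φ) : ℝ)⁻¹ • ∑ i, ((D.v (σ i) : EuclideanSpace ℝ (Fin n)) - x₀) := by
          rw [Finset.sum_sub_distrib, Finset.sum_const, Finset.card_univ, smul_sub,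
            ← Nat.cast_smul_eq_nsmul ℝ, smul_smul, inv_mul_cancel₀ hcN.ne', one_smul, hy]
          simp
        rw [h7, real_inner_smul_right, inner_sum]
        simp only [h5]
        simp
      have h8 : ((y + ε • (y - x₀') : SE Φ) : EuclideanSpace ℝ (Fin n)) - x₀ =
          (1 + ε) • ((y : EuclideanSpace ℝ (Fin n)) - x₀) := by
        have : (x₀' : EuclideanSpace ℝ (Fin n)) = x₀ := rfl
        simp only [Submodule.coe_add, Submodule.coe_smul, Submodule.coe_sub, this]
        module
      rw [h8, real_inner_smul_right, h4] at h3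
      linarith)
  -- identification of the two sides
  have hK : D.K A = realization (Delta Φ β) := by
    ext w
    simp only [Dat.K, realization, stdSimplex, Set.mem_ofPred_eq, Delta]
    rw [finsum_eq_sum_of_fintype]
    constructor
    · rintro ⟨⟨h1, h2⟩, h3⟩
      refine ⟨h1, h2, fun j hj => ?_⟩
      obtain ⟨δ, h4, h5⟩ := h3 ⟨j, hneg j hj⟩ hj
      refine ⟨δ, by simpa using h4, ?_⟩
      rw [hDf, hDv, PiLp.smul_apply, smul_eq_mul, toE_apply] at h5
      have h6 := inv_pos.2 (hl _ (CF_mem_cone δ.2) (toE_ne_zero δ.2.1))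
      have h7 := (pos_iff_pos_of_mul_pos h5).1 h6
      exact_mod_cast h7
    · rintro ⟨h1, h2, h3⟩
      refine ⟨⟨h1, h2⟩, fun a ha => ?_⟩
      obtain ⟨δ, h4, h5⟩ := h3 a.1 ha
      refine ⟨δ, by simpa using h4, ?_⟩
      rw [hDf, hDv, PiLp.smul_apply, smul_eq_mul, toE_apply]
      refine mul_pos (inv_pos.2 (hl _ (CF_mem_cone δ.2) (toE_ne_zero δ.2.1))) ?_
      exact_mod_cast h5
  have hG : ({h | h ∈ polarDual P x₀ ∧ ∀ a ∈ A, ∃ δ, 1 +
      (-(innerSL ℝ ((D.v δ : EuclideanSpace ℝ (Fin n)) - x₀))) h = 0 ∧ 0 < D.f a (D.v δ)} :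
      Set (EuclideanSpace ℝ (Fin n))) = Gamma P x₀ β := by
    ext h
    simp only [Gamma, Set.mem_ofPred_eq, dualFace]
    have hval : ∀ δ : CF Φ, (1 + (-(innerSL ℝ ((D.v δ : EuclideanSpace ℝ (Fin n)) - x₀))) h = 0 ↔
        ⟪h, (D.v δ : EuclideanSpace ℝ (Fin n)) - x₀⟫ = 1) := by
      intro δ
      rw [_root_.neg_apply, innerSL_apply_apply, real_inner_comm]
      constructor <;> intro h <;> linarith
    constructor
    · rintro ⟨h1, h2⟩
      refine ⟨{x | x ∈ P ∧ ⟪h, x - x₀⟫ = 1}, ⟨?_, ?_⟩, ?_, h1, fun x hx => hx.2⟩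
      · refine ⟨fun x hx => hx.1, ?_⟩
        rintro x hx y hy z ⟨hz1, hz2⟩ ⟨a, b, ha, hb, hab, rfl⟩
        refine ⟨hx, ?_⟩
        have e1 : a • x + b • y - x₀ = a • (x - x₀) + b • (y - x₀) := by
          have : x₀ = (a + b) • x₀ := by rw [hab, one_smul]
          nth_rewrite 1 [this]
          module
        rw [e1, inner_add_right, real_inner_smul_right, real_inner_smul_right] at hz2
        have h3 := h1.2 x hx
        have h4 := h1.2 y hy
        by_contra hne
        have h5 : ⟪h, x - x₀⟫ < 1 := lt_of_le_of_ne h3 hne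
        nlinarith
      · rintro x ⟨hx1, hx2⟩ y ⟨hy1, hy2⟩ a b ha hb hab
        have e1 : a • x + b • y - x₀ = a • (x - x₀) + b • (y - x₀) := by
          have : x₀ = (a + b) • x₀ := by rw [hab, one_smul]
          nth_rewrite 1 [this]
          module
        refine ⟨⟨⟨fun j => ?_, fun i => ?_⟩, ?_⟩, ?_⟩
        · simp only [PiLp.add_apply, PiLp.smul_apply, smul_eq_mul]
          have := mul_nonneg ha (hx1.1.1 j)
          have := mul_nonneg hb (hy1.1.1 j)
          linarith
        · simp only [PiLp.add_apply, PiLp.smul_apply, smul_eq_mul]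
          have e2 : ∑ j, (Φ i j : ℝ) * (a * x j + b * y j) =
              a * ∑ j, (Φ i j : ℝ) * x j + b * ∑ j, (Φ i j : ℝ) * y j := by
            rw [Finset.mul_sum, Finset.mul_sum, ← Finset.sum_add_distrib]
            exact Finset.sum_congr rfl fun j _ => by ring
          rw [e2, hx1.1.2 i, hy1.1.2 i]
          ring
        · rw [map_add, map_smul, map_smul, hx1.2, hy1.2]
          simpa using hab
        · rw [e1, inner_add_right, real_inner_smul_right, real_inner_smul_right, hx2, hy2]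
          simpa using hab
      · intro j hj
        obtain ⟨δ, h3, h4⟩ := h2 ⟨j, hneg j hj⟩ hj
        rw [hDf] at h4
        exact ⟨_, ⟨hvP δ, (hval δ).1 h3⟩, h4⟩
    · rintro ⟨F, ⟨hF1, hF2⟩, hsupp, hQ, hF3⟩
      refine ⟨hQ, fun a ha => ?_⟩
      obtain ⟨x, hxF, hxa⟩ := hsupp ha
      have hxP : x ∈ P := hF1.subset hxF
      -- write x as a convex combination
      have hxC : x ∈ SE Φ := Submodule.subset_span hxP.1
      obtain ⟨c, hc, hxc⟩ := D.gen ⟨x, hxC⟩ (fun j => by rw [hDf]; exact hxP.1.1 j.1)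
      have hsum : ∑ δ, c δ = 1 := by
        have h1 : D.l ⟨x, hxC⟩ = 1 := by
          rw [hDl]
          exact hxP.2
        rw [hxc, map_sum] at h1
        simpa [D.hl] using h1
      have hxc' : x = ∑ δ, c δ • (D.v δ : EuclideanSpace ℝ (Fin n)) := by
        have := congrArg (fun z : SE Φ => (z : EuclideanSpace ℝ (Fin n))) hxc
        simpa using this
      -- some generator of positive weight has positive coordinate
      obtain ⟨δ, hδ1, hδ2⟩ : ∃ δ, 0 < c δ ∧ 0 < D.f a (D.v δ) := by
        by_contra hcon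
        push Not at hcon
        have h1 : x a.1 = ∑ δ, c δ * D.f a (D.v δ) := by
          have h2 := hDf a ⟨x, hxC⟩
          rw [hxc] at h2
          rw [← hxc] at h2
          rw [← h2, hxc, map_sum]
          simp
        have h2 : x a.1 ≤ 0 := by
          rw [h1]
          refine Finset.sum_nonpos fun δ _ => ?_
          rcases (hc δ).eq_or_lt with h | h
          · rw [← h, zero_mul]
          · exact mul_nonpos_of_nonneg_of_nonpos (hc δ) (hcon δ h)
        linarith
      refine ⟨δ, ?_, hδ2⟩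
      rw [hval]
      -- the inner products are at most one with average one
      have h5 : ∑ δ, c δ * (1 - ⟪h, (D.v δ : EuclideanSpace ℝ (Fin n)) - x₀⟫) = 0 := by
        have h6 := hF3 x hxF
        have h7 : x - x₀ = ∑ δ, c δ • ((D.v δ : EuclideanSpace ℝ (Fin n)) - x₀) := by
          simp only [smul_sub, Finset.sum_sub_distrib]
          rw [← Finset.sum_smul, hsum, one_smul, ← hxc']
        rw [h7, inner_sum] at h6
        simp only [real_inner_smul_right] at h6
        simp only [mul_sub, mul_one, Finset.sum_sub_distrib, hsum, h6, sub_self]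
      have h8 := (Finset.sum_eq_zero_iff_of_nonneg (fun δ _ => mul_nonneg (hc δ)
        (sub_nonneg.2 (hQ.2 _ (hvP δ))))).1 h5 δ (Finset.mem_univ _)
      rcases mul_eq_zero.1 h8 with h9 | h9
      · exact absurd h9 hδ1.ne'
      · linarith
  rw [hK, hG] at key
  exact key

end Pool.Agent.K1H41.DG
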