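import Pool.Agent.K1H41.DG.Stm

/-!
# Project DG: the concrete definitions (Stanley's complexes) and the concrete pieces
-/

set_option autoImplicit false

namespace Pool.Agent.K1H41.DG

open scoped RealInnerProductSpace

/-! ## the concrete pieces -/

/-- CFG. `CF` is finite and generates the cone. -/
def S_CFG : Prop :=
  ∀ (r n : ℕ) (Φ : Matrix (Fin r) (Fin n) ℤ), (CF Φ).Finite ∧
    ∀ x ∈ cone Φ, ∃ c : (Fin n → ℤ) → ℝ, (∀ δ, 0 ≤ c δ) ∧ x = ∑ᶠ δ ∈ CF Φ, c δ • toE δ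

/-- POS. a bounded section: `l` is positive on the cone; coordinates of a relative interior point
are positive unless identically zero on the cone -/
def S_POS : Prop :=
  ∀ (r n : ℕ) (Φ : Matrix (Fin r) (Fin n) ℤ) (l : EuclideanSpace ℝ (Fin n) →ₗ[ℝ] ℝ)
    (x₀ : EuclideanSpace ℝ (Fin n)), Bornology.IsBounded (crossSection Φ l) →
    x₀ ∈ intrinsicInterior ℝ (crossSection Φ l) →
    x₀ ∈ crossSection Φ l ∧ (∀ x ∈ cone Φ, x ≠ 0 → 0 < l x) ∧
      (∀ j, (∃ x ∈ cone Φ, 0 < x j) → 0 < x₀ j)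

/-- DIM. the dimension of the section -/
def S_DIM : Prop :=
  ∀ (r n : ℕ) (Φ : Matrix (Fin r) (Fin n) ℤ) (l : EuclideanSpace ℝ (Fin n) →ₗ[ℝ] ℝ),
    (crossSection Φ l).Nonempty → (∀ x ∈ cone Φ, x ≠ 0 → 0 < l x) →
    Module.finrank ℝ (Submodule.span ℝ (cone Φ)) =
      Module.finrank ℝ (vectorSpan ℝ (crossSection Φ l)) + 1

/-- PCO. the polar dual is compact and convex -/
def S_PCO : Prop :=
  ∀ (n : ℕ) (P : Set (EuclideanSpace ℝ (Fin n))) (x₀ : EuclideanSpace ℝ (Fin n)),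
    x₀ ∈ intrinsicInterior ℝ P → IsCompact (polarDual P x₀) ∧ Convex ℝ (polarDual P x₀)

/-- SUP. the support of a face is the support of each of its relative interior points -/
def S_SUP : Prop :=
  ∀ (n : ℕ) (F : Set (EuclideanSpace ℝ (Fin n))), (∀ x ∈ F, ∀ j, 0 ≤ x j) →
    ∀ x ∈ intrinsicInterior ℝ F, suppFace F = {j | 0 < x j}

/-- NEG. negative coordinates of a point of the coset are coordinates positive somewhere on
the cone -/
def S_NEG : Prop :=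
  ∀ (r n : ℕ) (Φ : Matrix (Fin r) (Fin n) ℤ) (α : Fin r → ℤ) (β : Fin n → ℤ),
    β ∈ Coset Φ α → ∀ j, β j < 0 → ∃ x ∈ cone Φ, 0 < x j

/-- the theorem -/
def S_MAIN : Prop :=
  ∀ (r n : ℕ) (Φ : Matrix (Fin r) (Fin n) ℤ) (α : Fin r → ℤ) (l : EuclideanSpace ℝ (Fin n) →ₗ[ℝ] ℝ)
    (x₀ : EuclideanSpace ℝ (Fin n)), Bornology.IsBounded (crossSection Φ l) →
    x₀ ∈ intrinsicInterior ℝ (crossSection Φ l) →
    ∀ β ∈ Coset Φ α, (CF Φ).Finite ∧
      Module.finrank ℝ (vectorSpan ℝ (crossSection Φ l)) + 1 ≤ (CF Φ).ncard ∧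
      Nonempty (ContinuousMap.HomotopyEquiv (realization (Delta Φ β))
        (iterSusp ((CF Φ).ncard - (Module.finrank ℝ (vectorSpan ℝ (crossSection Φ l)) + 1))
          (TopCat.of (Gamma (crossSection Φ l) x₀ β))))

end Pool.Agent.K1H41.DG
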