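import Pool.Agent.K1H41.DG.Stm

set_option autoImplicit false

namespace Pool.Agent.K1H41.DG

open Finset

/-- homotopy along segments -/
theorem homotopic_of_segment {X F : Type} [TopologicalSpace X] [AddCommGroup F] [Module ℝ F]
    [TopologicalSpace F] [ContinuousAdd F] [ContinuousSMul ℝ F] {S : Set F} (f g : C(X, S))
    (h : ∀ x, ∀ t : ℝ, 0 ≤ t → t ≤ 1 → (1 - t) • (f x : F) + t • (g x : F) ∈ S) :
    f.Homotopic g := by
  refine ⟨{ toFun := fun p => ⟨(1 - (p.1 : ℝ)) • (f p.2 : F) + (p.1 : ℝ) • (g p.2 : F),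
              h p.2 p.1 p.1.2.1 p.1.2.2⟩
            continuous_toFun := ?_
            map_zero_left := ?_
            map_one_left := ?_ }⟩
  · apply Continuous.subtype_mk
    fun_prop
  · intro x
    ext1
    simp
  · intro x
    ext1
    simp

variable {V N : Type} [Fintype V] [Fintype N] {E : Type} [NormedAddCommGroup E]
    [NormedSpace ℝ E]

/-- the projection from the simplex side to the polytope side -/
noncomputable def Dat.pi (D : Dat V N E) : (V → ℝ) →ₗ[ℝ] E := Fintype.linearCombination ℝ D.v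

theorem Dat.pi_apply (D : Dat V N E) (x : V → ℝ) : D.pi x = ∑ δ, x δ • D.v δ := rfl

theorem Dat.l_pi (D : Dat V N E) (x : V → ℝ) : D.l (D.pi x) = ∑ δ, x δ := by
  simp [Dat.pi_apply, D.hl]

theorem Dat.f_pi (D : Dat V N E) (i : N) (x : V → ℝ) :
    D.f i (D.pi x) = ∑ δ, x δ * D.f i (D.v δ) := by
  simp [Dat.pi_apply]

/-- the barycentre of the generators -/
noncomputable def Dat.p (D : Dat V N E) : E := D.pi (fun _ => (Fintype.card V : ℝ)⁻¹)

theorem Dat.f_p_pos (D : Dat V N E) (i : N) : 0 < D.f i D.p := by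
  obtain ⟨δ, hδ⟩ := D.pos i
  have : Nonempty V := ⟨δ⟩
  have hs : (0 : ℝ) < (Fintype.card V : ℝ)⁻¹ := by
    have := Fintype.card_pos (α := V)
    positivity
  rw [Dat.p, Dat.f_pi]
  refine Finset.sum_pos' (fun δ _ => mul_nonneg hs.le (D.hf i δ)) ⟨δ, Finset.mem_univ _, ?_⟩
  exact mul_pos hs hδ

theorem Dat.l_p (D : Dat V N E) [Nonempty V] : D.l D.p = 1 := by
  rw [Dat.p, Dat.l_pi]
  simp

/-- a point of the cone of height zero is zero -/
theorem Dat.eq_zero (D : Dat V N E) {x : E} (h : ∀ i, 0 ≤ D.f i x) (h0 : D.l x = 0) : x = 0 := by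
  obtain ⟨c, hc, rfl⟩ := D.gen x h
  have h1 : ∑ δ, c δ = 0 := by
    rw [← h0]
    simp [D.hl]
  have h2 : ∀ δ ∈ Finset.univ, c δ = 0 := (Finset.sum_eq_zero_iff_of_nonneg (fun δ _ => hc δ)).1 h1
  apply Finset.sum_eq_zero
  intro δ _
  rw [h2 δ (Finset.mem_univ _), zero_smul]

theorem Dat.ker_eq_zero (D : Dat V N E) {w : V → ℝ} (h : D.pi w = 0) (h0 : ∀ δ, 0 ≤ w δ) :
    w = 0 := by
  have h1 : ∑ δ, w δ = 0 := by
    rw [← D.l_pi, h, map_zero]
  have h2 : ∀ δ ∈ Finset.univ, w δ = 0 := (Finset.sum_eq_zero_iff_of_nonneg (fun δ _ => h0 δ)).1 h1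
  ext δ
  exact h2 δ (Finset.mem_univ _)

theorem Dat.pi_surjective (D : Dat V N E) [Nonempty N] : Function.Surjective D.pi := by
  intro x
  obtain ⟨T, hT⟩ : ∃ T : ℝ, ∀ i, 0 ≤ D.f i x + T * D.f i D.p := by
    refine ⟨Finset.univ.sup' Finset.univ_nonempty (fun i => - D.f i x / D.f i D.p), fun i => ?_⟩
    have h1 : - D.f i x / D.f i D.p ≤ Finset.univ.sup' Finset.univ_nonempty
        (fun i => - D.f i x / D.f i D.p) :=
      Finset.le_sup' (fun i => - D.f i x / D.f i D.p) (Finset.mem_univ i)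
    rw [div_le_iff₀ (D.f_p_pos i)] at h1
    linarith
  obtain ⟨c, hc, hx⟩ := D.gen (x + T • D.p) (fun i => by
    rw [map_add, map_smul, smul_eq_mul]
    exact hT i)
  refine ⟨c - T • (fun _ => (Fintype.card V : ℝ)⁻¹), ?_⟩
  rw [map_sub, map_smul, D.pi_apply c, ← hx]
  simp [Dat.p]

/-- key lemma -/
theorem Dat.key (D : Dat V N E) {x : V → ℝ} {a : N} {μ : ℝ} (h1 : ∃ i, D.f i (D.pi x) = 0)
    (h2 : 0 ≤ D.f a (D.pi x)) (h3 : ∀ δ, μ ≤ x δ) (h4 : ∀ δ, 0 < D.f a (D.v δ) → x δ = μ) :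
    μ = 0 ∧ D.f a (D.pi x) = 0 := by
  classical
  obtain ⟨i, hi⟩ := h1
  obtain ⟨δ₀, hδ₀⟩ := D.pos a
  have : Nonempty V := ⟨δ₀⟩
  have hs : (0 : ℝ) < Fintype.card V := by
    have := Fintype.card_pos (α := V)
    positivity
  have e1 : ∀ j, D.f j (D.pi x) = (∑ δ, (x δ - μ) * D.f j (D.v δ)) +
      μ * Fintype.card V * D.f j D.p := by
    intro j
    rw [Dat.p, Dat.f_pi, Dat.f_pi, ← Finset.mul_sum]
    have : (Fintype.card V : ℝ) * (Fintype.card V : ℝ)⁻¹ = 1 := mul_inv_cancel₀ hs.ne'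
    calc ∑ δ, x δ * D.f j (D.v δ) = (∑ δ, (x δ - μ) * D.f j (D.v δ)) + μ * ∑ δ, D.f j (D.v δ) := by
          rw [Finset.mul_sum, ← Finset.sum_add_distrib]
          exact Finset.sum_congr rfl fun δ _ => by ring
      _ = _ := by
          rw [show μ * (Fintype.card V : ℝ) * ((Fintype.card V : ℝ)⁻¹ * ∑ δ, D.f j (D.v δ)) =
            μ * ((Fintype.card V : ℝ) * (Fintype.card V : ℝ)⁻¹) * ∑ δ, D.f j (D.v δ) by ring, this]
          ring
  have e2 : ∑ δ, (x δ - μ) * D.f a (D.v δ) = 0 := by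
    apply Finset.sum_eq_zero
    intro δ _
    rcases (D.hf a δ).lt_or_eq with h | h
    · rw [h4 δ h, sub_self, zero_mul]
    · rw [← h, mul_zero]
  have e3 : 0 ≤ ∑ δ, (x δ - μ) * D.f i (D.v δ) :=
    Finset.sum_nonneg fun δ _ => mul_nonneg (sub_nonneg.2 (h3 δ)) (D.hf i δ)
  have e4 := e1 i
  rw [hi] at e4
  have e5 := e1 a
  rw [e2, zero_add] at e5
  have hpi := D.f_p_pos i
  have hpa := D.f_p_pos a
  have hμ : μ ≤ 0 := by
    by_contra hμ
    push Not at hμ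
    have : 0 < μ * Fintype.card V * D.f i D.p := by positivity
    linarith
  have hμ0 : μ = 0 := by
    by_contra hne
    have hlt : μ < 0 := lt_of_le_of_ne hμ hne
    have : μ * Fintype.card V * D.f a D.p < 0 := by
      have : 0 < (Fintype.card V : ℝ) * D.f a D.p := by positivity
      nlinarith
    linarith
  refine ⟨hμ0, ?_⟩
  rw [e5, hμ0]
  ring

theorem Dat.W_iff (D : Dat V N E) {A : Set N} {x : V → ℝ} :
    x ∉ D.W A ↔ ∃ a ∈ A, ∃ μ, (∀ δ, μ ≤ x δ) ∧ ∀ δ, 0 < D.f a (D.v δ) → x δ = μ := by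
  constructor
  · intro h
    simp only [Dat.W, Set.mem_ofPred_eq, not_forall, not_exists, not_and, not_lt] at h
    obtain ⟨a, ha, h⟩ := h
    obtain ⟨δ₀, hδ₀⟩ := D.pos a
    refine ⟨a, ha, x δ₀, fun δ => h δ₀ hδ₀ δ, fun δ hδ => le_antisymm (h δ hδ δ₀) (h δ₀ hδ₀ δ)⟩
  · rintro ⟨a, ha, μ, h1, h2⟩ h
    obtain ⟨δ, hδ, δ', hδ'⟩ := h a ha
    rw [h2 δ hδ] at hδ'
    exact absurd (h1 δ') (not_le.2 hδ')

/-- invariance of `W` -/
theorem Dat.W_affine (D : Dat V N E) {A : Set N} {x : V → ℝ} (h : x ∈ D.W A) {β : ℝ} (hβ : 0 < β)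
    (c : ℝ) {x' : V → ℝ} (hx' : ∀ δ, x' δ = c + β * x δ) : x' ∈ D.W A := by
  intro a ha
  obtain ⟨δ, hδ, δ', hδ'⟩ := h a ha
  refine ⟨δ, hδ, δ', ?_⟩
  rw [hx', hx']
  have := mul_lt_mul_of_pos_left hδ' hβ
  linarith

end Pool.Agent.K1H41.DG
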