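import Pool.Agent.K1H41.DG.P2

set_option autoImplicit false

namespace Pool.Agent.K1H41.DG

open Finset

variable {V N : Type} [Fintype V] [Fintype N] {E : Type} [NormedAddCommGroup E]
    [NormedSpace ℝ E]

/-- the boundary of the polytope -/
def Dat.B (D : Dat V N E) : Set E := {z | z ∈ D.P ∧ ∃ i, D.f i z = 0}

theorem Dat.cone_B (D : Dat V N E) {t : ℝ} {z : E} :
    (t, z) ∈ Cone D.B ↔ (∀ i, 0 ≤ D.f i z) ∧ (∃ i, D.f i z = 0) ∧ D.l z = t ∧ 0 ≤ t ∨
      (t = 0 ∧ z = 0 ∧ IsEmpty N) := by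
  constructor
  · rintro (⟨h1, h2⟩ | ⟨h1, h2⟩)
    · simp only at h1 h2
      subst h1 h2
      by_cases hN : IsEmpty N
      · exact Or.inr ⟨rfl, rfl, hN⟩
      · rw [not_isEmpty_iff] at hN
        exact Or.inl ⟨fun i => by simp, ⟨hN.some, by simp⟩, by simp, le_rfl⟩
    · simp only at h1 h2
      obtain ⟨⟨h3, h4⟩, i, h5⟩ := h2
      refine Or.inl ⟨fun j => ?_, ⟨i, ?_⟩, ?_, h1.le⟩
      · have := h4 j
        rw [map_smul, smul_eq_mul] at this
        exact nonneg_of_mul_nonneg_right this (inv_pos.2 h1)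
      · rw [map_smul, smul_eq_mul] at h5
        rcases mul_eq_zero.1 h5 with h | h
        · exact absurd h (inv_pos.2 h1).ne'
        · exact h
      · rw [map_smul, smul_eq_mul] at h3
        field_simp at h3
        exact h3
  · rintro (⟨h1, ⟨i, h2⟩, h3, h4⟩ | ⟨rfl, rfl, h⟩)
    · rcases h4.eq_or_lt with h | h
      · left
        refine ⟨h.symm, ?_⟩
        exact D.eq_zero h1 (by rw [h3, ← h])
      · right
        refine ⟨h, ⟨⟨?_, fun j => ?_⟩, i, ?_⟩⟩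
        · simp only [map_smul, smul_eq_mul, h3]
          exact inv_mul_cancel₀ h.ne'
        · simp only [map_smul, smul_eq_mul]
          exact mul_nonneg (inv_pos.2 h).le (h1 j)
        · simp [h2]
    · left
      simp

/-- the set-up for the proof of P2 -/
structure Set2 (D : Dat V N E) (A : Set N) where
  κ : E → V → ℝ
  hκ : ∀ x ∈ D.P, κ x ∈ stdSimplex ℝ V ∧ D.pi (κ x) = x
  α : E → ℝ
  hα0 : ∀ z ∈ D.B, 0 ≤ α z
  hα1 : ∀ z, α z ≤ 1
  hα : ∀ z ∈ D.B, (0 < α z ↔ ∀ a ∈ A, 0 < D.f a z)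
  hN : Nonempty N
  hV : Nonempty V
  hA : A.Nonempty

namespace Set2

variable {D : Dat V N E} {A : Set N} (S : Set2 D A)
include S

/-- the cone extension of `κ` -/
noncomputable def kap (q : ℝ × E) : V → ℝ := q.1 • S.κ (q.1⁻¹ • q.2)

/-- the cone extension of `α` -/
noncomputable def alp (q : ℝ × E) : ℝ := q.1 • S.α (q.1⁻¹ • q.2)

/-- the height of the radial projection -/
noncomputable def lam (x : V → ℝ) : ℝ :=
  Finset.univ.sup' (Finset.univ_nonempty_iff.2 S.hN)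
    (fun i => - D.f i (D.pi x - (∑ δ, x δ) • D.p) / D.f i D.p)

/-- the radial projection as a point of the cone over the boundary -/
noncomputable def Z (x : V → ℝ) : E := D.pi x - (∑ δ, x δ) • D.p + S.lam x • D.p

/-- both -/
noncomputable def q (x : V → ℝ) : ℝ × E := (S.lam x, S.Z x)

/-- the remaining component -/
noncomputable def w (x : V → ℝ) : V → ℝ :=
  fun δ => x δ - (∑ δ', x δ') / Fintype.card V - S.kap (S.q x) δ + S.lam x / Fintype.card V

theorem l_y (x : V → ℝ) : D.l (D.pi x - (∑ δ, x δ) • D.p) = 0 := by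
  have := S.hV
  rw [map_sub, map_smul, D.l_pi, D.l_p]
  simp

theorem le_lam (x : V → ℝ) (i : N) : - D.f i (D.pi x - (∑ δ, x δ) • D.p) / D.f i D.p ≤ S.lam x :=
  Finset.le_sup' (fun i => - D.f i (D.pi x - (∑ δ, x δ) • D.p) / D.f i D.p) (Finset.mem_univ i)

theorem f_Z_nonneg (x : V → ℝ) (i : N) : 0 ≤ D.f i (S.Z x) := by
  have h := S.le_lam x i
  rw [div_le_iff₀ (D.f_p_pos i)] at h
  rw [Z, map_add, map_smul, smul_eq_mul]
  linarith

theorem f_Z_zero (x : V → ℝ) : ∃ i, D.f i (S.Z x) = 0 := by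
  obtain ⟨i, _, hi⟩ := Finset.exists_mem_eq_sup' (Finset.univ_nonempty_iff.2 S.hN)
    (fun i => - D.f i (D.pi x - (∑ δ, x δ) • D.p) / D.f i D.p)
  refine ⟨i, ?_⟩
  have h : S.lam x = - D.f i (D.pi x - (∑ δ, x δ) • D.p) / D.f i D.p := hi
  rw [Z, map_add, map_smul, smul_eq_mul, h, div_mul_cancel₀ _ (D.f_p_pos i).ne']
  ring

theorem l_Z (x : V → ℝ) : D.l (S.Z x) = S.lam x := by
  have := S.hV
  rw [Z, map_add, S.l_y, map_smul, D.l_p]
  simp

theorem lam_nonneg (x : V → ℝ) : 0 ≤ S.lam x := by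
  by_contra h
  push Not at h
  have h1 : ∀ i, 0 < D.f i (D.pi x - (∑ δ, x δ) • D.p) := by
    intro i
    have h2 := lt_of_le_of_lt (S.le_lam x i) h
    rw [div_lt_iff₀ (D.f_p_pos i)] at h2
    linarith
  have h3 := D.eq_zero (fun i => (h1 i).le) (S.l_y x)
  obtain ⟨i⟩ := S.hN
  have := h1 i
  rw [h3, map_zero] at this
  exact lt_irrefl _ this

theorem q_mem (x : V → ℝ) : S.q x ∈ Cone D.B :=
  (D.cone_B).2 (Or.inl ⟨S.f_Z_nonneg x, S.f_Z_zero x, S.l_Z x, S.lam_nonneg x⟩)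

theorem Z_eq_zero {x : V → ℝ} (h : S.lam x = 0) : S.Z x = 0 :=
  D.eq_zero (S.f_Z_nonneg x) (by rw [S.l_Z, h])

theorem pi_kap {q : ℝ × E} (h : q ∈ Cone D.B) : D.pi (S.kap q) = q.2 ∧ ∀ δ, 0 ≤ S.kap q δ := by
  rcases h with ⟨h1, h2⟩ | ⟨h1, h2, h3⟩
  · rw [kap, h1, h2]
    simp
  · obtain ⟨h4, h5⟩ := S.hκ _ h2
    refine ⟨?_, fun δ => ?_⟩
    · rw [kap, map_smul, h5, smul_smul, mul_inv_cancel₀ h1.ne', one_smul]
    · exact mul_nonneg h1.le (h4.1 δ)

theorem kap_zero {q : ℝ × E} (h : q ∈ Cone D.B) {a : N} (ha : D.f a q.2 = 0) {δ : V}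
    (hδ : 0 < D.f a (D.v δ)) : S.kap q δ = 0 := by
  obtain ⟨h1, h2⟩ := S.pi_kap h
  rw [← h1, D.f_pi] at ha
  have h3 := (Finset.sum_eq_zero_iff_of_nonneg
    (fun δ _ => mul_nonneg (h2 δ) (D.hf a δ))).1 ha δ (Finset.mem_univ _)
  rcases mul_eq_zero.1 h3 with h | h
  · exact h
  · exact absurd h hδ.ne'

theorem pi_const (c : ℝ) : D.pi (fun _ => c) = (c * Fintype.card V) • D.p := by
  have := S.hV
  have hs : (Fintype.card V : ℝ) ≠ 0 := by
    have := Fintype.card_pos (α := V)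
    positivity
  rw [Dat.p, ← map_smul]
  congr 1
  ext δ
  simp [hs]

theorem x_eq (x : V → ℝ) (δ : V) :
    x δ = ((∑ δ', x δ') / Fintype.card V - S.lam x / Fintype.card V) + S.kap (S.q x) δ +
      S.w x δ := by
  rw [w]
  ring

theorem pi_w (x : V → ℝ) : D.pi (S.w x) = 0 := by
  have := S.hV
  have hs : (Fintype.card V : ℝ) ≠ 0 := by
    have := Fintype.card_pos (α := V)
    positivity
  have h1 : S.w x = x - S.kap (S.q x) -
      (fun _ => ((∑ δ', x δ') / Fintype.card V - S.lam x / Fintype.card V)) := by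
    ext δ
    simp only [w, Pi.sub_apply]
    ring
  rw [h1, map_sub, map_sub, (S.pi_kap (S.q_mem x)).1, S.pi_const]
  have h2 : ((∑ δ', x δ') / Fintype.card V - S.lam x / Fintype.card V) * (Fintype.card V : ℝ) =
      (∑ δ', x δ') - S.lam x := by
    field_simp
  rw [h2]
  change D.pi x - (D.pi x - (∑ δ, x δ) • D.p + S.lam x • D.p) -
    ((∑ δ', x δ') - S.lam x) • D.p = 0
  module

/-- the case excluded for points of `W` -/
theorem excl {x : V → ℝ} (hx : x ∈ D.W A) (hw : S.w x = 0) (ha : S.alp (S.q x) ≤ 0) : False := by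
  obtain ⟨a₀, ha₀⟩ := S.hA
  rcases (S.lam_nonneg x).eq_or_lt with h | h
  · -- constant
    obtain ⟨δ, hδ, δ', hδ'⟩ := hx a₀ ha₀
    rw [S.x_eq x δ', S.x_eq x δ, hw] at hδ'
    have : S.kap (S.q x) = 0 := by
      rw [kap, q, ← h]
      simp
    rw [this] at hδ'
    exact lt_irrefl _ hδ'
  · have hz : (S.lam x)⁻¹ • S.Z x ∈ D.B := by
      rcases S.q_mem x with ⟨h1, _⟩ | ⟨_, h2⟩
      · exact absurd h1 h.ne'
      · exact h2
    have h1 : S.α ((S.lam x)⁻¹ • S.Z x) ≤ 0 := by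
      by_contra hc
      push Not at hc
      have : 0 < S.alp (S.q x) := mul_pos h hc
      linarith
    have h2 : ¬ ∀ a ∈ A, 0 < D.f a ((S.lam x)⁻¹ • S.Z x) := by
      rw [← S.hα _ hz]
      exact not_lt.2 h1
    push Not at h2
    obtain ⟨a, haA, h3⟩ := h2
    have h4 : D.f a (S.Z x) = 0 := by
      refine le_antisymm ?_ (S.f_Z_nonneg x a)
      rw [map_smul, smul_eq_mul] at h3
      by_contra hc
      push Not at hc
      have : 0 < (S.lam x)⁻¹ * D.f a (S.Z x) := mul_pos (inv_pos.2 h) hc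
      linarith
    obtain ⟨δ, hδ, δ', hδ'⟩ := hx a haA
    rw [S.x_eq x δ', S.x_eq x δ, hw, S.kap_zero (S.q_mem x) h4 hδ] at hδ'
    have := (S.pi_kap (S.q_mem x)).2 δ'
    simp only [Pi.zero_apply] at hδ'
    linarith

/-- the segment of the first homotopy -/
theorem seg {x : V → ℝ} (hx : x ∈ D.W A) {s : ℝ} (hs0 : 0 ≤ s) (hs1 : s ≤ 1)
    (hs : S.alp (S.q x) ≤ s * S.lam x) : s • S.kap (S.q x) + S.w x ∈ D.W A := by
  by_contra hc
  obtain ⟨a, haA, μ, h1, h2⟩ := (D.W_iff).1 hc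
  have hpi : D.pi (s • S.kap (S.q x) + S.w x) = s • S.Z x := by
    rw [map_add, map_smul, S.pi_w, (S.pi_kap (S.q_mem x)).1, add_zero, q]
  obtain ⟨i, hi⟩ := S.f_Z_zero x
  obtain ⟨hμ, h3⟩ := D.key (x := s • S.kap (S.q x) + S.w x) (a := a) (μ := μ)
    ⟨i, by rw [hpi, map_smul, hi, smul_zero]⟩
    (by rw [hpi, map_smul]; exact mul_nonneg hs0 (S.f_Z_nonneg x a)) h1 h2
  subst hμ
  rw [hpi, map_smul, smul_eq_mul] at h3
  rcases hs0.eq_or_lt with h0 | h0
  · -- s = 0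
    subst h0
    have hw : S.w x = 0 := D.ker_eq_zero (S.pi_w x) (fun δ => by simpa using h1 δ)
    exact S.excl hx hw (by simpa using hs)
  · have h4 : D.f a (S.Z x) = 0 := by
      rcases mul_eq_zero.1 h3 with h | h
      · exact absurd h h0.ne'
      · exact h
    obtain ⟨δ, hδ, δ', hδ'⟩ := hx a haA
    have h5 := h2 δ hδ
    have h6 := S.kap_zero (S.q_mem x) h4 hδ
    have h7 := h1 δ'
    have h8 := (S.pi_kap (S.q_mem x)).2 δ'
    simp only [Pi.add_apply, Pi.smul_apply, smul_eq_mul] at h5 h7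
    rw [h6, mul_zero, zero_add] at h5
    rw [S.x_eq x δ', S.x_eq x δ, h5, h6] at hδ'
    have h9 : 0 ≤ (1 - s) * S.kap (S.q x) δ' := mul_nonneg (by linarith) h8
    linarith

end Set2

end Pool.Agent.K1H41.DG
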