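import Pool.Agent.K1H41.DG.P2b

set_option autoImplicit false

namespace Pool.Agent.K1H41.DG

open Finset

variable {V N : Type} [Fintype V] [Fintype N] {E : Type} [NormedAddCommGroup E]
    [NormedSpace ℝ E]

theorem Dat.exists_coeff (D : Dat V N E) {x : E} (h : x ∈ D.P) :
    ∃ c ∈ stdSimplex ℝ V, D.pi c = x := by
  obtain ⟨c, hc, hx⟩ := D.gen x h.2
  refine ⟨c, ⟨hc, ?_⟩, hx.symm⟩
  rw [← D.l_pi, D.pi_apply, ← hx, h.1]

theorem Dat.P_bound (D : Dat V N E) {x : E} (h : x ∈ D.P) : ‖x‖ ≤ ∑ δ, ‖D.v δ‖ := by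
  obtain ⟨c, ⟨hc, hc1⟩, rfl⟩ := D.exists_coeff h
  rw [D.pi_apply]
  refine (norm_sum_le _ _).trans (Finset.sum_le_sum fun δ _ => ?_)
  rw [norm_smul, Real.norm_of_nonneg (hc δ)]
  refine mul_le_of_le_one_left (norm_nonneg _) ?_
  rw [← hc1]
  exact Finset.single_le_sum (fun δ _ => hc δ) (Finset.mem_univ δ)

namespace Set2

variable {D : Dat V N E} {A : Set N} (S : Set2 D A)
include S

/-- the cone extension of `z ↦ α z • z` -/
noncomputable def alz (q : ℝ × E) : E := q.1 • (S.α (q.1⁻¹ • q.2) • (q.1⁻¹ • q.2))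

variable {m : ℕ} (ω : (Fin m → ℝ) →ₗ[ℝ] (V → ℝ)) (ω' : (V → ℝ) →ₗ[ℝ] (Fin m → ℝ))

/-- the normalising factor -/
noncomputable def nf (b : Fin m → ℝ) (q : ℝ × E) : ℝ := (∑ i, |b i|) + S.alp q

/-- the map to the join, in coordinates -/
noncomputable def Phi0 (b : Fin m → ℝ) (q : ℝ × E) : (Fin m → ℝ) × ℝ × E :=
  (S.nf b q)⁻¹ • (b, S.alp q, S.alz q)

/-- the map to the join -/
noncomputable def Phi (x : V → ℝ) : (Fin m → ℝ) × ℝ × E := S.Phi0 (ω' (S.w x)) (S.q x)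

/-- the map from the join -/
noncomputable def Psi (y : (Fin m → ℝ) × ℝ × E) : V → ℝ := S.kap y.2 + ω y.1

theorem alp_nonneg {q : ℝ × E} (h : q ∈ Cone D.B) : 0 ≤ S.alp q := by
  rcases h with ⟨h1, h2⟩ | ⟨h1, h2⟩
  · rw [alp, h1]
    simp
  · exact mul_nonneg h1.le (S.hα0 _ h2)

theorem alp_le {q : ℝ × E} (h : q ∈ Cone D.B) : S.alp q ≤ q.1 := by
  rcases h with ⟨h1, h2⟩ | ⟨h1, h2⟩
  · rw [alp, h1]
    simp
  · exact mul_le_of_le_one_right h1.le (S.hα1 _)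

theorem Phi0_mem {b : Fin m → ℝ} {q : ℝ × E} (h : q ∈ Cone D.B) (hn : 0 < S.nf b q) :
    S.Phi0 b q ∈ J m (D.U A) := by
  have hn' := inv_pos.2 hn
  refine ⟨?_, ?_⟩
  · simp only [Phi0, Prod.smul_fst, Prod.smul_snd, Pi.smul_apply, smul_eq_mul, abs_mul,
      abs_of_pos hn', ← Finset.mul_sum]
    rw [← mul_add]
    exact inv_mul_cancel₀ hn.ne'
  · simp only [Phi0, Prod.smul_mk]
    rcases h with ⟨h1, h2⟩ | ⟨h1, h2⟩
    · left
      simp [alp, alz, h1]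
    · rcases (S.hα0 _ h2).eq_or_lt with h3 | h3
      · left
        simp [alp, alz, ← h3]
      · right
        have h4 : 0 < S.alp q := mul_pos h1 h3
        refine ⟨mul_pos hn' h4, ?_⟩
        have h5 : ((S.nf b q)⁻¹ • S.alp q)⁻¹ • (S.nf b q)⁻¹ • S.alz q = q.1⁻¹ • q.2 := by
          have h6 : S.alz q = S.alp q • (q.1⁻¹ • q.2) := by
            rw [alz, alp, smul_smul, smul_eq_mul]
          rw [h6, smul_smul, smul_smul, smul_eq_mul]
          have : ((S.nf b q)⁻¹ * S.alp q)⁻¹ * ((S.nf b q)⁻¹ * S.alp q) = 1 :=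
            inv_mul_cancel₀ (mul_pos hn' h4).ne'
          rw [show ((S.nf b q)⁻¹ * S.alp q)⁻¹ * (S.nf b q)⁻¹ * S.alp q =
            ((S.nf b q)⁻¹ * S.alp q)⁻¹ * ((S.nf b q)⁻¹ * S.alp q) by ring, this, one_smul]
        simp only [h5]
        exact ⟨h2.1, h2.2, (S.hα _ h2).1 h3⟩

theorem nf_pos {x : V → ℝ} (hω : ∀ w, D.pi w = 0 → ω (ω' w) = w) (hx : x ∈ D.W A) :
    0 < S.nf (ω' (S.w x)) (S.q x) := by
  have h1 : 0 ≤ ∑ i, |ω' (S.w x) i| := Finset.sum_nonneg fun i _ => abs_nonneg _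
  have h2 := S.alp_nonneg (S.q_mem x)
  rw [nf]
  by_contra hc
  have h3 : ∑ i, |ω' (S.w x) i| = 0 := by linarith
  have h4 : S.alp (S.q x) ≤ 0 := by linarith
  have h5 : ω' (S.w x) = 0 := by
    ext i
    have := (Finset.sum_eq_zero_iff_of_nonneg (fun i _ => abs_nonneg _)).1 h3 i (Finset.mem_univ _)
    simpa using this
  have h6 : S.w x = 0 := by
    rw [← hω _ (S.pi_w x), h5, map_zero]
  exact S.excl hx h6 h4

theorem Phi_mem {x : V → ℝ} (hω : ∀ w, D.pi w = 0 → ω (ω' w) = w) (hx : x ∈ D.W A) :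
    S.Phi ω' x ∈ J m (D.U A) := S.Phi0_mem (S.q_mem x) (S.nf_pos ω ω' hω hx)

theorem U_sub_B : D.U A ⊆ D.B := fun _ h => ⟨h.1, h.2.1⟩

theorem Cone_U {q : ℝ × E} (h : q ∈ Cone (D.U A)) : q ∈ Cone D.B := by
  rcases h with h | ⟨h1, h2⟩
  · exact Or.inl h
  · exact Or.inr ⟨h1, S.U_sub_B h2⟩

theorem Psi_mem {y : (Fin m → ℝ) × ℝ × E} (hω0 : ∀ b, D.pi (ω b) = 0) (hω1 : ∀ b, ω' (ω b) = b)
    (hy : y ∈ J m (D.U A)) : S.Psi ω y ∈ D.W A := by
  obtain ⟨b, q⟩ := y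
  obtain ⟨hy1, hy2⟩ := hy
  simp only at hy1 hy2
  have hq := S.Cone_U hy2
  by_contra hc
  obtain ⟨a, haA, μ, h1, h2⟩ := (D.W_iff).1 hc
  have hpi : D.pi (S.Psi ω (b, q)) = q.2 := by
    rw [Psi, map_add, hω0, (S.pi_kap hq).1, add_zero]
  obtain ⟨hf1, ⟨i, hi⟩, hl, ht⟩ | ⟨_, _, hN⟩ := (D.cone_B (t := q.1) (z := q.2)).1 hq
  swap
  · exact hN.false S.hN.some
  obtain ⟨hμ, h3⟩ := D.key (x := S.Psi ω (b, q)) (a := a) (μ := μ)
    ⟨i, by rw [hpi, hi]⟩ (by rw [hpi]; exact hf1 a) h1 h2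
  subst hμ
  rw [hpi] at h3
  have hq0 : q.1 = 0 := by
    rcases hy2 with h | ⟨h4, h5⟩
    · exact h.1
    · have h6 := h5.2.2 a haA
      rw [map_smul, h3, smul_zero] at h6
      exact absurd h6 (lt_irrefl _)
  have hq2 : q.2 = 0 := D.eq_zero hf1 (by rw [hl, hq0])
  have h4 : S.Psi ω (b, q) = 0 := D.ker_eq_zero (by rw [hpi, hq2]) h1
  have h5 : ω b = 0 := by
    rw [Psi, kap, hq0] at h4
    simpa using h4
  have h6 : b = 0 := by rw [← hω1 b, h5, map_zero]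
  rw [h6, hq0] at hy1
  simp at hy1

/-- the composition on the join side: coordinates of `Psi y` -/
theorem q_Psi {y : (Fin m → ℝ) × ℝ × E} (hω0 : ∀ b, D.pi (ω b) = 0)
    (hy : y.2 ∈ Cone D.B) : S.q (S.Psi ω y) = y.2 ∧ S.w (S.Psi ω y) = ω y.1 := by
  obtain ⟨b, t, z⟩ := y
  simp only at hy
  have hVn := S.hV
  obtain ⟨hf1, ⟨i, hi⟩, hl, ht⟩ | ⟨_, _, hN⟩ := (D.cone_B (t := t) (z := z)).1 hy
  swap
  · exact absurd hN (not_isEmpty_iff.2 S.hN)
  have hpi : D.pi (S.Psi ω (b, (t, z))) = z := by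
    rw [Psi, map_add, hω0, (S.pi_kap hy).1, add_zero]
  have hsum : ∑ δ, S.Psi ω (b, (t, z)) δ = t := by
    rw [← D.l_pi, hpi, hl]
  have hlam : S.lam (S.Psi ω (b, (t, z))) = t := by
    apply le_antisymm
    · apply Finset.sup'_le
      intro j _
      rw [div_le_iff₀ (D.f_p_pos j), hpi, hsum, map_sub, map_smul, smul_eq_mul]
      have := hf1 j
      linarith
    · have := S.le_lam (S.Psi ω (b, (t, z))) i
      rw [hpi, hsum, map_sub, hi, map_smul, smul_eq_mul] at this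
      have h2 : -(0 - t * D.f i D.p) / D.f i D.p = t := by
        have := (D.f_p_pos i).ne'
        field_simp
        ring
      rw [h2] at this
      exact this
  have hZ : S.Z (S.Psi ω (b, (t, z))) = z := by
    rw [Z, hpi, hsum, hlam]
    abel
  have hq : S.q (S.Psi ω (b, (t, z))) = (t, z) := by
    rw [q, hlam, hZ]
  refine ⟨hq, ?_⟩
  ext δ
  simp only [w, hq, hlam, hsum]
  simp only [Psi, Pi.add_apply]
  ring

theorem Phi_Psi {y : (Fin m → ℝ) × ℝ × E} (hω0 : ∀ b, D.pi (ω b) = 0)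
    (hω1 : ∀ b, ω' (ω b) = b) (hy : y ∈ J m (D.U A)) :
    S.Phi ω' (S.Psi ω y) = S.Phi0 y.1 y.2 := by
  obtain ⟨h1, h2⟩ := S.q_Psi ω hω0 (y := y) (S.Cone_U hy.2)
  rw [Phi, h1, h2, hω1]

/-- the homotopy on the join side -/
theorem seg_J {y : (Fin m → ℝ) × ℝ × E} (hy : y ∈ J m (D.U A)) {τ : ℝ}
    (h0 : 0 ≤ τ) (h1 : τ ≤ 1) : (1 - τ) • y + τ • S.Phi0 y.1 y.2 ∈ J m (D.U A) := by
  obtain ⟨b, t, z⟩ := y
  obtain ⟨hy1, hy2⟩ := hy
  simp only at hy1 hy2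
  have hB := S.Cone_U hy2
  have ht : 0 ≤ t := by
    rcases hy2 with h | h
    · exact h.1.ge
    · exact h.1.le
  have hsum : 0 ≤ ∑ i, |b i| := Finset.sum_nonneg fun i _ => abs_nonneg _
  -- positivity of the norm
  have hn : 0 < S.nf b (t, z) := by
    rw [nf]
    rcases hy2 with ⟨h2, h3⟩ | ⟨h2, h3⟩
    · simp only at h2 h3
      rw [h2] at hy1
      have := S.alp_nonneg hB
      linarith
    · have h4 : 0 < S.alp (t, z) := mul_pos h2 ((S.hα _ (S.U_sub_B h3)).2 h3.2.2)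
      linarith
  have hmem := S.Phi0_mem (b := b) hB hn
  have hni := inv_pos.2 hn
  set n := S.nf b (t, z) with hnd
  have hc1 : 0 ≤ 1 - τ := by linarith
  have hβ : 0 ≤ (1 - τ) + τ * n⁻¹ := by positivity
  refine ⟨?_, ?_⟩
  · have e1 : ∀ i, ((1 - τ) • ((b, t, z) : (Fin m → ℝ) × ℝ × E) + τ • S.Phi0 b (t, z)).1 i =
        ((1 - τ) + τ * n⁻¹) * b i := by
      intro i
      simp only [Phi0, Prod.fst_add, Prod.smul_fst, Pi.add_apply, Pi.smul_apply, smul_eq_mul]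
      rw [← hnd]
      ring
    have e2 : ((1 - τ) • ((b, t, z) : (Fin m → ℝ) × ℝ × E) + τ • S.Phi0 b (t, z)).2.1 =
        (1 - τ) * t + τ * (n⁻¹ * S.alp (t, z)) := by
      simp only [Phi0, Prod.snd_add, Prod.fst_add, Prod.smul_snd, Prod.smul_fst, smul_eq_mul]
      rw [← hnd]
    rw [e2]
    simp only [e1, abs_mul, abs_of_nonneg hβ, ← Finset.mul_sum]
    have e3 : n = (∑ i, |b i|) + S.alp (t, z) := rfl
    have e4 : n⁻¹ * ((∑ i, |b i|) + S.alp (t, z)) = 1 := by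
      rw [← e3]
      exact inv_mul_cancel₀ hn.ne'
    have e5 : ((1 - τ) + τ * n⁻¹) * (∑ i, |b i|) + ((1 - τ) * t + τ * (n⁻¹ * S.alp (t, z))) =
        (1 - τ) * ((∑ i, |b i|) + t) + τ * (n⁻¹ * ((∑ i, |b i|) + S.alp (t, z))) := by ring
    rw [e5, hy1, e4]
    ring
  · have e : ((1 - τ) • ((b, t, z) : (Fin m → ℝ) × ℝ × E) + τ • S.Phi0 b (t, z)).2 =
        (((1 - τ) * t + τ * (n⁻¹ * S.alp (t, z))), (1 - τ) • z + τ • (n⁻¹ • S.alz (t, z))) := by
      simp only [Phi0, Prod.snd_add, Prod.smul_snd, Prod.smul_mk, Prod.mk_add_mk, smul_eq_mul]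
      rw [← hnd]
    rw [e]
    rcases hy2 with ⟨h2, h3⟩ | ⟨h2, h3⟩
    · simp only at h2 h3
      left
      simp [h2, h3, alp, alz]
    · right
      simp only at h2 h3
      have hα := (S.hα _ (S.U_sub_B h3)).2 h3.2.2
      set z' := t⁻¹ • z with hz'
      have hz : z = t • z' := by rw [hz', smul_smul, mul_inv_cancel₀ h2.ne', one_smul]
      have e1 : S.alp (t, z) = t * S.α z' := rfl
      have e2 : S.alz (t, z) = t • (S.α z' • z') := rfl
      set γ := (1 - τ) + τ * n⁻¹ * S.α z' with hγ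
      have hγ0 : 0 < γ := by
        rcases h0.eq_or_lt with h | h
        · rw [hγ, ← h]
          simp
        · have : 0 < τ * n⁻¹ * S.α z' := by positivity
          linarith
      have e3 : (1 - τ) * t + τ * (n⁻¹ * S.alp (t, z)) = γ * t := by
        rw [e1, hγ]
        ring
      have e4 : (1 - τ) • z + τ • (n⁻¹ • S.alz (t, z)) = (γ * t) • z' := by
        rw [e2, hz, hγ]
        module
      simp only [e3, e4]
      refine ⟨mul_pos hγ0 h2, ?_⟩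
      rw [smul_smul, inv_mul_cancel₀ (mul_pos hγ0 h2).ne', one_smul]
      exact h3

/-- the homotopy on the side of `W` -/
theorem seg_W {x : V → ℝ} (hω : ∀ w, D.pi w = 0 → ω (ω' w) = w) (hx : x ∈ D.W A) {τ : ℝ}
    (h0 : 0 ≤ τ) (h1 : τ ≤ 1) : (1 - τ) • x + τ • S.Psi ω (S.Phi ω' x) ∈ D.W A := by
  have hn := S.nf_pos ω ω' hω hx
  set n := S.nf (ω' (S.w x)) (S.q x) with hnd
  have hni := inv_pos.2 hn
  have hq := S.q_mem x
  have hlam := S.lam_nonneg x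
  have ha0 := S.alp_nonneg hq
  have ha1 : S.alp (S.q x) ≤ S.lam x := S.alp_le hq
  -- Psi (Phi x)
  obtain ⟨a, ha, ha', hPP⟩ : ∃ a : ℝ, 0 ≤ a ∧ a ≤ 1 ∧ (S.alp (S.q x) = a * S.lam x) ∧
      S.Psi ω (S.Phi ω' x) = n⁻¹ • (a • S.kap (S.q x) + S.w x) := by
    have hω2 : ω ((n⁻¹) • ω' (S.w x)) = n⁻¹ • S.w x := by
      rw [map_smul, hω _ (S.pi_w x)]
    rcases hq with ⟨h2, h3⟩ | ⟨h2, h3⟩
    · refine ⟨0, le_rfl, zero_le_one, ?_, ?_⟩
      · simp [alp, h2]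
      · rw [Psi, Phi, Phi0]
        simp only [Prod.smul_fst, Prod.smul_snd, ← hnd, hω2]
        simp [kap, alp, h2]
    · refine ⟨S.α ((S.q x).1⁻¹ • (S.q x).2), S.hα0 _ h3, S.hα1 _, ?_, ?_⟩
      · rw [alp, smul_eq_mul, mul_comm]
        rfl
      · rw [Psi, Phi, Phi0]
        simp only [Prod.smul_fst, Prod.smul_snd, ← hnd, hω2]
        rw [smul_add]
        congr 1
        set z' := (S.q x).1⁻¹ • (S.q x).2 with hz'
        have e1 : S.alp (S.q x) = (S.q x).1 * S.α z' := rfl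
        have e2 : S.alz (S.q x) = (S.q x).1 • (S.α z' • z') := rfl
        have e3 : S.kap (S.q x) = (S.q x).1 • S.κ z' := rfl
        rcases (S.hα0 _ h3).eq_or_lt with h4 | h4
        · rw [e1, e3, ← h4]
          simp [kap]
        · rw [kap, Prod.smul_fst, Prod.smul_snd]
          simp only
          have e4 : n⁻¹ • S.alz (S.q x) = (n⁻¹ • S.alp (S.q x)) • z' := by
            rw [e1, e2, smul_eq_mul]
            module
          have e5 : n⁻¹ • S.alp (S.q x) ≠ 0 := by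
            rw [e1, smul_eq_mul]
            positivity
          rw [e4, smul_smul, inv_mul_cancel₀ e5, one_smul, e3, e1, smul_eq_mul]
          module
  obtain ⟨hal, hPP⟩ := hPP
  -- the point of the segment
  have hβ : 0 < (1 - τ) + τ * n⁻¹ := by
    rcases h0.eq_or_lt with h | h
    · rw [← h]
      simp
    · have : 0 < τ * n⁻¹ := by positivity
      linarith
  set β := (1 - τ) + τ * n⁻¹ with hβd
  set s := ((1 - τ) + τ * n⁻¹ * a) / β with hs
  have hsβ : s * β = (1 - τ) + τ * n⁻¹ * a := by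
    rw [hs, div_mul_cancel₀ _ hβ.ne']
  have hτn : 0 ≤ τ * n⁻¹ := by positivity
  have hs0 : 0 ≤ s := by
    rw [hs]
    apply div_nonneg _ hβ.le
    have : 0 ≤ τ * n⁻¹ * a := by positivity
    linarith
  have hs1 : s ≤ 1 := by
    rw [hs, div_le_one hβ]
    have : τ * n⁻¹ * a ≤ τ * n⁻¹ := mul_le_of_le_one_right hτn ha'
    linarith
  have has : a ≤ s := by
    rw [hs, le_div_iff₀ hβ, hβd]
    have : a * (1 - τ) ≤ 1 - τ := mul_le_of_le_one_left (by linarith) ha'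
    nlinarith
  have hseg := S.seg hx hs0 hs1 (by
    rw [hal]
    exact mul_le_mul_of_nonneg_right has hlam)
  refine D.W_affine hseg hβ ((1 - τ) * ((∑ δ', x δ') / Fintype.card V -
    S.lam x / Fintype.card V)) (fun δ => ?_)
  rw [hPP]
  simp only [Pi.add_apply, Pi.smul_apply, smul_eq_mul]
  conv_lhs => rw [S.x_eq x δ]
  have e : β * (s * S.kap (S.q x) δ + S.w x δ) =
      (s * β) * S.kap (S.q x) δ + β * S.w x δ := by ring
  rw [e, hsβ, hβd]
  ring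

end Set2

end Pool.Agent.K1H41.DG
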