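import Pool.Agent.K1H41.DG.P2c

set_option autoImplicit false

namespace Pool.Agent.K1H41.DG

open Finset

variable {V N : Type} [Fintype V] [Fintype N] {E : Type} [NormedAddCommGroup E]
    [NormedSpace ℝ E]

theorem Dat.continuous_pi (D : Dat V N E) : Continuous D.pi := by
  have : (D.pi : (V → ℝ) → E) = fun x => ∑ δ, x δ • D.v δ := rfl
  rw [this]
  fun_prop

theorem t_P2 (hCE : S_CE) (hKAP : S_KAP) : S_P2 := by
  intro V N _ _ E _ _ _ D A m hA hm
  classical
  obtain ⟨a₀, ha₀⟩ := hA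
  have hN : Nonempty N := ⟨a₀⟩
  obtain ⟨δ₀, hδ₀⟩ := D.pos a₀
  have hV : Nonempty V := ⟨δ₀⟩
  obtain ⟨κ, hκc, hκ⟩ := hKAP V N E D hV
  set A' : Finset N := Finset.univ.filter (· ∈ A) with hA'
  have hA'n : A'.Nonempty := ⟨a₀, by simp [hA', ha₀]⟩
  set α : E → ℝ := fun z => min 1 (A'.inf' hA'n (fun a => D.f a z)) with hα
  have hαc : Continuous α := by
    apply continuous_const.min
    apply Continuous.finset_inf'_apply
    intro i _
    exact (D.f i).continuous
  obtain ⟨S, hSκ, hSα⟩ : ∃ S : Set2 D A, S.κ = κ ∧ S.α = α := ⟨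
    { κ := κ
      hκ := fun x hx => ⟨(hκ x hx).1, (hκ x hx).2⟩
      α := α
      hα0 := fun z hz => by
        refine le_min zero_le_one ?_
        exact Finset.le_inf' _ _ (fun a _ => hz.1.2 a)
      hα1 := fun z => min_le_left _ _
      hα := fun z hz => by
        rw [hα]
        simp only [lt_min_iff, zero_lt_one, true_and, Finset.lt_inf'_iff]
        constructor
        · intro h a ha
          exact h a (by simp [hA', ha])
        · intro h a ha
          exact h a (by simpa [hA'] using ha)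
      hN := hN
      hV := hV
      hA := ⟨a₀, ha₀⟩ }, rfl, rfl⟩
  -- the linear maps
  obtain ⟨ω, ω', hω0, hω1, hω2⟩ : ∃ (ω : (Fin m → ℝ) →ₗ[ℝ] (V → ℝ))
      (ω' : (V → ℝ) →ₗ[ℝ] (Fin m → ℝ)), (∀ b, D.pi (ω b) = 0) ∧ (∀ b, ω' (ω b) = b) ∧
      ∀ w, D.pi w = 0 → ω (ω' w) = w := by
    have h1 : Module.finrank ℝ (LinearMap.ker D.pi) = m := by
      have h2 := LinearMap.finrank_range_add_finrank_ker D.pi
      rw [LinearMap.range_eq_top.2 D.pi_surjective, finrank_top, Module.finrank_fintype_fun_eq_card]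
        at h2
      omega
    have e : (Fin m → ℝ) ≃ₗ[ℝ] LinearMap.ker D.pi :=
      LinearEquiv.ofFinrankEq _ _ (by rw [h1]; simp)
    set ω : (Fin m → ℝ) →ₗ[ℝ] (V → ℝ) := (LinearMap.ker D.pi).subtype ∘ₗ e.toLinearMap with hω
    have hinj : LinearMap.ker ω = ⊥ := by
      rw [LinearMap.ker_eq_bot, hω, LinearMap.coe_comp]
      exact (Submodule.injective_subtype _).comp e.injective
    obtain ⟨g, hg⟩ := LinearMap.exists_leftInverse_of_injective ω hinj
    refine ⟨ω, g, fun b => ?_, fun b => ?_, fun w hw => ?_⟩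
    · have := (e b).2
      rw [LinearMap.mem_ker] at this
      exact this
    · exact LinearMap.congr_fun hg b
    · obtain ⟨b, hb⟩ := e.surjective ⟨w, LinearMap.mem_ker.2 hw⟩
      have hb' : ω b = w := by
        rw [hω]
        simp [hb]
      rw [← hb']
      congr 1
      exact LinearMap.congr_fun hg b
  have hωc : Continuous ω := LinearMap.continuous_of_finiteDimensional ω
  have hωc' : Continuous ω' := LinearMap.continuous_of_finiteDimensional ω'
  -- continuity of the cone extensions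
  have hBP : D.B ⊆ D.P := fun _ h => h.1
  rw [← hSκ] at hκc hκ
  rw [← hSα] at hαc
  have hkc : ContinuousOn S.kap (Cone D.B) := by
    refine hCE E (V → ℝ) D.B S.κ 1 (hκc.mono hBP) (fun x hx => ?_)
    obtain ⟨h1, h2⟩ := (hκ x (hBP hx)).1
    rw [pi_norm_le_iff_of_nonneg zero_le_one]
    intro δ
    rw [Real.norm_of_nonneg (h1 δ), ← h2]
    exact Finset.single_le_sum (fun δ _ => h1 δ) (Finset.mem_univ δ)
  have hac : ContinuousOn S.alp (Cone D.B) := by
    refine hCE E ℝ D.B S.α 1 hαc.continuousOn (fun x hx => ?_)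
    rw [Real.norm_of_nonneg (S.hα0 x hx)]
    exact S.hα1 x
  have hazc : ContinuousOn S.alz (Cone D.B) := by
    refine hCE E E D.B (fun z => S.α z • z) (∑ δ, ‖D.v δ‖) (by fun_prop) (fun x hx => ?_)
    rw [norm_smul, Real.norm_of_nonneg (S.hα0 x hx)]
    exact (mul_le_of_le_one_left (norm_nonneg _) (S.hα1 x)).trans (D.P_bound (hBP hx))
  -- continuity of the maps
  have hpic := D.continuous_pi
  have hlamc : Continuous S.lam := by
    have : S.lam = fun x => Finset.univ.sup' (Finset.univ_nonempty_iff.2 S.hN)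
      (fun i => - D.f i (D.pi x - (∑ δ, x δ) • D.p) / D.f i D.p) := rfl
    rw [this]
    apply Continuous.finset_sup'_apply
    intro i _
    fun_prop
  have hZc : Continuous S.Z := by
    have : S.Z = fun x => D.pi x - (∑ δ, x δ) • D.p + S.lam x • D.p := rfl
    rw [this]
    fun_prop
  have hqc : Continuous S.q := hlamc.prodMk hZc
  have hkqc : Continuous (fun x => S.kap (S.q x)) :=
    hkc.comp_continuous hqc (fun x => S.q_mem x)
  have hwc : Continuous S.w := by
    have : S.w = fun x δ => x δ - (∑ δ', x δ') / Fintype.card V - S.kap (S.q x) δ +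
      S.lam x / Fintype.card V := rfl
    rw [this]
    apply continuous_pi
    intro δ
    have h2 : Continuous (fun x => S.kap (S.q x) δ) := (continuous_apply δ).comp hkqc
    fun_prop
  have hPhi0 : ContinuousOn (fun y : (Fin m → ℝ) × ℝ × E => S.Phi0 y.1 y.2)
      {y | y.2 ∈ Cone D.B ∧ 0 < S.nf y.1 y.2} := by
    have h2 : Set.MapsTo (fun y : (Fin m → ℝ) × ℝ × E => y.2)
        {y | y.2 ∈ Cone D.B ∧ 0 < S.nf y.1 y.2} (Cone D.B) := fun y hy => hy.1
    have h3 : ContinuousOn (fun y : (Fin m → ℝ) × ℝ × E => S.alp y.2)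
        {y | y.2 ∈ Cone D.B ∧ 0 < S.nf y.1 y.2} := hac.comp continuous_snd.continuousOn h2
    have h4 : ContinuousOn (fun y : (Fin m → ℝ) × ℝ × E => S.alz y.2)
        {y | y.2 ∈ Cone D.B ∧ 0 < S.nf y.1 y.2} := hazc.comp continuous_snd.continuousOn h2
    have h5 : ContinuousOn (fun y : (Fin m → ℝ) × ℝ × E => S.nf y.1 y.2)
        {y | y.2 ∈ Cone D.B ∧ 0 < S.nf y.1 y.2} := by
      unfold Set2.nf
      refine ContinuousOn.add ?_ h3
      fun_prop
    unfold Set2.Phi0
    refine (h5.inv₀ (fun y hy => hy.2.ne')).smul ?_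
    exact continuous_fst.continuousOn.prodMk (h3.prodMk h4)
  have hPhic : ContinuousOn (S.Phi ω') (D.W A) := by
    have h2 : Continuous (fun x : V → ℝ => ((ω' (S.w x), S.q x) : (Fin m → ℝ) × ℝ × E)) :=
      (hωc'.comp hwc).prodMk hqc
    have h3 : Set.MapsTo (fun x : V → ℝ => ((ω' (S.w x), S.q x) : (Fin m → ℝ) × ℝ × E)) (D.W A)
        {y | y.2 ∈ Cone D.B ∧ 0 < S.nf y.1 y.2} := by
      intro x hx
      exact ⟨S.q_mem x, S.nf_pos ω ω' hω2 hx⟩
    have h4 := hPhi0.comp h2.continuousOn h3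
    have h5 : S.Phi ω' = (fun y : (Fin m → ℝ) × ℝ × E => S.Phi0 y.1 y.2) ∘
        (fun x : V → ℝ => ((ω' (S.w x), S.q x) : (Fin m → ℝ) × ℝ × E)) := rfl
    rw [h5]
    exact h4
  have hPsic : ContinuousOn (S.Psi ω) (J m (D.U A)) := by
    unfold Set2.Psi
    refine ContinuousOn.add ?_ (hωc.comp continuous_fst).continuousOn
    exact hkc.comp continuous_snd.continuousOn (fun y hy => S.Cone_U hy.2)
  let f : C(D.W A, J m (D.U A)) :=
    ⟨fun x => ⟨S.Phi ω' x, S.Phi_mem ω ω' hω2 x.2⟩,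
      (continuousOn_iff_continuous_domRestrict.1 hPhic).subtype_mk _⟩
  let g : C(J m (D.U A), D.W A) :=
    ⟨fun y => ⟨S.Psi ω y, S.Psi_mem ω ω' hω0 hω1 y.2⟩,
      (continuousOn_iff_continuous_domRestrict.1 hPsic).subtype_mk _⟩
  refine ⟨⟨f, g, ?_, ?_⟩⟩
  · refine (homotopic_of_segment (ContinuousMap.id _) (g.comp f) (fun x t h0 h1 => ?_)).symm
    have h := S.seg_W ω ω' hω2 x.2 h0 h1
    have e : ((g.comp f) x : V → ℝ) = S.Psi ω (S.Phi ω' x) := rfl
    rw [e]
    exact h
  · refine (homotopic_of_segment (ContinuousMap.id _) (f.comp g) (fun y t h0 h1 => ?_)).symm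
    have := S.seg_J y.2 h0 h1
    rw [← S.Phi_Psi ω ω' hω0 hω1 y.2] at this
    exact this

end Pool.Agent.K1H41.DG
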