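import Pool.Agent.K1H41.DG.Basic

/-!
# Project DG: the homotopy type of Delta_beta and Gamma_beta (MP_a2a0e0_co)

Interface: definitions and the statements of the pieces.
-/

set_option autoImplicit false

namespace Pool.Agent.K1H41.DG

/-! ## Cones and joins with spheres inside a normed space -/

/-- the cone over a subset `X` (put at height one) -/
def Cone {F : Type} [AddCommGroup F] [Module ℝ F] (X : Set F) : Set (ℝ × F) :=
  {q | (q.1 = 0 ∧ q.2 = 0) ∨ (0 < q.1 ∧ q.1⁻¹ • q.2 ∈ X)}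

/-- the join of the sphere `∑ |b i| = 1` of dimension `m - 1` with `X` -/
def J {F : Type} [AddCommGroup F] [Module ℝ F] (m : ℕ) (X : Set F) :
    Set ((Fin m → ℝ) × ℝ × F) :=
  {q | (∑ i, |q.1 i|) + q.2.1 = 1 ∧ q.2 ∈ Cone X}

/-! ## The abstract set-up

`V` indexes the generators `v`, `N` the inequalities `f`; `l` is the height. -/

/-- A pointed polyhedral cone `{x | ∀ i, 0 ≤ f i x}` in `E` with nonempty interior, generated by
vectors `v δ` of height one. -/
structure Dat (V N : Type) [Fintype V] [Fintype N] (E : Type) [NormedAddCommGroup E]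
    [NormedSpace ℝ E] where
  v : V → E
  l : E →L[ℝ] ℝ
  f : N → E →L[ℝ] ℝ
  hl : ∀ δ, l (v δ) = 1
  hf : ∀ i δ, 0 ≤ f i (v δ)
  gen : ∀ x, (∀ i, 0 ≤ f i x) → ∃ c : V → ℝ, (∀ δ, 0 ≤ c δ) ∧ x = ∑ δ, c δ • v δ
  pos : ∀ i, ∃ δ, 0 < f i (v δ)

variable {V N : Type} [Fintype V] [Fintype N] {E : Type} [NormedAddCommGroup E]
    [NormedSpace ℝ E]

/-- the cross-section polytope -/
def Dat.P (D : Dat V N E) : Set E := {x | D.l x = 1 ∧ ∀ i, 0 ≤ D.f i x}

/-- the part of the boundary of the polytope where `f a > 0` for all `a ∈ A` -/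
def Dat.U (D : Dat V N E) (A : Set N) : Set E :=
  {x | x ∈ D.P ∧ (∃ i, D.f i x = 0) ∧ ∀ a ∈ A, 0 < D.f a x}

/-- the realization of `Delta` -/
def Dat.K (D : Dat V N E) (A : Set N) : Set (V → ℝ) :=
  {w | w ∈ stdSimplex ℝ V ∧ ∀ a ∈ A, ∃ δ, w δ = 0 ∧ 0 < D.f a (D.v δ)}

/-- the open set of `x` such that for no `a ∈ A` the function `x` is equal to its minimum on all
of `{δ | 0 < f a (v δ)}` -/
def Dat.W (D : Dat V N E) (A : Set N) : Set (V → ℝ) :=
  {x | ∀ a ∈ A, ∃ δ, 0 < D.f a (D.v δ) ∧ ∃ δ', x δ' < x δ}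

/-! ## Statements of the pieces -/

/-- KO. `K A` is homotopy equivalent to `W A`.
Maps: `w ↦ -w` and `x ↦ (ε x - x)_+ / sum`, `ε x = min_{a ∈ A} max {x δ | 0 < f a (v δ)}`. -/
def S_KO : Prop :=
  ∀ (V N : Type) [Fintype V] [Fintype N] (E : Type) [NormedAddCommGroup E] [NormedSpace ℝ E]
    (D : Dat V N E) (A : Set N), A.Nonempty →
    Nonempty (ContinuousMap.HomotopyEquiv (D.K A) (D.W A))

/-- KAP. a continuous section of the projection of the simplex to the polytope -/
def S_KAP : Prop :=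
  ∀ (V N : Type) [Fintype V] [Fintype N] (E : Type) [NormedAddCommGroup E] [NormedSpace ℝ E]
    [FiniteDimensional ℝ E] (D : Dat V N E), Nonempty V →
    ∃ κ : E → V → ℝ, ContinuousOn κ D.P ∧
      ∀ x ∈ D.P, κ x ∈ stdSimplex ℝ V ∧ ∑ δ, κ x δ • D.v δ = x

/-- CE. the cone extension of a bounded continuous function is continuous -/
def S_CE : Prop :=
  ∀ (F G : Type) [NormedAddCommGroup F] [NormedSpace ℝ F] [NormedAddCommGroup G]
    [NormedSpace ℝ G] (X : Set F) (g : F → G) (R : ℝ), ContinuousOn g X → (∀ x ∈ X, ‖g x‖ ≤ R) →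
    ContinuousOn (fun q : ℝ × F => q.1 • g (q.1⁻¹ • q.2)) (Cone X)

/-- P2. `W A` is homotopy equivalent to the join of the sphere of dimension `m - 1` with `U A` -/
def S_P2 : Prop :=
  ∀ (V N : Type) [Fintype V] [Fintype N] (E : Type) [NormedAddCommGroup E] [NormedSpace ℝ E]
    [FiniteDimensional ℝ E] (D : Dat V N E) (A : Set N) (m : ℕ), A.Nonempty →
    m + Module.finrank ℝ E = Fintype.card V →
    Nonempty (ContinuousMap.HomotopyEquiv (D.W A) (J m (D.U A)))

/-- JF. joins with spheres preserve homotopy equivalences -/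
def S_JF : Prop :=
  ∀ (F G : Type) [NormedAddCommGroup F] [NormedSpace ℝ F] [NormedAddCommGroup G]
    [NormedSpace ℝ G] (X : Set F) (Y : Set G) (m : ℕ), Bornology.IsBounded X →
    Bornology.IsBounded Y → Nonempty (ContinuousMap.HomotopyEquiv X Y) →
    Nonempty (ContinuousMap.HomotopyEquiv (J m X) (J m Y))

/-- JS. the join with the sphere of dimension `m - 1` is the `m`-fold suspension -/
def S_JS : Prop :=
  ∀ (F : Type) [NormedAddCommGroup F] [NormedSpace ℝ F] (X : Set F) (m : ℕ), IsCompact X →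
    Nonempty (J m X ≃ₜ iterSusp m (TopCat.of X))

/-- DU. the dual description of `U A`. The dual polytope is a convex set `Q` in a normed space
`H`, with the affine pairing `k0 δ + L δ h` of `h` with the generator `v δ`; a positive multiple
`r i` of the `i`-th inequality is the point `g i` of `Q`; the zero set of each `h ∈ Q` lies in
a facet. -/
def S_DU : Prop :=
  ∀ (V N : Type) [Fintype V] [Fintype N] (E : Type) [NormedAddCommGroup E] [NormedSpace ℝ E]
    [FiniteDimensional ℝ E] (D : Dat V N E) (A : Set N)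
    (H : Type) [NormedAddCommGroup H] [NormedSpace ℝ H] (Q : Set H) (k0 : V → ℝ)
    (L : V → H →L[ℝ] ℝ) (g : N → H) (r : N → ℝ),
    A.Nonempty → Convex ℝ Q → (∀ i, g i ∈ Q) → (∀ i, 0 < r i) →
    (∀ i δ, k0 δ + L δ (g i) = r i * D.f i (D.v δ)) →
    (∀ h ∈ Q, ∀ δ, 0 ≤ k0 δ + L δ h) →
    (∀ h ∈ Q, ∃ i, ∀ δ, k0 δ + L δ h = 0 → D.f i (D.v δ) = 0) →
    Nonempty (ContinuousMap.HomotopyEquiv (D.U A)
      ({h | h ∈ Q ∧ ∀ a ∈ A, ∃ δ, k0 δ + L δ h = 0 ∧ 0 < D.f a (D.v δ)} : Set H))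

/-- JC. the join of a sphere with a nonempty convex set is contractible -/
def S_JC : Prop :=
  ∀ (F : Type) [NormedAddCommGroup F] [NormedSpace ℝ F] (X : Set F) (m : ℕ), X.Nonempty →
    Convex ℝ X → ContractibleSpace (J m X)

end Pool.Agent.K1H41.DG
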