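import Pool.Agent.K1H41.DG.Def

/-! # DG-CFG: the cone is generated by the integer points on its extreme rays  (helper58) -/

set_option autoImplicit false

namespace Pool.Agent.K1H41.DG

namespace CFGp

open Finset

variable {r n : ℕ} {Φ : Matrix (Fin r) (Fin n) ℤ}


/-- the support -/
noncomputable def sp {n : ℕ} (x : EuclideanSpace ℝ (Fin n)) : Finset (Fin n) := by
  classical exact univ.filter fun j => x j ≠ 0

theorem mem_sp {x : EuclideanSpace ℝ (Fin n)} {j : Fin n} : j ∈ sp x ↔ x j ≠ 0 := by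
  classical
  simp [sp]

theorem sp_eq_empty {x : EuclideanSpace ℝ (Fin n)} : sp x = ∅ ↔ x = 0 := by
  constructor
  · intro h
    ext j
    by_contra hj
    have : j ∈ sp x := mem_sp.2 hj
    rw [h] at this
    simp at this
  · rintro rfl
    rw [Finset.eq_empty_iff_forall_notMem]
    intro j hj
    exact (mem_sp.1 hj) rfl

theorem exists_min_nat {α : Type} {P : α → Prop} (f : α → ℕ) (h : ∃ a, P a) :
    ∃ a, P a ∧ ∀ b, P b → f a ≤ f b := by
  classical
  have hex : ∃ m, ∃ a, P a ∧ f a = m := by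
    obtain ⟨a, ha⟩ := h
    exact ⟨f a, a, ha, rfl⟩
  obtain ⟨a, ha, hm⟩ := Nat.find_spec hex
  exact ⟨a, ha, fun b hb => by rw [hm]; exact Nat.find_min' hex ⟨b, hb, rfl⟩⟩

/-- the linear equations -/
def Ker (Φ : Matrix (Fin r) (Fin n) ℤ) (x : EuclideanSpace ℝ (Fin n)) : Prop := ∀ i, ∑ j, (Φ i j : ℝ) * x j = 0

theorem Ker.comb {x y : EuclideanSpace ℝ (Fin n)} (hx : Ker Φ x) (hy : Ker Φ y) (a b : ℝ) : Ker Φ (a • x + b • y) := by
  intro i
  have : ∑ j, (Φ i j : ℝ) * (a • x + b • y) j = a * ∑ j, (Φ i j : ℝ) * x j + b * ∑ j, (Φ i j : ℝ) * y j := by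
    rw [Finset.mul_sum, Finset.mul_sum, ← Finset.sum_add_distrib]
    refine Finset.sum_congr rfl fun j _ => ?_
    simp only [PiLp.add_apply, PiLp.smul_apply, smul_eq_mul]
    ring
  rw [this, hx i, hy i]; ring

theorem mem_cone {x : EuclideanSpace ℝ (Fin n)} : x ∈ cone Φ ↔ (∀ j, 0 ≤ x j) ∧ Ker Φ x := Iff.rfl

/-- minimal support -/
def Mn (Φ : Matrix (Fin r) (Fin n) ℤ) (x : EuclideanSpace ℝ (Fin n)) : Prop :=
  x ∈ cone Φ ∧ x ≠ 0 ∧ ∀ y ∈ cone Φ, y ≠ 0 → sp y ⊆ sp x → sp x ⊆ sp y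

theorem smul_mem {x : EuclideanSpace ℝ (Fin n)} (hx : x ∈ cone Φ) {a : ℝ} (ha : 0 ≤ a) : a • x ∈ cone Φ := by
  refine ⟨fun j => ?_, fun i => ?_⟩
  · simp only [PiLp.smul_apply, smul_eq_mul]
    exact mul_nonneg ha (hx.1 j)
  · have := Ker.comb (Φ := Φ) hx.2 hx.2 a 0 i
    simpa using this

theorem sp_smul {x : EuclideanSpace ℝ (Fin n)} {a : ℝ} (ha : a ≠ 0) : sp (a • x) = sp x := by
  ext j
  rw [mem_sp, mem_sp]
  simp [ha]

/-- uniqueness on minimal supports -/
theorem Mn.uniq {x y : EuclideanSpace ℝ (Fin n)} (hx : Mn Φ x) (hy : Ker Φ y) (hs : sp y ⊆ sp x) : ∃ c : ℝ, y = c • x := by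
  classical
  have hne : (sp x).Nonempty := by
    rw [Finset.nonempty_iff_ne_empty]
    intro h
    exact hx.2.1 (sp_eq_empty.1 h)
  obtain ⟨j0, hj0⟩ := hne
  have hx0 : x j0 ≠ 0 := mem_sp.1 hj0
  have hpos : ∀ j ∈ sp x, 0 < x j := fun j hj => lt_of_le_of_ne (hx.1.1 j) (Ne.symm (mem_sp.1 hj))
  -- reduction
  have key : ∀ z : EuclideanSpace ℝ (Fin n), Ker Φ z → sp z ⊆ sp x → z j0 = 0 → (∃ j, 0 < z j) → False := by
    intro z hz hsz hz0 ⟨j1, hj1⟩
    set P := univ.filter fun j => 0 < z j with hP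
    have hPne : P.Nonempty := ⟨j1, by rw [hP, mem_filter]; exact ⟨mem_univ _, hj1⟩⟩
    obtain ⟨j2, hj2, hmin⟩ := Finset.exists_min_image P (fun j => x j / z j) hPne
    rw [hP, mem_filter] at hj2
    set t := x j2 / z j2 with ht
    have hj2x : j2 ∈ sp x := hsz (mem_sp.2 hj2.2.ne')
    have ht0 : 0 < t := div_pos (hpos j2 hj2x) hj2.2
    have hw : (1 : ℝ) • x + (-t) • z ∈ cone Φ := by
      refine ⟨fun j => ?_, Ker.comb hx.1.2 hz 1 (-t)⟩
      simp only [PiLp.add_apply, PiLp.smul_apply, smul_eq_mul, one_mul]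
      rcases lt_or_ge 0 (z j) with h | h
      · have h1 := hmin j (by rw [hP, mem_filter]; exact ⟨mem_univ _, h⟩)
        have h2 : t * z j ≤ x j := by
          rw [← le_div_iff₀ h]; exact h1
        linarith
      · have h1 := hx.1.1 j
        nlinarith
    have hwj2 : ((1 : ℝ) • x + (-t) • z) j2 = 0 := by
      simp only [PiLp.add_apply, PiLp.smul_apply, smul_eq_mul, one_mul]
      have hne2 := hj2.2.ne'
      rw [ht, neg_mul, div_mul_cancel₀ _ hne2]; ring
    have hwj0 : ((1 : ℝ) • x + (-t) • z) j0 = x j0 := by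
      simp only [PiLp.add_apply, PiLp.smul_apply, smul_eq_mul, one_mul, hz0]
      ring
    have hwne : (1 : ℝ) • x + (-t) • z ≠ 0 := by
      intro h
      rw [h] at hwj0
      exact hx0 hwj0.symm
    have hsub : sp ((1 : ℝ) • x + (-t) • z) ⊆ sp x := by
      intro j hj
      by_contra hjx
      have h1 : x j = 0 := by
        by_contra h
        exact hjx (mem_sp.2 h)
      have h2 : z j = 0 := by
        by_contra h
        exact hjx (hsz (mem_sp.2 h))
      apply mem_sp.1 hj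
      simp only [PiLp.add_apply, PiLp.smul_apply, smul_eq_mul, h1, h2]
      ring
    have h3 := hx.2.2 _ hw hwne hsub hj2x
    exact mem_sp.1 h3 hwj2
  set c := y j0 / x j0 with hc
  refine ⟨c, ?_⟩
  set z : EuclideanSpace ℝ (Fin n) := (1 : ℝ) • y + (-c) • x with hz
  have hzk : Ker Φ z := Ker.comb hy hx.1.2 1 (-c)
  have hzs : sp z ⊆ sp x := by
    intro j hj
    by_contra hjx
    have h1 : x j = 0 := by
      by_contra h
      exact hjx (mem_sp.2 h)
    have h2 : y j = 0 := by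
      by_contra h
      exact hjx (hs (mem_sp.2 h))
    apply mem_sp.1 hj
    rw [hz]
    simp only [PiLp.add_apply, PiLp.smul_apply, smul_eq_mul, h1, h2]
    ring
  have hz0 : z j0 = 0 := by
    rw [hz]
    simp only [PiLp.add_apply, PiLp.smul_apply, smul_eq_mul, one_mul]
    rw [hc]; field_simp; ring
  have hz' : z = 0 := by
    ext j
    by_contra hj
    rcases lt_or_gt_of_ne hj with h | h
    · refine key ((-1 : ℝ) • z) ?_ ?_ ?_ ⟨j, ?_⟩
      · have := Ker.comb (Φ := Φ) hzk hzk (-1) 0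
        simpa using this
      · rw [sp_smul (by norm_num)]; exact hzs
      · simp [hz0]
      · have h' : z j < 0 := by simpa using h
        simp only [PiLp.smul_apply, smul_eq_mul]
        linarith
    · exact key z hzk hzs hz0 ⟨j, by simpa using h⟩
  have : y = z + c • x := by
    rw [hz]
    ext j
    simp only [PiLp.add_apply, PiLp.smul_apply, smul_eq_mul]
    ring
  rw [this, hz', zero_add]

theorem Mn.smul {x : EuclideanSpace ℝ (Fin n)} (hx : Mn Φ x) {a : ℝ} (ha : 0 < a) : Mn Φ (a • x) := by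
  refine ⟨smul_mem hx.1 ha.le, ?_, ?_⟩
  · exact smul_ne_zero ha.ne' hx.2.1
  · rw [sp_smul ha.ne']
    exact hx.2.2

theorem toE_apply (β : Fin n → ℤ) (j : Fin n) : toE β j = (β j : ℝ) := rfl

theorem toE_inj {β γ : Fin n → ℤ} (h : toE β = toE γ) : β = γ := by
  funext j
  have := congrArg (fun x : EuclideanSpace ℝ (Fin n) => x j) h
  simp only [toE_apply] at this
  exact_mod_cast this

theorem toE_ne_zero {β : Fin n → ℤ} (h : β ≠ 0) : toE β ≠ 0 := by
  intro h0
  apply h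
  apply toE_inj
  rw [h0]
  ext j
  simp [toE_apply]

/-- integer points on minimal rays -/
theorem Mn.exists_int {x : EuclideanSpace ℝ (Fin n)} (hx : Mn Φ x) : ∃ (δ : Fin n → ℤ) (c : ℝ), 0 < c ∧ toE δ = c • x := by
  classical
  have hne : (sp x).Nonempty := by
    rw [Finset.nonempty_iff_ne_empty]
    intro h
    exact hx.2.1 (sp_eq_empty.1 h)
  obtain ⟨j0, hj0⟩ := hne
  have hx0 : x j0 ≠ 0 := mem_sp.1 hj0
  have hxpos : 0 < x j0 := lt_of_le_of_ne (hx.1.1 j0) (Ne.symm hx0)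
  obtain ⟨g, hg⟩ : ∃ g : Module.Dual ℚ ℝ, g (x j0) ≠ 0 := by
    by_contra hcon
    push Not at hcon
    exact hx0 ((Module.forall_dual_apply_eq_zero_iff ℚ (x j0)).1 hcon)
  set y : EuclideanSpace ℝ (Fin n) := WithLp.toLp 2 (fun j => ((g (x j) : ℚ) : ℝ)) with hy
  have hyj : ∀ j, y j = ((g (x j) : ℚ) : ℝ) := fun j => rfl
  have hyk : Ker Φ y := by
    intro i
    have h1 : g (∑ j, (Φ i j : ℝ) * x j) = 0 := by
      rw [hx.1.2 i, map_zero]
    rw [map_sum] at h1
    have h2 : ∀ j, g ((Φ i j : ℝ) * x j) = (Φ i j : ℚ) * g (x j) := by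
      intro j
      have : (Φ i j : ℝ) * x j = ((Φ i j : ℚ)) • x j := by
        rw [Rat.smul_def]; push_cast; rfl
      rw [this, map_smul, smul_eq_mul]
    have h3 : ((∑ j, (Φ i j : ℚ) * g (x j) : ℚ) : ℝ) = 0 := by
      rw [← Finset.sum_congr rfl fun j _ => h2 j, h1]; simp
    rw [← h3]
    push_cast
    exact Finset.sum_congr rfl fun j _ => by rw [hyj]
  have hys : sp y ⊆ sp x := by
    intro j hj
    rw [mem_sp] at hj ⊢
    intro h
    apply hj
    rw [hyj, h, map_zero]; simp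
  obtain ⟨c, hc⟩ := hx.uniq hyk hys
  have hc0 : c ≠ 0 := by
    rintro rfl
    have := hyj j0
    rw [hc] at this
    simp only [zero_smul, PiLp.zero_apply] at this
    exact hg (by exact_mod_cast this.symm)
  -- clear denominators
  set N : ℕ := ∏ j, (g (x j)).den with hN
  have hN0 : 0 < N := Finset.prod_pos fun j _ => (g (x j)).den_pos
  have hint : ∀ j, ∃ m : ℤ, ((m : ℤ) : ℚ) = N * g (x j) := by
    intro j
    obtain ⟨k, hk⟩ : (g (x j)).den ∣ N := Finset.dvd_prod_of_mem _ (mem_univ j)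
    refine ⟨k * (g (x j)).num, ?_⟩
    rw [hk]
    push_cast
    have := Rat.den_mul_eq_num (g (x j))
    rw [← this]; ring
  choose m hm using hint
  have hmr : ∀ j, (m j : ℝ) = N * y j := by
    intro j
    rw [hyj]
    exact_mod_cast congrArg (fun q : ℚ => (q : ℝ)) (hm j)
  have hNr : (0 : ℝ) < N := by exact_mod_cast hN0
  rcases lt_or_gt_of_ne hc0 with h | h
  · refine ⟨fun j => -m j, N * (-c), by nlinarith, ?_⟩
    ext j
    rw [toE_apply]
    push_cast
    rw [hmr, hc]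
    simp only [PiLp.smul_apply, smul_eq_mul]
    ring
  · refine ⟨m, N * c, by positivity, ?_⟩
    ext j
    rw [toE_apply, hmr, hc]
    simp only [PiLp.smul_apply, smul_eq_mul]
    ring

/-- minimal points span extreme rays -/
theorem extreme_of_Mn {δ : Fin n → ℤ} (hδ : Mn Φ (toE δ)) : IsExtreme ℝ (cone Φ) (ray δ) := by
  refine ⟨?_, ?_⟩
  · rintro x ⟨t, ht, rfl⟩
    exact smul_mem hδ.1 ht
  · rintro x hx y hy z ⟨t, ht, rfl⟩ ⟨a, b, ha, hb, -, hab⟩
    have hsub : sp x ⊆ sp (toE δ) := by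
      intro j hj
      rw [mem_sp] at hj ⊢
      intro h
      have h1 := congrArg (fun w : EuclideanSpace ℝ (Fin n) => w j) hab
      simp only [PiLp.add_apply, PiLp.smul_apply, smul_eq_mul, h, mul_zero] at h1
      have h2 : 0 < x j := lt_of_le_of_ne (hx.1 j) (Ne.symm hj)
      have h3 := hy.1 j
      nlinarith [mul_pos ha h2, mul_nonneg hb.le h3]
    obtain ⟨c, hc⟩ := hδ.uniq hx.2 hsub
    rcases le_or_gt 0 c with h | h
    · exact ⟨c, h, hc⟩
    · -- then x has nonpositive coordinates, so x = 0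
      have hx0 : x = 0 := by
        ext j
        have h1 := hx.1 j
        have h2 := hδ.1.1 j
        have h3 : x j = c * toE δ j := by
          rw [hc]; rfl
        have : x j = 0 := by nlinarith
        simpa using this
      exact ⟨0, le_rfl, by rw [hx0, zero_smul]⟩

theorem Mn_of_CF {δ : Fin n → ℤ} (hδ : δ ∈ CF Φ) : Mn Φ (toE δ) := by
  classical
  obtain ⟨h0, hext, hmin⟩ := hδ
  have hmem : toE δ ∈ ray δ := ⟨1, zero_le_one, (one_smul _ _).symm⟩
  have hcone : toE δ ∈ cone Φ := hext.subset hmem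
  refine ⟨hcone, toE_ne_zero h0, fun y hy hy0 hsub => ?_⟩
  -- a small multiple of y
  have hne : (sp y).Nonempty := by
    rw [Finset.nonempty_iff_ne_empty]
    intro h
    exact hy0 (sp_eq_empty.1 h)
  obtain ⟨j1, hj1, hj1m⟩ := Finset.exists_min_image (sp y) (fun j => toE δ j / y j) hne
  have hypos : ∀ j ∈ sp y, 0 < y j := fun j hj => lt_of_le_of_ne (hy.1 j) (Ne.symm (mem_sp.1 hj))
  have hδpos : ∀ j ∈ sp (toE δ), 0 < toE δ j := fun j hj =>
    lt_of_le_of_ne (hcone.1 j) (Ne.symm (mem_sp.1 hj))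
  set t := toE δ j1 / y j1 with ht
  have ht0 : 0 < t := div_pos (hδpos j1 (hsub hj1)) (hypos j1 hj1)
  have hz : (1 : ℝ) • toE δ + (-t) • y ∈ cone Φ := by
    refine ⟨fun j => ?_, Ker.comb hcone.2 hy.2 1 (-t)⟩
    simp only [PiLp.add_apply, PiLp.smul_apply, smul_eq_mul, one_mul]
    by_cases hj : j ∈ sp y
    · have h1 := hj1m j hj
      have h2 : t * y j ≤ toE δ j := by
        rw [← le_div_iff₀ (hypos j hj)]; exact h1
      linarith
    · have h1 : y j = 0 := by
        by_contra h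
        exact hj (mem_sp.2 h)
      rw [h1]
      have := hcone.1 j
      linarith
  have hty : (2 * t) • y ∈ ray δ := by
    refine hext.left_mem_of_mem_openSegment (smul_mem hy (by positivity)) (smul_mem hz zero_le_two) hmem ?_
    refine ⟨1 / 2, 1 / 2, by norm_num, by norm_num, by norm_num, ?_⟩
    ext j
    simp only [PiLp.add_apply, PiLp.smul_apply, smul_eq_mul]
    ring
  obtain ⟨s, hs, hst⟩ := hty
  have hs0 : s ≠ 0 := by
    rintro rfl
    rw [zero_smul] at hst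
    rcases smul_eq_zero.1 hst with h | h
    · linarith
    · exact hy0 h
  have h1 : sp y = sp (toE δ) := by
    rw [← sp_smul (x := y) (a := 2 * t) (by positivity), hst, sp_smul hs0]
  rw [h1]

/-- the sum of the coordinates -/
def S (δ : Fin n → ℤ) : ℤ := ∑ j, δ j

theorem S_pos {δ : Fin n → ℤ} (h0 : δ ≠ 0) (h : toE δ ∈ cone Φ) : 0 < S δ := by
  have hnn : ∀ j, 0 ≤ δ j := fun j => by
    have h1 : (0 : ℝ) ≤ ((δ j : ℤ) : ℝ) := h.1 j
    exact Int.cast_nonneg_iff.1 h1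
  obtain ⟨j, hj⟩ : ∃ j, δ j ≠ 0 := by
    by_contra hcon
    push Not at hcon
    exact h0 (funext hcon)
  exact Finset.sum_pos' (fun j _ => hnn j) ⟨j, mem_univ j, lt_of_le_of_ne (hnn j) (Ne.symm hj)⟩

theorem S_ray {δ γ : Fin n → ℤ} {t : ℝ} (h : toE γ = t • toE δ) : (S γ : ℝ) = t * S δ := by
  unfold S
  push_cast
  rw [Finset.mul_sum]
  refine Finset.sum_congr rfl fun j _ => ?_
  have := congrArg (fun x : EuclideanSpace ℝ (Fin n) => x j) h
  simpa [toE_apply] using this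

theorem exists_CF {x : EuclideanSpace ℝ (Fin n)} (hx : Mn Φ x) : ∃ δ ∈ CF Φ, ∃ c : ℝ, 0 < c ∧ toE δ = c • x := by
  classical
  obtain ⟨δ0, c0, hc0, h0⟩ := hx.exists_int
  have hM0 : Mn Φ (toE δ0) := by rw [h0]; exact hx.smul hc0
  have hδ0 : δ0 ≠ 0 := by
    rintro rfl
    exact hM0.2.1 (by ext j; simp [toE_apply])
  -- minimal sum
  obtain ⟨δ, ⟨hδ0', hδr⟩, hmin⟩ : ∃ δ : Fin n → ℤ, (δ ≠ 0 ∧ toE δ ∈ ray δ0) ∧
      ∀ γ : Fin n → ℤ, (γ ≠ 0 ∧ toE γ ∈ ray δ0) → (S δ).toNat ≤ (S γ).toNat := by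
    exact exists_min_nat (P := fun δ : Fin n → ℤ => δ ≠ 0 ∧ toE δ ∈ ray δ0) (fun δ => (S δ).toNat)
      ⟨δ0, hδ0, 1, zero_le_one, (one_smul _ _).symm⟩
  obtain ⟨t, ht, hte⟩ := hδr
  have ht0 : 0 < t := by
    rcases ht.lt_or_eq with h | h
    · exact h
    · exfalso
      rw [← h, zero_smul] at hte
      exact toE_ne_zero hδ0' hte
  have hM : Mn Φ (toE δ) := by rw [hte]; exact hM0.smul ht0
  refine ⟨δ, ⟨hδ0', extreme_of_Mn hM, fun γ hγ ⟨s, hs, hse⟩ => ?_⟩, t * c0, by positivity, ?_⟩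
  · have hγr : toE γ ∈ ray δ0 := ⟨s * t, by positivity, by rw [hse, hte, smul_smul]⟩
    have h1 := hmin γ ⟨hγ, hγr⟩
    have hSδ : 0 < S δ := S_pos hδ0' hM.1
    have hγc : toE γ ∈ cone Φ := by rw [hse]; exact smul_mem hM.1 hs
    have hSγ : 0 < S γ := S_pos hγ hγc
    have h2 : S δ ≤ S γ := by omega
    have h3 := S_ray hse
    have h4 : (S δ : ℝ) ≤ S γ := by exact_mod_cast h2
    have h5 : (0 : ℝ) < S δ := by exact_mod_cast hSδ
    have hs1 : 1 ≤ s := by
      by_contra hlt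
      push Not at hlt
      nlinarith
    rw [hse, norm_smul, Real.norm_eq_abs, abs_of_nonneg hs]
    exact le_mul_of_one_le_left (norm_nonneg _) hs1
  · rw [hte, h0, smul_smul]

theorem CF_inj {δ γ : Fin n → ℤ} (hδ : δ ∈ CF Φ) (hγ : γ ∈ CF Φ) (h : sp (toE δ) = sp (toE γ)) : δ = γ := by
  have hMδ := Mn_of_CF hδ
  have hMγ := Mn_of_CF hγ
  have hpos : ∀ {a b : Fin n → ℤ}, Mn Φ (toE a) → Mn Φ (toE b) → ∀ c : ℝ, toE b = c • toE a → 0 ≤ c := by
    intro a b ha hb c hc
    by_contra hlt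
    push Not at hlt
    apply hb.2.1
    ext j
    have h1 := ha.1.1 j
    have h2 := hb.1.1 j
    have h3 : toE b j = c * toE a j := by rw [hc]; rfl
    have : toE b j = 0 := by nlinarith
    simpa using this
  obtain ⟨c, hc⟩ := hMδ.uniq hMγ.1.2 h.ge
  obtain ⟨c', hc'⟩ := hMγ.uniq hMδ.1.2 h.le
  have hc0 := hpos hMδ hMγ c hc
  have hc0' := hpos hMγ hMδ c' hc'
  have n1 := hδ.2.2 γ hγ.1 ⟨c, hc0, hc⟩
  have n2 := hγ.2.2 δ hδ.1 ⟨c', hc0', hc'⟩
  have n3 : ‖toE γ‖ = c * ‖toE δ‖ := by rw [hc, norm_smul, Real.norm_eq_abs, abs_of_nonneg hc0]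
  have n4 : 0 < ‖toE δ‖ := norm_pos_iff.2 hMδ.2.1
  have hc1 : c = 1 := by
    have : ‖toE γ‖ = ‖toE δ‖ := le_antisymm n2 n1
    rw [this] at n3
    have : (c - 1) * ‖toE δ‖ = 0 := by linarith
    rcases mul_eq_zero.1 this with h | h
    · linarith
    · linarith
  rw [hc1, one_smul] at hc
  exact (toE_inj hc).symm

theorem CF_finite (Φ : Matrix (Fin r) (Fin n) ℤ) : (CF Φ).Finite := by
  refine Set.Finite.of_finite_image (f := fun δ => sp (toE δ)) (Set.toFinite _) ?_
  intro δ hδ γ hγ h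
  exact CF_inj hδ hγ h

theorem generate (Φ : Matrix (Fin r) (Fin n) ℤ) (hf : (CF Φ).Finite) : ∀ (k : ℕ) (x : EuclideanSpace ℝ (Fin n)), x ∈ cone Φ →
    (sp x).card ≤ k → ∃ c : (Fin n → ℤ) → ℝ, (∀ δ, 0 ≤ c δ) ∧ x = ∑ δ ∈ hf.toFinset, c δ • toE δ := by
  classical
  intro k
  induction k with
  | zero =>
    intro x hx hk
    refine ⟨fun _ => 0, fun _ => le_rfl, ?_⟩
    have : x = 0 := sp_eq_empty.1 (Finset.card_eq_zero.1 (by omega))
    rw [this]
    simp
  | succ k ih =>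
    intro x hx hk
    by_cases hx0 : x = 0
    · refine ⟨fun _ => 0, fun _ => le_rfl, ?_⟩
      rw [hx0]
      simp
    -- a minimal element below
    obtain ⟨y, ⟨hyc, hy0, hys⟩, hmin⟩ : ∃ y : EuclideanSpace ℝ (Fin n), (y ∈ cone Φ ∧ y ≠ 0 ∧ sp y ⊆ sp x) ∧
        ∀ z : EuclideanSpace ℝ (Fin n), (z ∈ cone Φ ∧ z ≠ 0 ∧ sp z ⊆ sp x) → (sp y).card ≤ (sp z).card :=
      exists_min_nat (P := fun y : EuclideanSpace ℝ (Fin n) => y ∈ cone Φ ∧ y ≠ 0 ∧ sp y ⊆ sp x) (fun y => (sp y).card)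
        ⟨x, hx, hx0, subset_rfl⟩
    have hM : Mn Φ y := by
      refine ⟨hyc, hy0, fun z hz hz0 hzs => ?_⟩
      have := hmin z ⟨hz, hz0, hzs.trans hys⟩
      exact (Finset.eq_of_subset_of_card_le hzs this).ge
    obtain ⟨δ, hδ, c, hc, hcy⟩ := exists_CF hM
    have hsδ : sp (toE δ) = sp y := by rw [hcy, sp_smul hc.ne']
    have hMδ := Mn_of_CF hδ
    have hne : (sp (toE δ)).Nonempty := by
      rw [Finset.nonempty_iff_ne_empty]
      intro h
      exact hMδ.2.1 (sp_eq_empty.1 h)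
    obtain ⟨j1, hj1, hj1m⟩ := Finset.exists_min_image (sp (toE δ)) (fun j => x j / toE δ j) hne
    have hδpos : ∀ j ∈ sp (toE δ), 0 < toE δ j := fun j hj =>
      lt_of_le_of_ne (hMδ.1.1 j) (Ne.symm (mem_sp.1 hj))
    set t := x j1 / toE δ j1 with ht
    have ht0 : 0 ≤ t := div_nonneg (hx.1 j1) (hδpos j1 hj1).le
    set z : EuclideanSpace ℝ (Fin n) := (1 : ℝ) • x + (-t) • toE δ with hz
    have hzc : z ∈ cone Φ := by
      refine ⟨fun j => ?_, Ker.comb hx.2 hMδ.1.2 1 (-t)⟩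
      rw [hz]
      simp only [PiLp.add_apply, PiLp.smul_apply, smul_eq_mul, one_mul]
      by_cases hj : j ∈ sp (toE δ)
      · have h1 := hj1m j hj
        have h2 : t * toE δ j ≤ x j := by
          rw [← le_div_iff₀ (hδpos j hj)]; exact h1
        linarith
      · have h1 : toE δ j = 0 := by
          by_contra h
          exact hj (mem_sp.2 h)
        rw [h1]
        have := hx.1 j
        linarith
    have hzj1 : z j1 = 0 := by
      rw [hz]
      simp only [PiLp.add_apply, PiLp.smul_apply, smul_eq_mul, one_mul]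
      have := (hδpos j1 hj1).ne'
      rw [ht]; field_simp; ring
    have hj1x : j1 ∈ sp x := hys (by rw [← hsδ]; exact hj1)
    have hzs : sp z ⊂ sp x := by
      refine Finset.ssubset_iff_subset_ne.2 ⟨?_, ?_⟩
      · intro j hj
        by_contra hjx
        have h1 : x j = 0 := by
          by_contra h
          exact hjx (mem_sp.2 h)
        have h2 : toE δ j = 0 := by
          by_contra h
          exact hjx (hys (by rw [← hsδ]; exact mem_sp.2 h))
        apply mem_sp.1 hj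
        rw [hz]
        simp only [PiLp.add_apply, PiLp.smul_apply, smul_eq_mul, h1, h2]
        ring
      · intro h
        rw [← h] at hj1x
        exact mem_sp.1 hj1x hzj1
    obtain ⟨c', hc', hzc'⟩ := ih z hzc (by
      have := Finset.card_lt_card hzs
      omega)
    refine ⟨fun γ => c' γ + if γ = δ then t else 0, fun γ => ?_, ?_⟩
    · have := hc' γ
      simp only
      split_ifs <;> linarith
    · have h1 : x = z + t • toE δ := by
        rw [hz]
        ext j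
        simp only [PiLp.add_apply, PiLp.smul_apply, smul_eq_mul]
        ring
      simp only [add_smul, Finset.sum_add_distrib]
      rw [← hzc']
      rw [h1]
      congr 1
      rw [Finset.sum_eq_single δ]
      · simp
      · intro b _ hb
        simp [hb]
      · intro h
        exact absurd (hf.mem_toFinset.2 hδ) h

end CFGp

theorem t_CFG : S_CFG := by
  intro r n Φ
  have hf := CFGp.CF_finite Φ
  refine ⟨hf, fun x hx => ?_⟩
  obtain ⟨c, hc, h⟩ := CFGp.generate Φ hf _ x hx le_rfl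
  refine ⟨c, hc, ?_⟩
  rw [finsum_mem_eq_finite_toFinset_sum _ hf]
  exact h

end Pool.Agent.K1H41.DG
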