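import Pool.Agent.K1H41.DG.Stm

/-!
# The dual description of `U A`
-/

set_option autoImplicit false

namespace Pool.Agent.K1H41.DG

namespace DU

/-! ### Weights -/

section wt

variable {ι : Type} [Fintype ι] (good : Finset ι → Prop) (c : ℝ)

open Classical in
/-- the threshold -/
noncomputable def ee (z : ι → ℝ) : ℝ :=
  Finset.univ.inf' Finset.univ_nonempty fun J : Finset ι =>
    if good J then c else (∑ i ∈ J, z i) / Fintype.card ι

/-- the weights -/
noncomputable def wt (z : ι → ℝ) (i : ι) : ℝ := max (ee good c z - z i) 0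

/-- the normalised weights -/
noncomputable def nw (z : ι → ℝ) (i : ι) : ℝ := wt good c z i / ∑ j, wt good c z j

variable {good} {c}

theorem ee_cont : Continuous (ee good c) := by
  classical
  unfold ee
  refine Continuous.finset_inf'_apply _ fun J _ => ?_
  by_cases hJ : good J
  · simp only [hJ, if_true]
    exact continuous_const
  · simp only [hJ, if_false]
    fun_prop

theorem ee_le (h0 : good ∅) (z : ι → ℝ) : ee good c z ≤ c := by
  classical
  refine (Finset.inf'_le _ (Finset.mem_univ (∅ : Finset ι))).trans ?_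
  simp [h0]

theorem ee_pos (hc : 0 < c) {z : ι → ℝ} (hz : ∀ i, 0 ≤ z i)
    (h : ∀ J, ¬ good J → ∃ i ∈ J, 0 < z i) : 0 < ee good c z := by
  classical
  unfold ee
  rw [Finset.lt_inf'_iff]
  intro J _
  by_cases hJ : good J
  · simp only [hJ, if_true]
    exact hc
  · simp only [hJ, if_false]
    obtain ⟨i, hi, hzi⟩ := h J hJ
    have h1 : 0 < ∑ i ∈ J, z i := Finset.sum_pos' (fun j _ => hz j) ⟨i, hi, hzi⟩
    have h2 : 0 < Fintype.card ι := Fintype.card_pos_iff.2 ⟨i⟩
    positivity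

theorem ee_good (h0 : good ∅) {z : ι → ℝ} (he : 0 < ee good c z) (J : Finset ι)
    (hJ : ∀ i ∈ J, z i < ee good c z) : good J := by
  classical
  by_contra hb
  have h1 : ee good c z ≤ (∑ i ∈ J, z i) / Fintype.card ι := by
    refine (Finset.inf'_le _ (Finset.mem_univ J)).trans ?_
    simp [hb]
  have hne : J.Nonempty := by
    rw [Finset.nonempty_iff_ne_empty]
    rintro rfl
    exact hb h0
  obtain ⟨i, hi⟩ := hne
  have h2 : 0 < Fintype.card ι := Fintype.card_pos_iff.2 ⟨i⟩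
  have h2' : (0 : ℝ) < Fintype.card ι := by exact_mod_cast h2
  rw [le_div_iff₀ h2'] at h1
  have h3 : ∑ i ∈ J, z i < ∑ _i ∈ J, ee good c z := Finset.sum_lt_sum_of_nonempty ⟨i, hi⟩ hJ
  rw [Finset.sum_const, nsmul_eq_mul] at h3
  have h4 : (J.card : ℝ) ≤ Fintype.card ι := by exact_mod_cast Finset.card_le_univ J
  have h5 : (J.card : ℝ) * ee good c z ≤ Fintype.card ι * ee good c z :=
    mul_le_mul_of_nonneg_right h4 he.le
  linarith

theorem wt_nonneg (z : ι → ℝ) (i : ι) : 0 ≤ wt good c z i := le_max_right _ _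

theorem wt_cont (i : ι) : Continuous fun z => wt good c z i := by
  unfold wt
  exact ((ee_cont).sub (continuous_apply i)).max continuous_const

theorem sum_pos {z : ι → ℝ} (he : 0 < ee good c z) {i : ι} (hi : z i = 0) :
    0 < ∑ j, wt good c z j := by
  refine Finset.sum_pos' (fun j _ => wt_nonneg z j) ⟨i, Finset.mem_univ i, ?_⟩
  unfold wt
  rw [hi, sub_zero]
  exact lt_max_of_lt_left he

theorem nw_nonneg (z : ι → ℝ) (i : ι) : 0 ≤ nw good c z i :=
  div_nonneg (wt_nonneg z i) (Finset.sum_nonneg fun j _ => wt_nonneg z j)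

theorem nw_sum {z : ι → ℝ} (he : 0 < ee good c z) {i : ι} (hi : z i = 0) :
    ∑ j, nw good c z j = 1 := by
  unfold nw
  rw [← Finset.sum_div]
  exact div_self (sum_pos he hi).ne'

theorem nw_supp {z : ι → ℝ} {i : ι} (h : nw good c z i ≠ 0) : z i < ee good c z := by
  by_contra hc
  apply h
  unfold nw wt
  rw [max_eq_right (by linarith), zero_div]

theorem nw_ge {z : ι → ℝ} (hz : ∀ i, 0 ≤ z i) (he : 0 < ee good c z) {i : ι} (hi : z i = 0) :
    1 / (Fintype.card ι : ℝ) ≤ nw good c z i := by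
  have hS := sum_pos he hi
  have h2 : 0 < Fintype.card ι := Fintype.card_pos_iff.2 ⟨i⟩
  have h2' : (0 : ℝ) < Fintype.card ι := by exact_mod_cast h2
  have h3 : wt good c z i = ee good c z := by
    unfold wt
    rw [hi, sub_zero, max_eq_left he.le]
  have h4 : ∑ j, wt good c z j ≤ ∑ _j : ι, ee good c z := by
    refine Finset.sum_le_sum fun j _ => ?_
    unfold wt
    exact max_le (by linarith [hz j]) he.le
  rw [Finset.sum_const, nsmul_eq_mul, Finset.card_univ] at h4
  unfold nw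
  rw [h3, div_le_div_iff₀ h2' hS]
  linarith

theorem nw_cont {X : Type} [TopologicalSpace X] (z : X → ι → ℝ) (hz : Continuous z)
    (h : ∀ x, 0 < ee good c (z x) ∧ ∃ i, z x i = 0) (i : ι) :
    Continuous fun x => nw good c (z x) i := by
  unfold nw
  refine Continuous.div ((wt_cont i).comp hz)
    (continuous_finsetSum _ fun j _ => (wt_cont j).comp hz) fun x => ?_
  obtain ⟨h1, i, hi⟩ := h x
  exact (sum_pos h1 hi).ne'

end wt

/-! ### Segments -/

/-- A map is homotopic to the identity if the segments between `x` and its image are in the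
space. -/
theorem homotopic_of_segment {E : Type} [NormedAddCommGroup E] [NormedSpace ℝ E] {X : Set E}
    (α : C(X, X)) (h : ∀ x : X, ∀ t : ℝ, 0 ≤ t → t ≤ 1 → (1 - t) • (α x : E) + t • (x : E) ∈ X) :
    α.Homotopic (ContinuousMap.id X) := by
  refine ⟨⟨⟨fun p => ⟨(1 - (p.1 : ℝ)) • (α p.2 : E) + (p.1 : ℝ) • (p.2 : E),
    h p.2 p.1 p.1.2.1 p.1.2.2⟩, ?_⟩, ?_, ?_⟩⟩
  · refine Continuous.subtype_mk ?_ _
    fun_prop
  · intro x
    apply Subtype.ext
    simp
  · intro x
    apply Subtype.ext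
    simp

/-- a positive lower bound for the positive values of a finite family -/
theorem exists_lb {ι : Type} [Fintype ι] (g : ι → ℝ) :
    ∃ c : ℝ, 0 < c ∧ ∀ i, 0 < g i → c ≤ g i := by
  classical
  refine ⟨Finset.univ.inf' Finset.univ_nonempty fun o : Option ι =>
    match o with
    | none => (1 : ℝ)
    | some i => if 0 < g i then g i else 1, ?_, ?_⟩
  · rw [Finset.lt_inf'_iff]
    rintro (_ | i) _
    · exact one_pos
    · dsimp only
      split_ifs with h
      · exact h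
      · exact one_pos
  · intro i hi
    refine (Finset.inf'_le _ (Finset.mem_univ (some i))).trans ?_
    simp [hi]

end DU

open DU in
theorem t_DU : S_DU := by
  classical
  intro V N _ _ E _ _ _ D A H _ _ Q k0 L g r hA hQ hg hr hk hk0 hfac
  obtain ⟨a0, ha0⟩ := hA
  have : Nonempty N := ⟨a0⟩
  obtain ⟨δ0, -⟩ := D.pos a0
  have : Nonempty V := ⟨δ0⟩
  have hV : (0 : ℝ) < Fintype.card V := by exact_mod_cast Fintype.card_pos
  have hN : (0 : ℝ) < Fintype.card N := by exact_mod_cast Fintype.card_pos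
  obtain ⟨c0, hc0, hc0'⟩ := exists_lb fun p : N × V => D.f p.1 (D.v p.2)
  obtain ⟨r0, hr0, hr0'⟩ := exists_lb r
  have hzero : ∀ i δ, D.f i (D.v δ) < c0 → D.f i (D.v δ) = 0 := by
    intro i δ h
    by_contra hne
    have h1 : 0 < D.f i (D.v δ) := lt_of_le_of_ne (D.hf i δ) (Ne.symm hne)
    have h2 : c0 ≤ D.f i (D.v δ) := hc0' (i, δ) h1
    linarith
  -- the good sets
  set gN : Finset N → Prop := fun J => ∀ a ∈ A, ∃ δ, (∀ i ∈ J, D.f i (D.v δ) = 0) ∧
    0 < D.f a (D.v δ) with hgN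
  set gV : Finset V → Prop := fun S => ∃ i, ∀ δ ∈ S, D.f i (D.v δ) = 0 with hgV
  have gN0 : gN ∅ := by
    intro a _
    obtain ⟨δ, hδ⟩ := D.pos a
    exact ⟨δ, by simp, hδ⟩
  have gV0 : gV ∅ := ⟨a0, by simp⟩
  set cN : ℝ := c0 / Fintype.card V with hcN
  set cV : ℝ := c0 * r0 / Fintype.card N with hcV
  have hcN0 : 0 < cN := by positivity
  have hcV0 : 0 < cV := by positivity
  set zN : E → N → ℝ := fun y i => D.f i y with hzN
  set zV : H → V → ℝ := fun h δ => k0 δ + L δ h with hzV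
  set G : Set H := {h | h ∈ Q ∧ ∀ a ∈ A, ∃ δ, k0 δ + L δ h = 0 ∧ 0 < D.f a (D.v δ)} with hG
  have hzNc : Continuous zN := continuous_pi fun i => (D.f i).continuous
  have hzVc : Continuous zV := continuous_pi fun δ => continuous_const.add (L δ).continuous
  -- thresholds are positive
  have heN : ∀ y ∈ D.U A, 0 < ee gN cN (zN y) := by
    rintro y ⟨⟨hy1, hy2⟩, -, hy3⟩
    refine ee_pos hcN0 hy2 fun J hJ => ?_
    by_contra hcon
    push Not at hcon
    apply hJ
    intro a ha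
    obtain ⟨c, hc, hyc⟩ := D.gen y hy2
    have hsum : ∀ i, D.f i y = ∑ δ, c δ * D.f i (D.v δ) := by
      intro i
      rw [hyc, map_sum]
      simp
    have h1 : ∃ δ ∈ Finset.univ, 0 < c δ * D.f a (D.v δ) := by
      apply Finset.exists_lt_of_sum_lt (f := fun _ => (0 : ℝ))
      rw [Finset.sum_const_zero, ← hsum a]
      exact hy3 a ha
    obtain ⟨δ, -, hδ⟩ := h1
    have hcδ : 0 < c δ := by
      rcases (hc δ).lt_or_eq with h | h
      · exact h
      · rw [← h, zero_mul] at hδ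
        exact absurd hδ (lt_irrefl 0)
    refine ⟨δ, fun i hi => ?_, pos_of_mul_pos_right hδ (hc δ)⟩
    have h2 : D.f i y = 0 := le_antisymm (hcon i hi) (hy2 i)
    rw [hsum i] at h2
    have h3 := (Finset.sum_eq_zero_iff_of_nonneg fun δ' _ =>
      mul_nonneg (hc δ') (D.hf i δ')).1 h2 δ (Finset.mem_univ δ)
    exact (mul_eq_zero.1 h3).resolve_left hcδ.ne'
  have heV : ∀ h ∈ G, 0 < ee gV cV (zV h) := by
    rintro h ⟨hh1, -⟩
    refine ee_pos hcV0 (hk0 h hh1) fun S hS => ?_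
    by_contra hcon
    push Not at hcon
    obtain ⟨i, hi⟩ := hfac h hh1
    exact hS ⟨i, fun δ hδ => hi δ (le_antisymm (hcon δ hδ) (hk0 h hh1 δ))⟩
  have hz0V : ∀ h ∈ G, ∃ δ, zV h δ = 0 := by
    rintro h ⟨-, hh⟩
    obtain ⟨δ, hδ, -⟩ := hh a0 ha0
    exact ⟨δ, hδ⟩
  -- the maps
  set φ : E → H := fun y => ∑ i, nw gN cN (zN y) i • g i with hφ
  set ψ : H → E := fun h => ∑ δ, nw gV cV (zV h) δ • D.v δ with hψ
  have kφ : ∀ y ∈ D.U A, ∀ δ, k0 δ + L δ (φ y) =
      ∑ i, nw gN cN (zN y) i * (r i * D.f i (D.v δ)) := by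
    intro y hy δ
    obtain ⟨i0, hi0⟩ := hy.2.1
    have h1 : ∑ j, nw gN cN (zN y) j = 1 := nw_sum (heN y hy) (i := i0) hi0
    have h2 : k0 δ = ∑ i, nw gN cN (zN y) i * k0 δ := by
      rw [← Finset.sum_mul, h1, one_mul]
    have h3 : L δ (φ y) = ∑ i, nw gN cN (zN y) i * L δ (g i) := by
      simp only [hφ, map_sum, map_smul, smul_eq_mul]
    rw [h3]
    conv_lhs => rw [h2]
    rw [← Finset.sum_add_distrib]
    refine Finset.sum_congr rfl fun i _ => ?_
    rw [← mul_add, hk]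
  have fψ : ∀ h i, D.f i (ψ h) = ∑ δ, nw gV cV (zV h) δ * D.f i (D.v δ) := by
    intro h i
    simp only [hψ, map_sum, map_smul, smul_eq_mul]
  have φG : ∀ y ∈ D.U A, φ y ∈ G := by
    intro y hy
    obtain ⟨i0, hi0⟩ := hy.2.1
    refine ⟨?_, fun a ha => ?_⟩
    · exact hQ.sum_mem (fun i _ => nw_nonneg _ i) (nw_sum (heN y hy) (i := i0) hi0)
        fun i _ => hg i
    · obtain ⟨δ, h1, h2⟩ := ee_good gN0 (heN y hy)
        (Finset.univ.filter fun i => zN y i < ee gN cN (zN y))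
        (fun i hi => (Finset.mem_filter.1 hi).2) a ha
      refine ⟨δ, ?_, h2⟩
      rw [kφ y hy]
      refine Finset.sum_eq_zero fun i _ => ?_
      by_cases h3 : nw gN cN (zN y) i = 0
      · rw [h3, zero_mul]
      · rw [h1 i (Finset.mem_filter.2 ⟨Finset.mem_univ i, nw_supp h3⟩), mul_zero, mul_zero]
  have ψU : ∀ h ∈ G, ψ h ∈ D.U A := by
    intro h hh
    obtain ⟨δ1, hδ1⟩ := hz0V h hh
    have hs := nw_sum (heV h hh) hδ1
    refine ⟨⟨?_, fun i => ?_⟩, ?_, fun a ha => ?_⟩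
    · simp only [hψ, map_sum, map_smul, smul_eq_mul, D.hl, mul_one]
      exact hs
    · rw [fψ]
      exact Finset.sum_nonneg fun δ _ => mul_nonneg (nw_nonneg _ δ) (D.hf i δ)
    · obtain ⟨i, hi⟩ := ee_good gV0 (heV h hh)
        (Finset.univ.filter fun δ => zV h δ < ee gV cV (zV h))
        (fun i hi => (Finset.mem_filter.1 hi).2)
      refine ⟨i, ?_⟩
      rw [fψ]
      refine Finset.sum_eq_zero fun δ _ => ?_
      by_cases h3 : nw gV cV (zV h) δ = 0
      · rw [h3, zero_mul]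
      · rw [hi δ (Finset.mem_filter.2 ⟨Finset.mem_univ δ, nw_supp h3⟩), mul_zero]
    · obtain ⟨δ, h1, h2⟩ := hh.2 a ha
      rw [fψ]
      refine Finset.sum_pos' (fun δ _ => mul_nonneg (nw_nonneg _ δ) (D.hf a δ))
        ⟨δ, Finset.mem_univ δ, mul_pos ?_ h2⟩
      refine lt_of_lt_of_le ?_ (nw_ge (hk0 h hh.1) (heV h hh) h1)
      positivity
  -- the zeros
  have zero1 : ∀ y ∈ D.U A, ∀ j, D.f j y = 0 → D.f j (ψ (φ y)) = 0 := by
    intro y hy j hj
    rw [fψ]
    refine Finset.sum_eq_zero fun δ _ => ?_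
    by_cases h3 : nw gV cV (zV (φ y)) δ = 0
    · rw [h3, zero_mul]
    rw [hzero j δ, mul_zero]
    have h4 : zV (φ y) δ < cV := lt_of_lt_of_le (nw_supp h3) (ee_le gV0 _)
    have h5 : 1 / (Fintype.card N : ℝ) * (r0 * D.f j (D.v δ)) ≤ zV (φ y) δ := by
      have h6 : zV (φ y) δ = ∑ i, nw gN cN (zN y) i * (r i * D.f i (D.v δ)) := kφ y hy δ
      rw [h6]
      have h7 : nw gN cN (zN y) j * (r j * D.f j (D.v δ)) ≤
          ∑ i, nw gN cN (zN y) i * (r i * D.f i (D.v δ)) :=
        Finset.single_le_sum (f := fun i => nw gN cN (zN y) i * (r i * D.f i (D.v δ)))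
          (fun i _ => mul_nonneg (nw_nonneg _ i) (mul_nonneg (hr i).le (D.hf i δ)))
          (Finset.mem_univ j)
      refine le_trans ?_ h7
      refine mul_le_mul (nw_ge hy.1.2 (heN y hy) hj)
        (mul_le_mul_of_nonneg_right (hr0' j (hr j)) (D.hf j δ))
        (mul_nonneg hr0.le (D.hf j δ)) (nw_nonneg _ j)
    have h8 := lt_of_le_of_lt h5 h4
    rw [hcV, one_div, inv_mul_eq_div, div_lt_div_iff_of_pos_right hN, mul_comm c0 r0] at h8
    exact lt_of_mul_lt_mul_left h8 hr0.le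
  have zero2 : ∀ h ∈ G, ∀ δ, k0 δ + L δ h = 0 → k0 δ + L δ (φ (ψ h)) = 0 := by
    intro h hh δ hδ
    have hU := ψU h hh
    rw [kφ _ hU]
    refine Finset.sum_eq_zero fun i _ => ?_
    by_cases h3 : nw gN cN (zN (ψ h)) i = 0
    · rw [h3, zero_mul]
    rw [hzero i δ, mul_zero, mul_zero]
    have h4 : zN (ψ h) i < cN := lt_of_lt_of_le (nw_supp h3) (ee_le gN0 _)
    have h5 : 1 / (Fintype.card V : ℝ) * D.f i (D.v δ) ≤ zN (ψ h) i := by
      have h6 : zN (ψ h) i = ∑ δ, nw gV cV (zV h) δ * D.f i (D.v δ) := fψ h i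
      rw [h6]
      have h7 : nw gV cV (zV h) δ * D.f i (D.v δ) ≤ ∑ δ, nw gV cV (zV h) δ * D.f i (D.v δ) :=
        Finset.single_le_sum (f := fun δ => nw gV cV (zV h) δ * D.f i (D.v δ))
          (fun δ _ => mul_nonneg (nw_nonneg _ δ) (D.hf i δ)) (Finset.mem_univ δ)
      refine le_trans ?_ h7
      exact mul_le_mul_of_nonneg_right (nw_ge (hk0 h hh.1) (heV h hh) hδ) (D.hf i δ)
    have h8 := lt_of_le_of_lt h5 h4
    rw [hcN, one_div, inv_mul_eq_div, div_lt_div_iff_of_pos_right hV] at h8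
    exact h8
  -- continuity
  have hφc : Continuous fun y : D.U A => φ y := by
    refine continuous_finsetSum _ fun i _ => Continuous.smul ?_ continuous_const
    exact nw_cont (fun y : D.U A => zN y) (hzNc.comp continuous_subtype_val)
      (fun y => ⟨heN y y.2, y.2.2.1⟩) i
  have hψc : Continuous fun h : G => ψ h := by
    refine continuous_finsetSum _ fun i _ => Continuous.smul ?_ continuous_const
    exact nw_cont (fun y : G => zV y) (hzVc.comp continuous_subtype_val)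
      (fun y => ⟨heV y y.2, hz0V y y.2⟩) i
  refine ⟨⟨⟨fun y => ⟨φ y, φG y y.2⟩, hφc.subtype_mk _⟩, ⟨fun h => ⟨ψ h, ψU h h.2⟩,
    hψc.subtype_mk _⟩, ?_, ?_⟩⟩
  · refine homotopic_of_segment _ fun y t ht0 ht1 => ?_
    have h1 : ψ (φ y) ∈ D.U A := ψU _ (φG y y.2)
    have h2 := y.2
    change (1 - t) • ψ (φ y) + t • (y : E) ∈ D.U A
    refine ⟨⟨?_, fun i => ?_⟩, ?_, fun a ha => ?_⟩
    · rw [map_add, map_smul, map_smul, h1.1.1, h2.1.1]
      simp
    · rw [map_add, map_smul, map_smul]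
      exact add_nonneg (mul_nonneg (by linarith) (h1.1.2 i)) (mul_nonneg ht0 (h2.1.2 i))
    · obtain ⟨j, hj⟩ := h2.2.1
      refine ⟨j, ?_⟩
      rw [map_add, map_smul, map_smul, hj, zero1 y y.2 j hj]
      simp
    · rw [map_add, map_smul, map_smul]
      have h3 := h1.2.2 a ha
      have h4 := h2.2.2 a ha
      rcases ht0.lt_or_eq with h | h
      · exact add_pos_of_nonneg_of_pos (mul_nonneg (by linarith) h3.le) (mul_pos h h4)
      · rw [← h]
        simpa using h3
  · refine homotopic_of_segment _ fun h t ht0 ht1 => ?_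
    have h1 : φ (ψ h) ∈ G := φG _ (ψU h h.2)
    have h2 := h.2
    change (1 - t) • φ (ψ h) + t • (h : H) ∈ G
    refine ⟨hQ h1.1 h2.1 (by linarith) ht0 (by ring), fun a ha => ?_⟩
    obtain ⟨δ, hδ, hδ'⟩ := h2.2 a ha
    refine ⟨δ, ?_, hδ'⟩
    have h3 := zero2 h h.2 δ hδ
    have h4 : L δ (φ (ψ h)) = - k0 δ := by linarith
    have h5 : L δ (h : H) = - k0 δ := by linarith
    rw [map_add, map_smul, map_smul, h4, h5]
    simp only [smul_eq_mul]
    ring

end Pool.Agent.K1H41.DG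

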