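import Pool.Agent.K1H41.DG.Stm

/-!
# Cone extensions; joins with spheres preserve homotopy equivalences
-/

set_option autoImplicit false

namespace Pool.Agent.K1H41.DG

open Filter Topology

theorem t_CE : S_CE := by
  intro F G _ _ _ _ X g R hg hR q0 hq0
  rcases hq0 with ⟨h1, h2⟩ | ⟨h1, h2⟩
  · -- the apex
    have hval : (fun q : ℝ × F => q.1 • g (q.1⁻¹ • q.2)) q0 = 0 := by
      simp only [h1, zero_smul]
    unfold ContinuousWithinAt
    rw [hval, tendsto_zero_iff_norm_tendsto_zero]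
    have h3 : Tendsto (fun q : ℝ × F => |q.1| * R) (𝓝[Cone X] q0) (𝓝 0) := by
      have h4 : Tendsto (fun q : ℝ × F => |q.1| * R) (𝓝 q0) (𝓝 (|q0.1| * R)) :=
        (by fun_prop : Continuous fun q : ℝ × F => |q.1| * R).tendsto q0
      rw [h1, abs_zero, zero_mul] at h4
      exact h4.mono_left nhdsWithin_le_nhds
    refine squeeze_zero' (Eventually.of_forall fun _ => norm_nonneg _) ?_ h3
    filter_upwards [self_mem_nhdsWithin] with q hq
    rw [norm_smul, Real.norm_eq_abs]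
    rcases hq with ⟨h5, -⟩ | ⟨-, h6⟩
    · rw [h5]; simp
    · exact mul_le_mul_of_nonneg_left (hR _ h6) (abs_nonneg _)
  · have hS : ContinuousOn (fun q : ℝ × F => q.1 • g (q.1⁻¹ • q.2))
        (Cone X ∩ {q : ℝ × F | 0 < q.1}) := by
      refine continuousOn_fst.smul (hg.comp ?_ ?_)
      · refine ContinuousOn.smul (continuousOn_fst.inv₀ fun q hq => (ne_of_gt hq.2)) continuousOn_snd
      · rintro q ⟨hq, hq0⟩
        rcases hq with ⟨h5, -⟩ | ⟨-, h6⟩
        · exact absurd h5 (ne_of_gt hq0)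
        · exact h6
    refine (hS q0 ⟨Or.inr ⟨h1, h2⟩, h1⟩).mono_of_mem_nhdsWithin ?_
    refine inter_mem self_mem_nhdsWithin (mem_nhdsWithin_of_mem_nhds ?_)
    exact (isOpen_lt continuous_const continuous_fst).mem_nhds h1

namespace JF

section

variable {F G : Type} [NormedAddCommGroup F] [NormedSpace ℝ F] [NormedAddCommGroup G]
    [NormedSpace ℝ G] {X : Set F} {Y : Set G}

open Classical in
/-- the extension by zero -/
noncomputable def ex (f : C(X, Y)) : F → G := fun x => if h : x ∈ X then (f ⟨x, h⟩ : G) else 0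

theorem ex_mem (f : C(X, Y)) {x : F} (hx : x ∈ X) : ex f x = f ⟨x, hx⟩ := by
  unfold ex
  rw [dif_pos hx]

theorem ex_cont (f : C(X, Y)) : ContinuousOn (ex f) X := by
  rw [continuousOn_iff_continuous_domRestrict]
  have h : X.domRestrict (ex f) = fun x : X => (f x : G) := by
    funext x
    rw [Set.domRestrict_apply, ex_mem f x.2]
  rw [h]
  exact continuous_subtype_val.comp f.continuous

theorem cone_mem (f : F → G) (hf : ∀ x ∈ X, f x ∈ Y) {q : ℝ × F} (hq : q ∈ Cone X) :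
    ((q.1, q.1 • f (q.1⁻¹ • q.2)) : ℝ × G) ∈ Cone Y := by
  rcases hq with ⟨h1, h2⟩ | ⟨h1, h2⟩
  · left
    simp [h1]
  · right
    refine ⟨h1, ?_⟩
    simp only [smul_smul]
    rw [inv_mul_cancel₀ (ne_of_gt h1), one_smul]
    exact hf _ h2

/-- the join of a map with a sphere -/
noncomputable def jm (m : ℕ) (hY : Bornology.IsBounded Y) (f : C(X, Y)) : C(J m X, J m Y) where
  toFun q := ⟨(q.1.1, q.1.2.1, q.1.2.1 • ex f (q.1.2.1⁻¹ • q.1.2.2)), q.2.1,
    cone_mem (ex f) (fun x hx => by rw [ex_mem f hx]; exact (f ⟨x, hx⟩).2) q.2.2⟩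
  continuous_toFun := by
    refine Continuous.subtype_mk ?_ _
    obtain ⟨R, hR⟩ := hY.exists_norm_le
    have h1 := t_CE F G X (ex f) R (ex_cont f)
      (fun x hx => by rw [ex_mem f hx]; exact hR _ (f ⟨x, hx⟩).2)
    have h2 : Continuous fun q : J m X => (q.1.2 : ℝ × F) := by fun_prop
    have h3 := h1.comp_continuous h2 (fun q => q.2.2)
    exact (by fun_prop : Continuous fun q : J m X => q.1.1).prodMk
      ((by fun_prop : Continuous fun q : J m X => q.1.2.1).prodMk h3)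

theorem jm_id (m : ℕ) (hX : Bornology.IsBounded X) :
    jm m hX (ContinuousMap.id X) = ContinuousMap.id (J m X) := by
  ext1 q
  apply Subtype.ext
  obtain ⟨⟨b, t, z⟩, h1, h2⟩ := q
  change ((b, t, t • ex (ContinuousMap.id X) (t⁻¹ • z)) : (Fin m → ℝ) × ℝ × F) = (b, t, z)
  rcases h2 with ⟨h3, h4⟩ | ⟨h3, h4⟩
  · simp only at h3 h4
    simp [h3, h4]
  · simp only at h3 h4
    rw [ex_mem _ h4]
    simp only [ContinuousMap.id_apply, smul_smul]
    rw [mul_inv_cancel₀ (ne_of_gt h3), one_smul]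

theorem jm_comp {K : Type} [NormedAddCommGroup K] [NormedSpace ℝ K] {Z : Set K} (m : ℕ)
    (hY : Bornology.IsBounded Y) (hZ : Bornology.IsBounded Z) (g : C(Y, Z)) (f : C(X, Y)) :
    (jm m hZ g).comp (jm m hY f) = jm m hZ (g.comp f) := by
  ext1 q
  apply Subtype.ext
  obtain ⟨⟨b, t, z⟩, h1, h2⟩ := q
  change ((b, t, t • ex g (t⁻¹ • (t • ex f (t⁻¹ • z)))) : (Fin m → ℝ) × ℝ × K) =
    (b, t, t • ex (g.comp f) (t⁻¹ • z))
  rcases h2 with ⟨h3, h4⟩ | ⟨h3, h4⟩
  · simp only at h3 h4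
    simp [h3]
  · simp only at h3 h4
    rw [smul_smul t⁻¹ t, inv_mul_cancel₀ (ne_of_gt h3), one_smul, ex_mem f h4,
      ex_mem g (f ⟨_, h4⟩).2, ex_mem _ h4]
    rfl

open Classical in
/-- the extension of a homotopy by zero -/
noncomputable def exh (k : C(unitInterval × X, Y)) : ℝ × F → G := fun p =>
  if h : p.1 ∈ unitInterval ∧ p.2 ∈ X then (k (⟨p.1, h.1⟩, ⟨p.2, h.2⟩) : G) else 0

theorem exh_mem (k : C(unitInterval × X, Y)) {s : ℝ} {x : F} (hs : s ∈ unitInterval)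
    (hx : x ∈ X) : exh k (s, x) = k (⟨s, hs⟩, ⟨x, hx⟩) := by
  unfold exh
  rw [dif_pos ⟨hs, hx⟩]

theorem exh_cont (k : C(unitInterval × X, Y)) : ContinuousOn (exh k) (unitInterval ×ˢ X) := by
  rw [continuousOn_iff_continuous_domRestrict]
  have h : (unitInterval ×ˢ X).domRestrict (exh k) =
      fun x : (unitInterval ×ˢ X : Set (ℝ × F)) =>
        (k (⟨x.1.1, x.2.1⟩, ⟨x.1.2, x.2.2⟩) : G) := by
    funext x
    rw [Set.domRestrict_apply]
    exact exh_mem k x.2.1 x.2.2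
  rw [h]
  refine continuous_subtype_val.comp (k.continuous.comp ?_)
  exact (Continuous.subtype_mk (by fun_prop) _).prodMk (Continuous.subtype_mk (by fun_prop) _)

theorem cone_prod {q : ℝ × F} (hq : q ∈ Cone X) {s : ℝ} (hs : s ∈ unitInterval) :
    ((q.1, (q.1 * s, q.2)) : ℝ × (ℝ × F)) ∈ Cone (unitInterval ×ˢ X) := by
  rcases hq with ⟨h1, h2⟩ | ⟨h1, h2⟩
  · left
    simp [h1, h2]
  · right
    refine ⟨h1, ?_, ?_⟩
    · simp only [Prod.smul_mk, smul_eq_mul]
      rw [inv_mul_cancel_left₀ (ne_of_gt h1)]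
      exact hs
    · exact h2

theorem jm_homotopic (m : ℕ) (hY : Bornology.IsBounded Y) {f g : C(X, Y)}
    (h : f.Homotopic g) : (jm m hY f).Homotopic (jm m hY g) := by
  obtain ⟨k⟩ := h
  obtain ⟨R, hR⟩ := hY.exists_norm_le
  have hval : ∀ p ∈ (unitInterval ×ˢ X : Set (ℝ × F)), exh k.toContinuousMap p ∈ Y := by
    rintro ⟨s, x⟩ ⟨hs, hx⟩
    rw [exh_mem _ hs hx]
    exact (k.toContinuousMap (⟨s, hs⟩, ⟨x, hx⟩)).2
  have h1 := t_CE (ℝ × F) G (unitInterval ×ˢ X) (exh k.toContinuousMap) R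
    (exh_cont k.toContinuousMap) (fun p hp => hR _ (hval p hp))
  refine ⟨⟨⟨fun p => ⟨(p.2.1.1, p.2.1.2.1, p.2.1.2.1 • exh k.toContinuousMap
    (p.2.1.2.1⁻¹ • ((p.2.1.2.1 * (p.1 : ℝ), p.2.1.2.2) : ℝ × F))), p.2.2.1,
    cone_mem (exh k.toContinuousMap) hval (cone_prod p.2.2.2 p.1.2)⟩, ?_⟩, ?_, ?_⟩⟩
  · refine Continuous.subtype_mk ?_ _
    have h2 : Continuous fun p : unitInterval × J m X =>
        ((p.2.1.2.1, (p.2.1.2.1 * (p.1 : ℝ), p.2.1.2.2)) : ℝ × (ℝ × F)) := by fun_prop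
    have h3 := h1.comp_continuous h2 (fun p => cone_prod p.2.2.2 p.1.2)
    exact (by fun_prop : Continuous fun p : unitInterval × J m X => p.2.1.1).prodMk
      ((by fun_prop : Continuous fun p : unitInterval × J m X => p.2.1.2.1).prodMk h3)
  · rintro ⟨⟨b, t, z⟩, h2, h3⟩
    apply Subtype.ext
    change ((b, t, t • exh k.toContinuousMap (t⁻¹ • ((t * (0 : ℝ), z) : ℝ × F))) :
      (Fin m → ℝ) × ℝ × G) = (b, t, t • ex f (t⁻¹ • z))
    rcases h3 with ⟨h4, h5⟩ | ⟨h4, h5⟩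
    · simp only at h4 h5
      simp [h4]
    · simp only at h4 h5
      rw [Prod.smul_mk, smul_eq_mul, inv_mul_cancel_left₀ (ne_of_gt h4),
        exh_mem _ unitInterval.zero_mem h5, ex_mem _ h5]
      have h6 := k.map_zero_left ⟨_, h5⟩
      rw [← h6]
      rfl
  · rintro ⟨⟨b, t, z⟩, h2, h3⟩
    apply Subtype.ext
    change ((b, t, t • exh k.toContinuousMap (t⁻¹ • ((t * (1 : ℝ), z) : ℝ × F))) :
      (Fin m → ℝ) × ℝ × G) = (b, t, t • ex g (t⁻¹ • z))
    rcases h3 with ⟨h4, h5⟩ | ⟨h4, h5⟩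
    · simp only at h4 h5
      simp [h4]
    · simp only at h4 h5
      rw [Prod.smul_mk, smul_eq_mul, inv_mul_cancel_left₀ (ne_of_gt h4),
        exh_mem _ unitInterval.one_mem h5, ex_mem _ h5]
      have h6 := k.map_one_left ⟨_, h5⟩
      rw [← h6]
      rfl

end

end JF

open JF in
theorem t_JF : S_JF := by
  intro F G _ _ _ _ X Y m hX hY h
  obtain ⟨e⟩ := h
  refine ⟨⟨jm m hY e.toFun, jm m hX e.invFun, ?_, ?_⟩⟩
  · rw [jm_comp, ← jm_id m hX]
    exact jm_homotopic m hX e.left_inv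
  · rw [jm_comp, ← jm_id m hY]
    exact jm_homotopic m hY e.right_inv

end Pool.Agent.K1H41.DG

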