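import Pool.Agent.K1H41.DG.Stm

/-!
# Project DG, piece JS: the join with a sphere is the iterated suspension
-/

set_option autoImplicit false

namespace Pool.Agent.K1H41.DG

open scoped unitInterval

/-! ### Suspensions of homeomorphisms -/

/-- The suspension of a map. -/
def suspMap {Y Z : Type} (f : Y → Z) : Susp Y → Susp Z :=
  Quot.map (Sum.map (Prod.map f id) id) (by
    rintro _ _ (y | y)
    · exact SuspRel.bot (f y)
    · exact SuspRel.top (f y))

theorem continuous_suspMap {Y Z : Type} [TopologicalSpace Y] [TopologicalSpace Z] {f : Y → Z}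
    (hf : Continuous f) : Continuous (suspMap f) := by
  refine continuous_quot_lift _ ?_
  exact continuous_quot_mk.comp (by fun_prop)

theorem suspMap_comp {Y Z W : Type} (f : Y → Z) (g : Z → W) (h : Y → W) (hh : ∀ y, g (f y) = h y)
    (x : Susp Y) : suspMap g (suspMap f x) = suspMap h x := by
  induction x using Quot.ind with
  | mk x =>
    rcases x with ⟨y, t⟩ | b
    · change Quot.mk _ (Sum.inl (g (f y), t)) = Quot.mk _ (Sum.inl (h y, t))
      rw [hh]
    · rfl

theorem suspMap_id {Y : Type} (x : Susp Y) : suspMap (fun y : Y => y) x = x := by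
  induction x using Quot.ind with
  | mk x =>
    rcases x with ⟨y, t⟩ | b
    · rfl
    · rfl

/-- The suspension of a homeomorphism. -/
def suspHomeo {Y Z : Type} [TopologicalSpace Y] [TopologicalSpace Z] (e : Y ≃ₜ Z) :
    Susp Y ≃ₜ Susp Z where
  toFun := suspMap e
  invFun := suspMap e.symm
  left_inv x := by
    rw [suspMap_comp e e.symm (fun y => y) (fun y => e.symm_apply_apply y), suspMap_id]
  right_inv x := by
    rw [suspMap_comp e.symm e (fun y => y) (fun y => e.apply_symm_apply y), suspMap_id]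
  continuous_toFun := continuous_suspMap e.continuous
  continuous_invFun := continuous_suspMap e.symm.continuous

section

variable {F : Type} [NormedAddCommGroup F] [NormedSpace ℝ F]

theorem cone_nonneg {X : Set F} {q : ℝ × F} (h : q ∈ Cone X) : 0 ≤ q.1 := by
  rcases h with ⟨h, -⟩ | ⟨h, -⟩
  · exact h.ge
  · exact h.le

theorem cone_smul {X : Set F} {q : ℝ × F} (h : q ∈ Cone X) {s : ℝ} (hs : 0 ≤ s) :
    (s * q.1, s • q.2) ∈ Cone X := by
  rcases h with ⟨h1, h2⟩ | ⟨h1, h2⟩
  · left
    simp [h1, h2]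
  · rcases hs.eq_or_lt with rfl | hs
    · left
      simp
    · right
      refine ⟨mul_pos hs h1, ?_⟩
      simp only
      rw [smul_smul]
      have : (s * q.1)⁻¹ * s = q.1⁻¹ := by
        field_simp
      rw [this]
      exact h2

/-! ### Compactness -/

theorem isCompact_sph (m : ℕ) : IsCompact {b : Fin m → ℝ | ∑ i, |b i| = 1} := by
  refine Metric.isCompact_of_isClosed_isBounded ?_ ?_
  · exact isClosed_eq (by fun_prop) continuous_const
  · refine (Metric.isBounded_closedBall (x := (0 : Fin m → ℝ)) (r := 1)).subset ?_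
    intro b hb
    rw [mem_closedBall_zero_iff, pi_norm_le_iff_of_nonneg zero_le_one]
    intro i
    rw [Real.norm_eq_abs]
    calc |b i| ≤ ∑ i, |b i| :=
          Finset.single_le_sum (f := fun i => |b i|) (fun _ _ => abs_nonneg _) (Finset.mem_univ i)
      _ = 1 := hb

theorem isCompact_sim (m : ℕ) :
    IsCompact {q : (Fin m → ℝ) × ℝ | ∑ i, |q.1 i| + q.2 = 1 ∧ 0 ≤ q.2} := by
  refine Metric.isCompact_of_isClosed_isBounded ?_ ?_
  · exact (isClosed_eq (by fun_prop) continuous_const).inter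
      (isClosed_le continuous_const continuous_snd)
  · refine (Metric.isBounded_closedBall (x := (0 : (Fin m → ℝ) × ℝ)) (r := 1)).subset ?_
    rintro ⟨b, t⟩ ⟨hb, ht⟩
    simp only at hb ht
    have h0 : 0 ≤ ∑ i, |b i| := Finset.sum_nonneg fun _ _ => abs_nonneg _
    rw [mem_closedBall_zero_iff, Prod.norm_def]
    refine max_le ?_ ?_
    · rw [pi_norm_le_iff_of_nonneg zero_le_one]
      intro i
      rw [Real.norm_eq_abs]
      calc |b i| ≤ ∑ i, |b i| :=
            Finset.single_le_sum (f := fun i => |b i|) (fun _ _ => abs_nonneg _)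
              (Finset.mem_univ i)
        _ ≤ 1 := by linarith
    · rw [Real.norm_eq_abs, abs_of_nonneg ht]
      linarith

theorem isCompact_J (m : ℕ) {X : Set F} (hX : IsCompact X) : IsCompact (J m X) := by
  rcases X.eq_empty_or_nonempty with rfl | hne
  · have : J m (∅ : Set F) = (fun b : Fin m → ℝ => (b, (0 : ℝ), (0 : F))) ''
        {b : Fin m → ℝ | ∑ i, |b i| = 1} := by
      ext ⟨b, t, z⟩
      constructor
      · rintro ⟨h1, h2⟩
        rcases h2 with ⟨h2, h3⟩ | ⟨h2, h3⟩
        · simp only at h1 h2 h3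
          subst h2 h3
          exact ⟨b, by simpa using h1, rfl⟩
        · exact absurd h3 (Set.notMem_empty _)
      · rintro ⟨b', h1, h2⟩
        rw [Prod.mk.injEq, Prod.mk.injEq] at h2
        obtain ⟨rfl, rfl, rfl⟩ := h2
        exact ⟨by simpa using h1, Or.inl ⟨rfl, rfl⟩⟩
    rw [this]
    exact (isCompact_sph m).image (by fun_prop)
  · have : J m X = (fun q : ((Fin m → ℝ) × ℝ) × F => (q.1.1, q.1.2, q.1.2 • q.2)) ''
        ({q : (Fin m → ℝ) × ℝ | ∑ i, |q.1 i| + q.2 = 1 ∧ 0 ≤ q.2} ×ˢ X) := by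
      ext ⟨b, t, z⟩
      constructor
      · rintro ⟨h1, h2⟩
        have h0 := cone_nonneg h2
        rcases h2 with ⟨h2, h3⟩ | ⟨h2, h3⟩
        · simp only at h1 h2 h3 h0
          obtain ⟨x, hx⟩ := hne
          refine ⟨((b, t), x), ⟨⟨h1, h0⟩, hx⟩, ?_⟩
          simp [h2, h3]
        · simp only at h1 h2 h3 h0
          refine ⟨((b, t), t⁻¹ • z), ⟨⟨h1, h0⟩, h3⟩, ?_⟩
          simp only
          rw [smul_inv_smul₀ h2.ne']
      · rintro ⟨⟨⟨b', t'⟩, x⟩, ⟨⟨h1, h2⟩, hx⟩, h3⟩
        simp only [Prod.mk.injEq] at h1 h2 hx h3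
        obtain ⟨rfl, rfl, rfl⟩ := h3
        refine ⟨h1, ?_⟩
        rcases h2.eq_or_lt with h2 | h2
        · left
          simp [← h2]
        · right
          refine ⟨h2, ?_⟩
          simp only
          rw [inv_smul_smul₀ h2.ne']
          exact hx
    rw [this]
    exact ((isCompact_sim m).prod hX).image (by fun_prop)

/-! ### The suspension of a join -/

/-- The map from the cylinder. -/
def cyl (m : ℕ) (q : (Fin m → ℝ) × ℝ × F) (u : ℝ) : (Fin (m + 1) → ℝ) × ℝ × F :=
  (Fin.cons (2 * u - 1) ((1 - |2 * u - 1|) • q.1), (1 - |2 * u - 1|) * q.2.1,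
    (1 - |2 * u - 1|) • q.2.2)

/-- The map to the join. -/
def psi (m : ℕ) (X : Set F) : (J m X × I) ⊕ Bool → (Fin (m + 1) → ℝ) × ℝ × F
  | Sum.inl (q, u) => cyl m q.1 u
  | Sum.inr false => (Fin.cons (-1) 0, 0, 0)
  | Sum.inr true => (Fin.cons 1 0, 0, 0)

theorem I_abs (u : I) : 0 ≤ 1 - |2 * (u : ℝ) - 1| := by
  have h0 := u.2.1
  have h1 := u.2.2
  have : |2 * (u : ℝ) - 1| ≤ 1 := abs_le.2 ⟨by linarith, by linarith⟩
  linarith

theorem psi_mem (m : ℕ) (X : Set F) (x : (J m X × I) ⊕ Bool) : psi m X x ∈ J (m + 1) X := by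
  rcases x with ⟨⟨⟨b, t, z⟩, hq⟩, u⟩ | b
  · have hu := I_abs u
    obtain ⟨h1, h2⟩ := hq
    simp only at h1 h2
    refine ⟨?_, ?_⟩
    · simp only [psi, cyl]
      rw [Fin.sum_univ_succ]
      simp only [Fin.cons_zero, Fin.cons_succ, Pi.smul_apply, smul_eq_mul, abs_mul,
        abs_of_nonneg hu]
      rw [← Finset.mul_sum]
      linear_combination (1 - |2 * (u : ℝ) - 1|) * h1
    · exact cone_smul h2 hu
  · cases b
    · refine ⟨?_, Or.inl ⟨rfl, rfl⟩⟩
      simp only [psi]
      rw [Fin.sum_univ_succ]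
      simp
    · refine ⟨?_, Or.inl ⟨rfl, rfl⟩⟩
      simp only [psi]
      rw [Fin.sum_univ_succ]
      simp

/-- The map from the suspension to the join. -/
def Psi (m : ℕ) (X : Set F) : Susp (J m X) → J (m + 1) X :=
  Quot.lift (fun x => ⟨psi m X x, psi_mem m X x⟩) (by
    rintro _ _ (⟨q, hq⟩ | ⟨q, hq⟩)
    · apply Subtype.ext
      simp [psi, cyl]
    · apply Subtype.ext
      simp [psi, cyl]
      norm_num)

theorem continuous_Psi (m : ℕ) (X : Set F) : Continuous (Psi m X) := by
  refine continuous_quot_lift _ ?_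
  refine Continuous.subtype_mk ?_ _
  refine continuous_sum_dom.2 ⟨?_, continuous_of_discreteTopology⟩
  change Continuous fun x : J m X × I => cyl m x.1.1 x.2
  unfold cyl
  refine Continuous.prodMk ?_ (Continuous.prodMk (by fun_prop) (by fun_prop))
  refine continuous_pi fun i => ?_
  refine Fin.cases ?_ (fun i => ?_) i
  · simp only [Fin.cons_zero]
    fun_prop
  · simp only [Fin.cons_succ, Pi.smul_apply, smul_eq_mul]
    fun_prop

theorem end0 {m : ℕ} {X : Set F} {u : I} (hu : (2 * (u : ℝ) - 1) = -1) (q : J m X) :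
    (Quot.mk _ (Sum.inl (q, u)) : Susp (J m X)) = Quot.mk _ (Sum.inr false) := by
  have : u = 0 := Subtype.ext (by
    rw [Set.Icc.coe_zero]
    linarith)
  rw [this]
  exact Quot.sound (SuspRel.bot q)

theorem end1 {m : ℕ} {X : Set F} {u : I} (hu : (2 * (u : ℝ) - 1) = 1) (q : J m X) :
    (Quot.mk _ (Sum.inl (q, u)) : Susp (J m X)) = Quot.mk _ (Sum.inr true) := by
  have : u = 1 := Subtype.ext (by
    rw [Set.Icc.coe_one]
    linarith)
  rw [this]
  exact Quot.sound (SuspRel.top q)

theorem injective_Psi (m : ℕ) (X : Set F) : Function.Injective (Psi m X) := by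
  intro x y hxy
  induction x using Quot.ind with
  | mk x =>
  induction y using Quot.ind with
  | mk y =>
  have h : psi m X x = psi m X y := congrArg Subtype.val hxy
  rcases x with ⟨q, u⟩ | b <;> rcases y with ⟨q', u'⟩ | b'
  · simp only [psi, cyl, Prod.mk.injEq] at h
    obtain ⟨h1, h2, h3⟩ := h
    have h4 := congrFun h1 0
    simp only [Fin.cons_zero] at h4
    have hu : u = u' := Subtype.ext (by linarith)
    subst hu
    rcases (I_abs u).eq_or_lt with h0 | h0
    · have h5 : |2 * (u : ℝ) - 1| = 1 := by linarith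
      rcases (abs_eq zero_le_one).1 h5 with h6 | h6
      · rw [end1 h6, end1 h6]
      · rw [end0 h6, end0 h6]
    · have h5 : q.1.1 = q'.1.1 := by
        funext i
        have := congrFun h1 i.succ
        simp only [Fin.cons_succ, Pi.smul_apply, smul_eq_mul] at this
        exact mul_left_cancel₀ h0.ne' this
      have h6 : q.1.2.1 = q'.1.2.1 := mul_left_cancel₀ h0.ne' h2
      have h7 : q.1.2.2 = q'.1.2.2 := by
        have := congrArg (fun z => (1 - |2 * (u : ℝ) - 1|)⁻¹ • z) h3
        simpa [inv_smul_smul₀ h0.ne'] using this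
      have h8 : q = q' := Subtype.ext (Prod.ext h5 (Prod.ext h6 h7))
      rw [h8]
  · cases b'
    · have h4 := congrFun (congrArg Prod.fst h) 0
      simp only [psi, cyl, Fin.cons_zero] at h4
      exact end0 h4 q
    · have h4 := congrFun (congrArg Prod.fst h) 0
      simp only [psi, cyl, Fin.cons_zero] at h4
      exact end1 h4 q
  · cases b
    · have h4 := congrFun (congrArg Prod.fst h) 0
      simp only [psi, cyl, Fin.cons_zero] at h4
      exact (end0 h4.symm q').symm
    · have h4 := congrFun (congrArg Prod.fst h) 0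
      simp only [psi, cyl, Fin.cons_zero] at h4
      exact (end1 h4.symm q').symm
  · have h4 := congrFun (congrArg Prod.fst h) 0
    cases b <;> cases b' <;> simp only [psi, Fin.cons_zero] at h4 <;>
      first | rfl | (exfalso; norm_num at h4)

theorem surjective_Psi (m : ℕ) (X : Set F) : Function.Surjective (Psi m X) := by
  rintro ⟨⟨b, t, z⟩, h1, h2⟩
  simp only at h1 h2
  have ht : 0 ≤ t := cone_nonneg h2
  rw [Fin.sum_univ_succ] at h1
  have hS : 0 ≤ ∑ i : Fin m, |b i.succ| := Finset.sum_nonneg fun _ _ => abs_nonneg _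
  rcases (show 0 ≤ 1 - |b 0| by linarith).eq_or_lt with h0 | h0
  · have hb0 : |b 0| = 1 := by linarith
    have ht0 : t = 0 := by linarith
    have hS0 : ∑ i : Fin m, |b i.succ| = 0 := by linarith
    have hz : z = 0 := by
      rcases h2 with ⟨-, h2⟩ | ⟨h2, -⟩
      · exact h2
      · exact absurd h2 (by simp [ht0])
    have hbs : ∀ i : Fin m, b i.succ = 0 := by
      intro i
      have := (Finset.sum_eq_zero_iff_of_nonneg fun i _ => abs_nonneg (b (Fin.succ i))).1 hS0 i
        (Finset.mem_univ i)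
      exact abs_eq_zero.1 this
    have hb : b = Fin.cons (b 0) 0 := by
      funext i
      refine Fin.cases ?_ (fun i => ?_) i
      · rfl
      · rw [hbs i]; rfl
    rcases (abs_eq zero_le_one).1 hb0 with h6 | h6
    · refine ⟨Quot.mk _ (Sum.inr true), Subtype.ext ?_⟩
      change (Fin.cons 1 0, 0, 0) = (b, t, z)
      rw [hb, h6, ht0, hz]
    · refine ⟨Quot.mk _ (Sum.inr false), Subtype.ext ?_⟩
      change (Fin.cons (-1) 0, 0, 0) = (b, t, z)
      rw [hb, h6, ht0, hz]
  · have hc : |b 0| ≤ 1 := by linarith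
    obtain ⟨hc1, hc2⟩ := abs_le.1 hc
    have hI : (b 0 + 1) / 2 ∈ I := ⟨by linarith, by linarith⟩
    have hq : ((1 - |b 0|)⁻¹ • (fun i : Fin m => b i.succ), (1 - |b 0|)⁻¹ * t,
        (1 - |b 0|)⁻¹ • z) ∈ J m X := by
      refine ⟨?_, cone_smul h2 (inv_nonneg.2 h0.le)⟩
      simp only [Pi.smul_apply, smul_eq_mul, abs_mul, abs_of_nonneg (inv_nonneg.2 h0.le)]
      rw [← Finset.mul_sum, ← mul_add, inv_mul_eq_one₀ h0.ne']
      linarith
    refine ⟨Quot.mk _ (Sum.inl (⟨_, hq⟩, ⟨_, hI⟩)), Subtype.ext ?_⟩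
    change cyl m ((1 - |b 0|)⁻¹ • (fun i : Fin m => b i.succ), (1 - |b 0|)⁻¹ * t,
        (1 - |b 0|)⁻¹ • z) ((b 0 + 1) / 2) = (b, t, z)
    unfold cyl
    have h3 : 2 * ((b 0 + 1) / 2) - 1 = b 0 := by ring
    rw [h3]
    simp only
    rw [smul_inv_smul₀ h0.ne', smul_inv_smul₀ h0.ne', mul_inv_cancel_left₀ h0.ne']
    congr 1
    funext i
    refine Fin.cases ?_ (fun i => ?_) i
    · rfl
    · rfl

/-- The suspension of a join. -/
theorem susp_J (m : ℕ) {X : Set F} (hX : IsCompact X) :
    Nonempty (Susp (J m X) ≃ₜ J (m + 1) X) := by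
  have h1 : CompactSpace (J m X) := isCompact_iff_compactSpace.1 (isCompact_J m hX)
  have h2 : CompactSpace (Susp (J m X)) :=
    inferInstanceAs (CompactSpace (Quot (SuspRel (J m X))))
  exact ⟨Continuous.homeoOfEquivCompactToT2
    (f := Equiv.ofBijective (Psi m X) ⟨injective_Psi m X, surjective_Psi m X⟩)
    (continuous_Psi m X)⟩

theorem J_zero (X : Set F) : Nonempty (J 0 X ≃ₜ X) := by
  have hmem : ∀ q : J 0 X, q.1.2.1 = 1 ∧ q.1.2.2 ∈ X := by
    rintro ⟨⟨b, t, z⟩, h1, h2⟩
    simp only [Finset.univ_eq_empty, Finset.sum_empty, zero_add] at h1 h2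
    subst h1
    rcases h2 with ⟨h2, -⟩ | ⟨-, h2⟩
    · exact absurd h2 one_ne_zero
    · exact ⟨rfl, by simpa using h2⟩
  refine ⟨⟨⟨fun q => ⟨q.1.2.2, (hmem q).2⟩, fun z => ⟨(0, 1, z.1), ?_, ?_⟩, ?_, ?_⟩, ?_, ?_⟩⟩
  · simp
  · right
    simp
  · intro q
    apply Subtype.ext
    refine Prod.ext (Subsingleton.elim _ _) (Prod.ext (hmem q).1.symm rfl)
  · intro z
    rfl
  · exact Continuous.subtype_mk (by fun_prop) _
  · exact Continuous.subtype_mk (by fun_prop) _

end

theorem t_JS : S_JS := by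
  intro F _ _ X m hX
  induction m with
  | zero => exact J_zero X
  | succ m ih =>
    obtain ⟨e⟩ := ih
    obtain ⟨e'⟩ := susp_J m hX
    exact ⟨e'.symm.trans (suspHomeo e)⟩

end Pool.Agent.K1H41.DG
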