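import Pool.Agent.K1H41.DG.Stm

/-!
# A continuous section of the projection of the simplex to the polytope
-/

set_option autoImplicit false

namespace Pool.Agent.K1H41.DG

namespace KAP

/-- The series: if `k` is a continuous map from a bounded set `P` to the simplex with
`T x = (x - c π (k x)) / (1 - c)` in `P`, then `∑ c (1 - c)^n k (T^n x)` is a section of `π`. -/
theorem series {V : Type} [Fintype V] {E : Type} [NormedAddCommGroup E] [NormedSpace ℝ E]
    (p : (V → ℝ) →L[ℝ] E) (P : Set E) (hP : Bornology.IsBounded P) (k : E → V → ℝ)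
    (hk : ContinuousOn k P) (hkS : ∀ x ∈ P, k x ∈ stdSimplex ℝ V) (c : ℝ) (hc0 : 0 < c)
    (hc1 : c < 1) (T : E → E) (hT : ∀ x ∈ P, T x ∈ P) (hTc : ContinuousOn T P)
    (hTk : ∀ x ∈ P, c • p (k x) = x - (1 - c) • T x) :
    ∃ κ : E → V → ℝ, ContinuousOn κ P ∧ ∀ x ∈ P, κ x ∈ stdSimplex ℝ V ∧ p (κ x) = x := by
  have hit : ∀ (n : ℕ), ∀ x ∈ P, T^[n] x ∈ P := by
    intro n
    induction n with
    | zero => intro x hx; exact hx
    | succ n ih => intro x hx; rw [Function.iterate_succ_apply']; exact hT _ (ih x hx)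
  have hitc : ∀ n : ℕ, ContinuousOn (T^[n]) P := by
    intro n
    induction n with
    | zero => exact continuousOn_id
    | succ n ih =>
      rw [Function.iterate_succ']
      exact hTc.comp ih (fun x hx => hit n x hx)
  have h1c : 0 ≤ 1 - c := by linarith
  have h1c' : 1 - c < 1 := by linarith
  have hgeo : HasSum (fun n : ℕ => c * (1 - c) ^ n) 1 := by
    have h := (hasSum_geometric_of_lt_one h1c h1c').mul_left c
    have e : c * (1 - (1 - c))⁻¹ = 1 := by
      rw [sub_sub_cancel]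
      exact mul_inv_cancel₀ hc0.ne'
    rwa [e] at h
  have hnorm : ∀ y ∈ P, ‖k y‖ ≤ 1 := by
    intro y hy
    rw [pi_norm_le_iff_of_nonneg zero_le_one]
    intro δ
    rw [Real.norm_eq_abs, abs_of_nonneg ((hkS y hy).1 δ), ← (hkS y hy).2]
    exact Finset.single_le_sum (fun δ' _ => (hkS y hy).1 δ') (Finset.mem_univ δ)
  have hbd : ∀ (n : ℕ) (x : E), x ∈ P → ‖(c * (1 - c) ^ n) • k (T^[n] x)‖ ≤ c * (1 - c) ^ n := by
    intro n x hx
    have h0 : 0 ≤ c * (1 - c) ^ n := by positivity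
    rw [norm_smul, Real.norm_eq_abs, abs_of_nonneg h0]
    calc c * (1 - c) ^ n * ‖k (T^[n] x)‖ ≤ c * (1 - c) ^ n * 1 :=
          mul_le_mul_of_nonneg_left (hnorm _ (hit n x hx)) h0
      _ = c * (1 - c) ^ n := mul_one _
  have hsm : ∀ x ∈ P, Summable fun n : ℕ => (c * (1 - c) ^ n) • k (T^[n] x) := fun x hx =>
    Summable.of_norm_bounded hgeo.summable fun n => hbd n x hx
  refine ⟨fun x => ∑' n : ℕ, (c * (1 - c) ^ n) • k (T^[n] x), ?_, fun x hx => ⟨⟨?_, ?_⟩, ?_⟩⟩
  · refine continuousOn_tsum (fun n => ?_) hgeo.summable hbd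
    have h1 : ContinuousOn (fun x => k (T^[n] x)) P :=
      hk.comp (hitc n) (fun x hx => hit n x hx)
    exact h1.const_smul (c * (1 - c) ^ n)
  · intro δ
    change 0 ≤ (∑' n : ℕ, (c * (1 - c) ^ n) • k (T^[n] x)) δ
    rw [tsum_apply (hsm x hx)]
    refine tsum_nonneg fun n => ?_
    have h0 : 0 ≤ c * (1 - c) ^ n := by positivity
    exact mul_nonneg h0 ((hkS _ (hit n x hx)).1 δ)
  · have h1 : HasSum (fun n : ℕ => (c * (1 - c) ^ n) • k (T^[n] x))
        (∑' n : ℕ, (c * (1 - c) ^ n) • k (T^[n] x)) := (hsm x hx).hasSum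
    have h2 : HasSum (fun n : ℕ => ∑ δ, ((c * (1 - c) ^ n) • k (T^[n] x)) δ)
        (∑ δ, (∑' n : ℕ, (c * (1 - c) ^ n) • k (T^[n] x)) δ) :=
      hasSum_sum fun δ _ => (Pi.hasSum.1 h1) δ
    have h3 : (fun n : ℕ => ∑ δ, ((c * (1 - c) ^ n) • k (T^[n] x)) δ) =
        fun n : ℕ => c * (1 - c) ^ n := by
      funext n
      simp only [Pi.smul_apply, smul_eq_mul]
      rw [← Finset.mul_sum, (hkS _ (hit n x hx)).2, mul_one]
    rw [h3] at h2
    exact h2.unique hgeo
  · have h1 : HasSum (fun n : ℕ => p ((c * (1 - c) ^ n) • k (T^[n] x)))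
        (p (∑' n : ℕ, (c * (1 - c) ^ n) • k (T^[n] x))) := p.hasSum (hsm x hx).hasSum
    have h2 : ∀ M : ℕ, ∑ n ∈ Finset.range M, p ((c * (1 - c) ^ n) • k (T^[n] x)) =
        x - (1 - c) ^ M • T^[M] x := by
      intro M
      induction M with
      | zero => simp
      | succ M ih =>
        rw [Finset.sum_range_succ, ih, map_smul, mul_comm, mul_smul, hTk _ (hit M x hx),
          Function.iterate_succ_apply', pow_succ, smul_sub, smul_smul]
        abel
    obtain ⟨R, hR⟩ := hP.exists_norm_le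
    have h3 : Filter.Tendsto (fun M : ℕ => (1 - c) ^ M • T^[M] x) Filter.atTop (nhds 0) := by
      rw [tendsto_zero_iff_norm_tendsto_zero]
      have h4 : Filter.Tendsto (fun M : ℕ => (1 - c) ^ M * R) Filter.atTop (nhds 0) := by
        simpa using (tendsto_pow_atTop_nhds_zero_of_lt_one h1c h1c').mul_const R
      refine squeeze_zero (fun _ => norm_nonneg _) (fun M => ?_) h4
      rw [norm_smul, norm_pow, Real.norm_eq_abs, abs_of_nonneg h1c]
      exact mul_le_mul_of_nonneg_left (hR _ (hit M x hx)) (pow_nonneg h1c M)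
    have h5 := h1.tendsto_sum_nat
    simp only [h2] at h5
    have h6 : Filter.Tendsto (fun M : ℕ => x - (1 - c) ^ M • T^[M] x) Filter.atTop
        (nhds (x - 0)) := tendsto_const_nhds.sub h3
    rw [sub_zero] at h6
    exact tendsto_nhds_unique h5 h6

end KAP

theorem t_KAP : S_KAP := by
  classical
  intro V N _ _ E _ _ _ D hV
  obtain ⟨δ0⟩ := hV
  set p : (V → ℝ) →L[ℝ] E := ∑ δ, (ContinuousLinearMap.proj (R := ℝ) (φ := fun _ : V => ℝ)
    δ).smulRight (D.v δ) with hp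
  have hpx : ∀ c, p c = ∑ δ, c δ • D.v δ := by
    intro c
    rw [hp, sum_apply]
    rfl
  have hfp : ∀ i c, D.f i (p c) = ∑ δ, c δ * D.f i (D.v δ) := by
    intro i c
    rw [hpx, map_sum]
    simp
  have hlp : ∀ c, D.l (p c) = ∑ δ, c δ := by
    intro c
    rw [hpx, map_sum]
    simp [D.hl]
  have hPS : ∀ x ∈ D.P, ∃ c ∈ stdSimplex ℝ V, p c = x := by
    rintro x ⟨hx1, hx2⟩
    obtain ⟨c, hc, hxc⟩ := D.gen x hx2
    have h1 : p c = x := by rw [hpx, hxc]
    refine ⟨c, ⟨hc, ?_⟩, h1⟩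
    rw [← hlp, h1, hx1]
  have hSP : ∀ c ∈ stdSimplex ℝ V, p c ∈ D.P := by
    rintro c ⟨hc1, hc2⟩
    refine ⟨by rw [hlp, hc2], fun i => ?_⟩
    rw [hfp]
    exact Finset.sum_nonneg fun δ _ => mul_nonneg (hc1 δ) (D.hf i δ)
  have hPim : D.P = p '' stdSimplex ℝ V := by
    ext x
    constructor
    · intro hx
      obtain ⟨c, hc, rfl⟩ := hPS x hx
      exact ⟨c, hc, rfl⟩
    · rintro ⟨c, hc, rfl⟩
      exact hSP c hc
  have hPc : IsCompact D.P := by
    rw [hPim]
    exact (isCompact_stdSimplex ℝ V).image p.continuous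
  -- the bound for the `f i`
  obtain ⟨M, hM⟩ : ∃ M : ℝ, M = 1 + ∑ i, ∑ δ, D.f i (D.v δ) := ⟨_, rfl⟩
  have hrow : ∀ i, 0 ≤ ∑ δ, D.f i (D.v δ) := fun i => Finset.sum_nonneg fun δ _ => D.hf i δ
  have hM1 : 1 ≤ M := by
    rw [hM]
    have : 0 ≤ ∑ i, ∑ δ, D.f i (D.v δ) := Finset.sum_nonneg fun i _ => hrow i
    linarith
  have hrowM : ∀ i, ∑ δ, D.f i (D.v δ) ≤ M := by
    intro i
    have : ∑ δ, D.f i (D.v δ) ≤ ∑ i, ∑ δ, D.f i (D.v δ) :=
      Finset.single_le_sum (f := fun i => ∑ δ, D.f i (D.v δ)) (fun i _ => hrow i)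
        (Finset.mem_univ i)
    linarith
  have hvM : ∀ i δ, D.f i (D.v δ) ≤ M := fun i δ =>
    (Finset.single_le_sum (f := fun δ => D.f i (D.v δ)) (fun δ _ => D.hf i δ)
      (Finset.mem_univ δ)).trans (hrowM i)
  have hxM : ∀ x ∈ D.P, ∀ i, D.f i x ≤ M := by
    intro x hx i
    obtain ⟨c, hc, rfl⟩ := hPS x hx
    rw [hfp]
    refine le_trans (Finset.sum_le_sum fun δ _ => ?_) (hrowM i)
    have h1 : c δ ≤ 1 := by
      rw [← hc.2]
      exact Finset.single_le_sum (fun δ _ => hc.1 δ) (Finset.mem_univ δ)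
    calc c δ * D.f i (D.v δ) ≤ 1 * D.f i (D.v δ) := mul_le_mul_of_nonneg_right h1 (D.hf i δ)
      _ = D.f i (D.v δ) := one_mul _
  -- the products
  set q : V → E → ℝ := fun δ x =>
    ∏ i ∈ Finset.univ.filter (fun i => 0 < D.f i (D.v δ)), D.f i x with hq
  have hqc : ∀ δ, Continuous (q δ) := fun δ =>
    continuous_finsetProd _ fun i _ => (D.f i).continuous
  have hq0 : ∀ δ, ∀ x ∈ D.P, 0 ≤ q δ x := fun δ x hx => Finset.prod_nonneg fun i _ => hx.2 i
  have hqpos : ∀ x ∈ D.P, 0 < ∑ δ, q δ x := by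
    intro x hx
    obtain ⟨c, hc, rfl⟩ := hPS x hx
    have h1 : ∃ δ ∈ Finset.univ, 0 < c δ := by
      apply Finset.exists_lt_of_sum_lt (f := fun _ => (0 : ℝ))
      rw [Finset.sum_const_zero, hc.2]
      exact one_pos
    obtain ⟨δ, -, hδ⟩ := h1
    refine Finset.sum_pos' (fun δ _ => hq0 δ _ hx) ⟨δ, Finset.mem_univ δ, ?_⟩
    refine Finset.prod_pos fun i hi => ?_
    rw [hfp]
    exact Finset.sum_pos' (fun δ _ => mul_nonneg (hc.1 δ) (D.hf i δ))
      ⟨δ, Finset.mem_univ δ, mul_pos hδ (Finset.mem_filter.1 hi).2⟩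
  have hqf : ∀ x ∈ D.P, ∀ i δ, q δ x * D.f i (D.v δ) ≤ M ^ (Fintype.card N + 1) * D.f i x := by
    intro x hx i δ
    rcases (D.hf i δ).lt_or_eq with h | h
    · have hi : i ∈ Finset.univ.filter (fun i => 0 < D.f i (D.v δ)) :=
        Finset.mem_filter.2 ⟨Finset.mem_univ i, h⟩
      have h1 : q δ x = D.f i x *
          ∏ i ∈ (Finset.univ.filter (fun i => 0 < D.f i (D.v δ))).erase i, D.f i x :=
        (Finset.mul_prod_erase _ _ hi).symm
      have h2 : ∏ i ∈ (Finset.univ.filter (fun i => 0 < D.f i (D.v δ))).erase i, D.f i x ≤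
          M ^ Fintype.card N := by
        refine le_trans (Finset.prod_le_prod (g := fun _ => M) (fun i _ => hx.2 i)
          fun i _ => hxM x hx i) ?_
        rw [Finset.prod_const]
        exact pow_le_pow_right₀ hM1 (Finset.card_le_univ _)
      have h3 : 0 ≤ ∏ i ∈ (Finset.univ.filter (fun i => 0 < D.f i (D.v δ))).erase i, D.f i x :=
        Finset.prod_nonneg fun i _ => hx.2 i
      rw [h1, pow_succ]
      calc D.f i x * (∏ i ∈ (Finset.univ.filter (fun i => 0 < D.f i (D.v δ))).erase i, D.f i x) *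
            D.f i (D.v δ) ≤ D.f i x * M ^ Fintype.card N * M := by
            refine mul_le_mul (mul_le_mul_of_nonneg_left h2 (hx.2 i)) (hvM i δ) (D.hf i δ) ?_
            exact mul_nonneg (hx.2 i) (by positivity)
        _ = M ^ Fintype.card N * M * D.f i x := by ring
    · rw [← h, mul_zero]
      exact mul_nonneg (by positivity) (hx.2 i)
  -- the lower bound
  have hPne : D.P.Nonempty := by
    refine ⟨D.v δ0, D.hl δ0, fun i => D.hf i δ0⟩
  obtain ⟨x0, hx0, hmin⟩ := hPc.exists_isMinOn hPne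
    (continuous_finsetSum Finset.univ fun δ _ => hqc δ).continuousOn
  obtain ⟨m, hm⟩ : ∃ m : ℝ, m = ∑ δ, q δ x0 := ⟨_, rfl⟩
  have hm0 : 0 < m := by rw [hm]; exact hqpos x0 hx0
  have hmle : ∀ x ∈ D.P, m ≤ ∑ δ, q δ x := by
    intro x hx
    rw [hm]
    exact isMinOn_iff.1 hmin x hx
  -- the first approximation
  set k : E → V → ℝ := fun x δ => q δ x / ∑ δ', q δ' x with hk
  have hkS : ∀ x ∈ D.P, k x ∈ stdSimplex ℝ V := by
    intro x hx
    refine ⟨fun δ => div_nonneg (hq0 δ x hx) (hqpos x hx).le, ?_⟩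
    simp only [hk]
    rw [← Finset.sum_div]
    exact div_self (hqpos x hx).ne'
  have hkc : ContinuousOn k D.P := by
    refine continuousOn_pi.2 fun δ => ?_
    exact (hqc δ).continuousOn.div
      (continuous_finsetSum Finset.univ fun δ _ => hqc δ).continuousOn fun x hx => (hqpos x hx).ne'
  have hkf : ∀ x ∈ D.P, ∀ i, D.f i (p (k x)) ≤
      Fintype.card V * M ^ (Fintype.card N + 1) / m * D.f i x := by
    intro x hx i
    rw [hfp]
    have h1 : ∀ δ ∈ Finset.univ, k x δ * D.f i (D.v δ) ≤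
        M ^ (Fintype.card N + 1) * D.f i x / m := by
      intro δ _
      have h2 : k x δ * D.f i (D.v δ) = q δ x * D.f i (D.v δ) / ∑ δ', q δ' x := by
        simp only [hk]
        ring
      rw [h2]
      exact div_le_div₀ (mul_nonneg (by positivity) (hx.2 i)) (hqf x hx i δ) hm0 (hmle x hx)
    refine (Finset.sum_le_sum h1).trans (le_of_eq ?_)
    rw [Finset.sum_const, nsmul_eq_mul, Finset.card_univ]
    ring
  obtain ⟨B, hB⟩ : ∃ B : ℝ, B = Fintype.card V * M ^ (Fintype.card N + 1) / m := ⟨_, rfl⟩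
  rw [← hB] at hkf
  have hB0 : 0 ≤ B := by rw [hB]; positivity
  obtain ⟨c, hc⟩ : ∃ c : ℝ, c = 1 / (B + 2) := ⟨_, rfl⟩
  have hc0 : 0 < c := by rw [hc]; positivity
  have hc1 : c < 1 := by
    rw [hc, div_lt_one (by positivity)]
    linarith
  have hcB : c * B ≤ 1 := by
    rw [hc, one_div_mul_eq_div, div_le_one (by positivity)]
    linarith
  have h1c : 0 < 1 - c := by linarith
  refine (KAP.series p D.P hPc.isBounded k hkc hkS c hc0 hc1
    (fun x => (1 - c)⁻¹ • (x - c • p (k x))) ?_ ?_ ?_).imp fun κ hκ => ⟨hκ.1, fun x hx =>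
      ⟨(hκ.2 x hx).1, ?_⟩⟩
  · intro x hx
    refine ⟨?_, fun i => ?_⟩
    · rw [map_smul, map_sub, map_smul, hlp, (hkS x hx).2, hx.1]
      simp only [smul_eq_mul, mul_one]
      exact inv_mul_cancel₀ h1c.ne'
    · rw [map_smul, map_sub, map_smul]
      simp only [smul_eq_mul]
      refine mul_nonneg (inv_nonneg.2 h1c.le) ?_
      have h1 : c * D.f i (p (k x)) ≤ c * (B * D.f i x) :=
        mul_le_mul_of_nonneg_left (hkf x hx i) hc0.le
      have h2 : c * B * D.f i x ≤ 1 * D.f i x := mul_le_mul_of_nonneg_right hcB (hx.2 i)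
      linarith
  · refine ContinuousOn.const_smul ?_ _
    exact continuousOn_id.sub (ContinuousOn.const_smul (p.continuous.comp_continuousOn hkc) _)
  · intro x hx
    rw [smul_smul, mul_inv_cancel₀ h1c.ne', one_smul]
    abel
  · rw [← hpx]
    exact (hκ.2 x hx).2

end Pool.Agent.K1H41.DG

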