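import Pool.Agent.K1H41.DG.Stm

/-!
# Project DG, piece KO: `K A` is homotopy equivalent to `W A`
-/

set_option autoImplicit false

namespace Pool.Agent.K1H41.DG

open scoped unitInterval

section KO

variable {V N : Type} [Fintype V] [Fintype N] {E : Type} [NormedAddCommGroup E]
    [NormedSpace ℝ E] (D : Dat V N E) (A : Set N)

open Classical in
/-- The generators with `f a > 0`. -/
noncomputable def Va (a : N) : Finset V := Finset.univ.filter fun δ => 0 < D.f a (D.v δ)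

theorem mem_Va {a : N} {δ : V} : δ ∈ Va D a ↔ 0 < D.f a (D.v δ) := by
  simp [Va]

theorem Va_ne (a : N) : (Va D a).Nonempty := by
  obtain ⟨δ, hδ⟩ := D.pos a
  exact ⟨δ, (mem_Va D).2 hδ⟩

open Classical in
/-- The set `A` as a finset. -/
noncomputable def Af : Finset N := Finset.univ.filter fun a => a ∈ A

theorem mem_Af {a : N} : a ∈ Af A ↔ a ∈ A := by
  simp [Af]

variable {A} in
theorem Af_ne (hA : A.Nonempty) : (Af A).Nonempty := by
  obtain ⟨a, ha⟩ := hA
  exact ⟨a, (mem_Af A).2 ha⟩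

variable {A}

/-- The level. -/
noncomputable def lev (hA : A.Nonempty) (x : V → ℝ) : ℝ :=
  (Af A).inf' (Af_ne hA) fun a => (Va D a).sup' (Va_ne D a) x

theorem continuous_lev (hA : A.Nonempty) : Continuous (lev D hA) := by
  unfold lev
  refine Continuous.finset_inf'_apply _ fun a _ => ?_
  exact Continuous.finset_sup'_apply _ fun δ _ => continuous_apply δ

theorem lev_le (hA : A.Nonempty) (x : V → ℝ) {a : N} (ha : a ∈ A) :
    ∃ δ, 0 < D.f a (D.v δ) ∧ lev D hA x ≤ x δ := by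
  obtain ⟨δ, hδ, h⟩ := Finset.exists_mem_eq_sup' (Va_ne D a) x
  refine ⟨δ, (mem_Va D).1 hδ, ?_⟩
  rw [← h]
  exact Finset.inf'_le _ ((mem_Af A).2 ha)

theorem lt_lev (hA : A.Nonempty) {x : V → ℝ} (hx : x ∈ D.W A) : ∃ δ', x δ' < lev D hA x := by
  obtain ⟨a, ha, h⟩ := Finset.exists_mem_eq_inf' (Af_ne hA)
    (fun a => (Va D a).sup' (Va_ne D a) x)
  obtain ⟨δ, hδ, δ', hδ'⟩ := hx a ((mem_Af A).1 ha)
  refine ⟨δ', hδ'.trans_le ?_⟩
  unfold lev
  rw [h]
  exact Finset.le_sup' x ((mem_Va D).2 hδ)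

/-- The total. -/
noncomputable def tot (hA : A.Nonempty) (x : V → ℝ) : ℝ := ∑ δ, max (lev D hA x - x δ) 0

theorem tot_pos (hA : A.Nonempty) {x : V → ℝ} (hx : x ∈ D.W A) : 0 < tot D hA x := by
  obtain ⟨δ', h⟩ := lt_lev D hA hx
  unfold tot
  refine Finset.sum_pos' (fun _ _ => le_max_right _ _) ⟨δ', Finset.mem_univ _, ?_⟩
  exact lt_max_of_lt_left (by linarith)

/-- The map to the simplex. -/
noncomputable def gm (hA : A.Nonempty) (x : V → ℝ) : V → ℝ :=
  fun δ => max (lev D hA x - x δ) 0 / tot D hA x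

theorem continuous_tot (hA : A.Nonempty) : Continuous (tot D hA) := by
  unfold tot
  have := continuous_lev D hA
  fun_prop

theorem continuousOn_gm (hA : A.Nonempty) : ContinuousOn (gm D hA) (D.W A) := by
  refine continuousOn_pi.2 fun δ => ?_
  unfold gm
  have h1 := continuous_lev D hA
  have h2 : Continuous fun x : V → ℝ => max (lev D hA x - x δ) 0 := by fun_prop
  exact h2.continuousOn.div (continuous_tot D hA).continuousOn fun x hx => (tot_pos D hA hx).ne'

theorem gm_nonneg (hA : A.Nonempty) {x : V → ℝ} (hx : x ∈ D.W A) (δ : V) : 0 ≤ gm D hA x δ :=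
  div_nonneg (le_max_right _ _) (tot_pos D hA hx).le

theorem gm_mem (hA : A.Nonempty) {x : V → ℝ} (hx : x ∈ D.W A) : gm D hA x ∈ D.K A := by
  refine ⟨⟨gm_nonneg D hA hx, ?_⟩, fun a ha => ?_⟩
  · unfold gm
    rw [← Finset.sum_div]
    exact div_self (tot_pos D hA hx).ne'
  · obtain ⟨δ, hδ, h⟩ := lev_le D hA x ha
    refine ⟨δ, ?_, hδ⟩
    unfold gm
    rw [max_eq_right (by linarith), zero_div]

theorem neg_mem {w : V → ℝ} (hw : w ∈ D.K A) : -w ∈ D.W A := by
  intro a ha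
  obtain ⟨⟨h0, h1⟩, h2⟩ := hw
  obtain ⟨δ, hδ, hδa⟩ := h2 a ha
  have : ∃ δ', 0 < w δ' := by
    by_contra hc
    push Not at hc
    have : ∑ δ, w δ ≤ 0 := Finset.sum_nonpos fun δ _ => hc δ
    linarith
  obtain ⟨δ', hδ'⟩ := this
  refine ⟨δ, hδa, δ', ?_⟩
  simp only [Pi.neg_apply, hδ]
  linarith

theorem gm_neg (hA : A.Nonempty) {w : V → ℝ} (hw : w ∈ D.K A) : gm D hA (-w) = w := by
  obtain ⟨⟨h0, h1⟩, h2⟩ := hw
  have hl : lev D hA (-w) = 0 := by
    refine le_antisymm ?_ ?_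
    · obtain ⟨a, ha⟩ := hA
      obtain ⟨δ, -, h⟩ := lev_le D ⟨a, ha⟩ (-w) ha
      have := h0 δ
      simp only [Pi.neg_apply] at h
      linarith
    · unfold lev
      refine Finset.le_inf' _ _ fun a ha => ?_
      obtain ⟨δ, hδ, hδa⟩ := h2 a ((mem_Af A).1 ha)
      have := Finset.le_sup' (-w) ((mem_Va D).2 hδa)
      rw [Pi.neg_apply, hδ, neg_zero] at this
      exact this
  have hm : ∀ δ, max (lev D hA (-w) - (-w) δ) 0 = w δ := by
    intro δ
    rw [hl, Pi.neg_apply, sub_neg_eq_add, zero_add, max_eq_left (h0 δ)]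
  funext δ
  unfold gm tot
  rw [hm, Finset.sum_congr rfl fun δ _ => hm δ, h1, div_one]

theorem hom_mem (hA : A.Nonempty) {x : V → ℝ} (hx : x ∈ D.W A) {s : ℝ} (hs0 : 0 ≤ s)
    (hs1 : s ≤ 1) : s • x - (1 - s) • gm D hA x ∈ D.W A := by
  intro a ha
  obtain ⟨δ, hδ, h⟩ := lev_le D hA x ha
  obtain ⟨δ', h'⟩ := lt_lev D hA hx
  refine ⟨δ, hδ, δ', ?_⟩
  have h1 : gm D hA x δ = 0 := by
    unfold gm
    rw [max_eq_right (by linarith), zero_div]
  have h2 : 0 < gm D hA x δ' :=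
    div_pos (lt_max_of_lt_left (by linarith)) (tot_pos D hA hx)
  simp only [Pi.sub_apply, Pi.smul_apply, smul_eq_mul, h1, mul_zero, sub_zero]
  have h3 : x δ' < x δ := h'.trans_le h
  rcases hs0.eq_or_lt with rfl | hs
  · simp only [zero_mul, sub_zero, one_mul]
    linarith
  · have h4 : s * x δ' < s * x δ := mul_lt_mul_of_pos_left h3 hs
    have h5 : 0 ≤ (1 - s) * gm D hA x δ' := mul_nonneg (by linarith) h2.le
    linarith

end KO

theorem t_KO : S_KO := by
  intro V N _ _ E _ _ D A hA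
  let f : C(D.K A, D.W A) := ⟨fun w => ⟨-w.1, neg_mem D w.2⟩, by
    exact Continuous.subtype_mk (by fun_prop) _⟩
  have hg : Continuous fun x : D.W A => gm D hA x.1 :=
    continuousOn_iff_continuous_domRestrict.1 (continuousOn_gm D hA)
  let g : C(D.W A, D.K A) := ⟨fun x => ⟨gm D hA x.1, gm_mem D hA x.2⟩,
    Continuous.subtype_mk hg _⟩
  refine ⟨⟨f, g, ?_, ?_⟩⟩
  · have : g.comp f = ContinuousMap.id _ := by
      ext1 w
      exact Subtype.ext (gm_neg D hA w.2)
    rw [this]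
  · refine ⟨⟨⟨fun q => ⟨(q.1 : ℝ) • q.2.1 - (1 - (q.1 : ℝ)) • gm D hA q.2.1,
      hom_mem D hA q.2.2 q.1.2.1 q.1.2.2⟩, ?_⟩, ?_, ?_⟩⟩
    · refine Continuous.subtype_mk ?_ _
      have h2 : Continuous fun q : I × D.W A => gm D hA q.2.1 := hg.comp continuous_snd
      fun_prop
    · intro x
      apply Subtype.ext
      simp [f, g]
    · intro x
      apply Subtype.ext
      simp

end Pool.Agent.K1H41.DG
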