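import Pool.Agent.K1H41.DG.Def

/-! # DG-PDP: bounded sections and the polar dual  (helper58) -/

set_option autoImplicit false

namespace Pool.Agent.K1H41.DG

open scoped RealInnerProductSpace

namespace PDP

variable {n : ℕ}


/-- a ball around a relative interior point -/
theorem ball {P : Set (EuclideanSpace ℝ (Fin n))} {x₀ : EuclideanSpace ℝ (Fin n)} (h : x₀ ∈ intrinsicInterior ℝ P) :
    ∃ e : ℝ, 0 < e ∧ ∀ z ∈ affineSpan ℝ P, dist z x₀ < e → z ∈ P := by
  obtain ⟨y, hy, rfl⟩ := mem_intrinsicInterior.1 h
  rw [mem_interior_iff_mem_nhds, Metric.mem_nhds_iff] at hy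
  obtain ⟨e, he, hb⟩ := hy
  refine ⟨e, he, fun z hz hd => ?_⟩
  exact hb (show (⟨z, hz⟩ : affineSpan ℝ P) ∈ Metric.ball y e from hd)

/-- the segment from a point of the set to a relative interior point can be prolonged -/
theorem push {P : Set (EuclideanSpace ℝ (Fin n))} {x₀ y : EuclideanSpace ℝ (Fin n)} (h : x₀ ∈ intrinsicInterior ℝ P) (hy : y ∈ P) :
    ∃ e : ℝ, 0 < e ∧ x₀ - e • (y - x₀) ∈ P := by
  obtain ⟨e, he, hb⟩ := ball h
  have hx0 : x₀ ∈ P := intrinsicInterior_subset h
  set s := e / (2 * (‖y - x₀‖ + 1)) with hs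
  have hn : 0 ≤ ‖y - x₀‖ := norm_nonneg _
  have hs0 : 0 < s := by positivity
  refine ⟨s, hs0, hb _ ?_ ?_⟩
  · have : x₀ - s • (y - x₀) = AffineMap.lineMap x₀ y (-s) := by
      rw [AffineMap.lineMap_apply]
      simp only [vsub_eq_sub, vadd_eq_add, neg_smul]
      abel
    rw [this]
    exact AffineMap.lineMap_mem _ (subset_affineSpan ℝ P hx0) (subset_affineSpan ℝ P hy)
  · rw [dist_eq_norm, sub_sub_cancel_left, norm_neg, norm_smul, Real.norm_eq_abs, abs_of_pos hs0, hs,
      div_mul_eq_mul_div, div_lt_iff₀ (by positivity)]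
    nlinarith

end PDP

open PDP

theorem t_POS : S_POS := by
  intro r n Φ l x₀ hbd hx₀
  have hx0 : x₀ ∈ crossSection Φ l := intrinsicInterior_subset hx₀
  obtain ⟨R, hR⟩ := hbd.exists_norm_le
  have hadd : ∀ {x y : EuclideanSpace ℝ (Fin n)} {t : ℝ}, x ∈ cone Φ → y ∈ cone Φ → 0 ≤ t →
      x + t • y ∈ cone Φ := by
    intro x y t hx hy ht
    refine ⟨fun j => ?_, fun i => ?_⟩
    · simp only [PiLp.add_apply, PiLp.smul_apply, smul_eq_mul]
      have := hx.1 j
      have := mul_nonneg ht (hy.1 j)
      linarith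
    · have : ∑ j, (Φ i j : ℝ) * (x + t • y) j = ∑ j, (Φ i j : ℝ) * x j + t * ∑ j, (Φ i j : ℝ) * y j := by
        rw [Finset.mul_sum, ← Finset.sum_add_distrib]
        refine Finset.sum_congr rfl fun j _ => ?_
        simp only [PiLp.add_apply, PiLp.smul_apply, smul_eq_mul]
        ring
      rw [this, hx.2 i, hy.2 i]; ring
  -- no recession direction
  have hrec : ∀ x ∈ cone Φ, l x = 0 → x = 0 := by
    intro x hx hlx
    by_contra hne
    have hnx : 0 < ‖x‖ := norm_pos_iff.2 hne
    set t := (R + ‖x₀‖ + 1) / ‖x‖ with ht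
    have hR0 : 0 ≤ R := (norm_nonneg _).trans (hR x₀ hx0)
    have ht0 : 0 ≤ t := by positivity
    have hmem : x₀ + t • x ∈ crossSection Φ l := by
      refine ⟨hadd hx0.1 hx ht0, ?_⟩
      rw [map_add, map_smul, hlx, smul_zero, add_zero]
      exact hx0.2
    have h1 := hR _ hmem
    have h2 : ‖t • x‖ ≤ ‖x₀ + t • x‖ + ‖x₀‖ := by
      have : t • x = (x₀ + t • x) - x₀ := by abel
      calc ‖t • x‖ = ‖(x₀ + t • x) - x₀‖ := by rw [← this]
        _ ≤ _ := norm_sub_le _ _
    rw [norm_smul, Real.norm_eq_abs, abs_of_nonneg ht0, ht, div_mul_cancel₀ _ hnx.ne'] at h2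
    linarith
  have hpos : ∀ x ∈ cone Φ, x ≠ 0 → 0 < l x := by
    intro x hx hne
    by_contra hle
    push Not at hle
    rcases hle.lt_or_eq with h | h
    · set s := 1 / (-l x) with hs
      have hs0 : 0 < s := by
        rw [hs]; exact div_pos one_pos (by linarith)
      have hu := hadd hx0.1 hx hs0.le
      have hlu : l (x₀ + s • x) = 0 := by
        rw [map_add, map_smul, smul_eq_mul, hx0.2, hs]
        have : l x ≠ 0 := h.ne
        field_simp
        ring
      have hu0 := hrec _ hu hlu
      have hx00 : x₀ = 0 := by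
        ext j
        have h1 := congrArg (fun w : EuclideanSpace ℝ (Fin n) => w j) hu0
        simp only [PiLp.add_apply, PiLp.smul_apply, smul_eq_mul, PiLp.zero_apply] at h1
        have h2 := hx0.1.1 j
        have h3 := mul_nonneg hs0.le (hx.1 j)
        have : x₀ j = 0 := by linarith
        simpa using this
      have h4 := hx0.2
      rw [hx00, map_zero] at h4
      exact zero_ne_one h4
    · exact hne (hrec x hx h)
  refine ⟨hx0, hpos, fun j ⟨x, hx, hxj⟩ => ?_⟩
  have hxne : x ≠ 0 := by
    rintro rfl
    simp at hxj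
  have hl := hpos x hx hxne
  have hx' : (1 / l x) • x ∈ crossSection Φ l := by
    refine ⟨?_, ?_⟩
    · refine ⟨fun j => ?_, fun i => ?_⟩
      · simp only [PiLp.smul_apply, smul_eq_mul]
        have := hx.1 j
        positivity
      · have : ∑ j, (Φ i j : ℝ) * ((1 / l x) • x) j = (1 / l x) * ∑ j, (Φ i j : ℝ) * x j := by
          rw [Finset.mul_sum]
          refine Finset.sum_congr rfl fun j _ => ?_
          simp only [PiLp.smul_apply, smul_eq_mul]
          ring
        rw [this, hx.2 i, mul_zero]
    · rw [map_smul, smul_eq_mul, one_div, inv_mul_cancel₀ hl.ne']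
  obtain ⟨e, he, hmem⟩ := push hx₀ hx'
  have h1 := hmem.1.1 j
  simp only [PiLp.sub_apply, PiLp.smul_apply, smul_eq_mul] at h1
  have h2 : 0 < 1 / l x * x j := by positivity
  by_contra hle
  push Not at hle
  have h3 := hx0.1.1 j
  have h4 : x₀ j = 0 := le_antisymm hle h3
  rw [h4] at h1
  nlinarith

theorem t_DIM : S_DIM := by
  intro r n Φ l hne hpos
  obtain ⟨x1, hx1⟩ := hne
  set V := vectorSpan ℝ (crossSection Φ l) with hV
  set S := Submodule.span ℝ (cone Φ) with hS
  have hx1S : x1 ∈ S := Submodule.subset_span hx1.1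
  have hVS : V ≤ S := by
    rw [hV, vectorSpan_def, Submodule.span_le]
    rintro z ⟨a, ha, b, hb, rfl⟩
    exact S.sub_mem (Submodule.subset_span ha.1) (Submodule.subset_span hb.1)
  have hVl : ∀ z ∈ V, l z = 0 := by
    intro z hz
    have : V ≤ LinearMap.ker l := by
      rw [hV, vectorSpan_def, Submodule.span_le]
      rintro z ⟨a, ha, b, hb, rfl⟩
      simp only [vsub_eq_sub, SetLike.mem_coe, LinearMap.mem_ker, map_sub]
      rw [ha.2, hb.2, sub_self]
    exact this hz
  have hkey : ∀ s ∈ S, s - (l s) • x1 ∈ V := by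
    intro s hs
    induction hs using Submodule.span_induction with
    | mem x hx =>
      by_cases hx0 : x = 0
      · rw [hx0, map_zero, zero_smul, sub_zero]; exact V.zero_mem
      · have hl := hpos x hx hx0
        have hx' : (1 / l x) • x ∈ crossSection Φ l := by
          refine ⟨?_, ?_⟩
          · refine ⟨fun j => ?_, fun i => ?_⟩
            · simp only [PiLp.smul_apply, smul_eq_mul]
              have := hx.1 j
              positivity
            · have : ∑ j, (Φ i j : ℝ) * ((1 / l x) • x) j = (1 / l x) * ∑ j, (Φ i j : ℝ) * x j := by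
                rw [Finset.mul_sum]
                refine Finset.sum_congr rfl fun j _ => ?_
                simp only [PiLp.smul_apply, smul_eq_mul]
                ring
              rw [this, hx.2 i, mul_zero]
          · rw [map_smul, smul_eq_mul, one_div, inv_mul_cancel₀ hl.ne']
        have h1 : (1 / l x) • x - x1 ∈ V := vsub_mem_vectorSpan ℝ hx' hx1
        have h2 := V.smul_mem (l x) h1
        rw [smul_sub, smul_smul, mul_one_div_cancel hl.ne', one_smul] at h2
        exact h2
    | zero => rw [map_zero, zero_smul, sub_zero]; exact V.zero_mem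
    | add x y _ _ hx hy =>
      have := V.add_mem hx hy
      rw [map_add, add_smul]
      convert this using 1
      abel
    | smul a x _ hx =>
      have := V.smul_mem a hx
      rw [map_smul, smul_assoc, ← smul_sub]
      exact this
  have hker : LinearMap.ker (l.domRestrict S) = V.comap S.subtype := by
    ext ⟨s, hs⟩
    simp only [LinearMap.mem_ker, LinearMap.domRestrict_apply, Submodule.mem_comap, Submodule.subtype_apply]
    constructor
    · intro h
      have := hkey s hs
      rwa [h, zero_smul, sub_zero] at this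
    · exact hVl s
  have hrange : LinearMap.range (l.domRestrict S) = ⊤ := by
    rw [LinearMap.range_eq_top]
    intro a
    refine ⟨a • ⟨x1, hx1S⟩, ?_⟩
    rw [map_smul, LinearMap.domRestrict_apply, hx1.2, smul_eq_mul, mul_one]
  have h1 := LinearMap.finrank_range_add_finrank_ker (l.domRestrict S)
  rw [hrange, hker, finrank_top, Module.finrank_self,
    LinearEquiv.finrank_eq (Submodule.comapSubtypeEquivOfLe hVS)] at h1
  omega

theorem t_PCO : S_PCO := by
  intro n P x₀ hx₀
  obtain ⟨e, he, hb⟩ := ball hx₀
  have hx0 : x₀ ∈ P := intrinsicInterior_subset hx₀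
  constructor
  · refine Metric.isCompact_of_isClosed_isBounded ?_ ?_
    · have : polarDual P x₀ = (vectorSpan ℝ P : Set (EuclideanSpace ℝ (Fin n))) ∩
          ⋂ x ∈ P, {y | ⟪y, x - x₀⟫ ≤ 1} := by
        ext y
        simp only [polarDual, Set.mem_setOf_eq, Set.mem_inter_iff, SetLike.mem_coe, Set.mem_iInter]
      rw [this]
      refine IsClosed.inter (Submodule.closed_of_finiteDimensional _) ?_
      refine isClosed_biInter fun x _ => ?_
      exact isClosed_le (by fun_prop) continuous_const
    · rw [isBounded_iff_forall_norm_le]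
      refine ⟨2 / e, fun y hy => ?_⟩
      by_cases hy0 : y = 0
      · rw [hy0, norm_zero]; positivity
      have hny : 0 < ‖y‖ := norm_pos_iff.2 hy0
      set s := e / 2 / ‖y‖ with hs
      have hs0 : 0 < s := by positivity
      have hmem : x₀ + s • y ∈ P := by
        refine hb _ ?_ ?_
        · have h1 : s • y ∈ (affineSpan ℝ P).direction := by
            rw [direction_affineSpan]
            exact Submodule.smul_mem _ _ hy.1
          have h2 := AffineSubspace.vadd_mem_of_mem_direction h1 (subset_affineSpan ℝ P hx0)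
          rwa [vadd_eq_add, add_comm] at h2
        · rw [dist_eq_norm, add_sub_cancel_left, norm_smul, Real.norm_eq_abs, abs_of_pos hs0, hs,
            div_mul_cancel₀ _ hny.ne']
          linarith
      have h3 := hy.2 _ hmem
      rw [add_sub_cancel_left, inner_smul_right, real_inner_self_eq_norm_sq, hs] at h3
      have h4 : e / 2 / ‖y‖ * ‖y‖ ^ 2 = e / 2 * ‖y‖ := by field_simp
      rw [h4] at h3
      rw [le_div_iff₀ he]
      linarith
  · intro y hy z hz a b ha hb' hab
    refine ⟨Submodule.add_mem _ (Submodule.smul_mem _ _ hy.1) (Submodule.smul_mem _ _ hz.1), fun x hx => ?_⟩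
    rw [inner_add_left, inner_smul_left, inner_smul_left]
    have h1 := mul_le_mul_of_nonneg_left (hy.2 x hx) ha
    have h2 := mul_le_mul_of_nonneg_left (hz.2 x hx) hb'
    simp only [conj_trivial]
    linarith

end Pool.Agent.K1H41.DG
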