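import Pool.Agent.K1H41.DG.T_PDP

/-! # DG-SNJ: supports of relative interior points, negative coordinates, joins with convex sets
(helper58) -/

set_option autoImplicit false

namespace Pool.Agent.K1H41.DG

theorem t_SUP : S_SUP := by
  intro n F hF x hx
  ext j
  constructor
  · rintro ⟨y, hy, hyj⟩
    obtain ⟨e, he, hmem⟩ := PDP.push hx hy
    have h1 := hF _ hmem j
    simp only [PiLp.sub_apply, PiLp.smul_apply, smul_eq_mul] at h1
    have h2 := hF _ (intrinsicInterior_subset hx) j
    change 0 < x j
    by_contra hle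
    push Not at hle
    have h3 : x j = 0 := le_antisymm hle h2
    rw [h3] at h1
    nlinarith
  · intro h
    exact ⟨x, intrinsicInterior_subset hx, h⟩

theorem t_NEG : S_NEG := by
  intro r n Φ α β hβ j hj
  by_contra hcon
  push Not at hcon
  obtain ⟨γ, hγ, β₀, hβ₀, rfl⟩ := hβ
  have h0 : ∀ δ ∈ Sol Φ 0, δ j = 0 := by
    intro δ hδ
    have hc : toE δ ∈ cone Φ := by
      refine ⟨fun k => ?_, fun i => ?_⟩
      · have := hδ.1 k
        change (0 : ℝ) ≤ ((δ k : ℤ) : ℝ)
        exact_mod_cast this
      · have := hδ.2 i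
        change ∑ k, (Φ i k : ℝ) * ((δ k : ℤ) : ℝ) = 0
        have h2 : ((∑ k, Φ i k * δ k : ℤ) : ℝ) = 0 := by
          rw [this]; simp
        rw [← h2]
        push_cast
        rfl
    have h1 : ((δ j : ℤ) : ℝ) ≤ 0 := hcon _ hc
    have h2 := hδ.1 j
    have h3 : δ j ≤ 0 := by exact_mod_cast h1
    omega
  have hγ0 : γ j = 0 := by
    clear hj
    induction hγ using AddSubgroup.closure_induction with
    | mem x hx => exact h0 x hx
    | zero => rfl
    | add x y _ _ hx hy => rw [Pi.add_apply, hx, hy, add_zero]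
    | neg x _ hx => rw [Pi.neg_apply, hx, neg_zero]
  have h2 := hβ₀.1 j
  rw [Pi.add_apply, hγ0] at hj
  omega

theorem t_JC : S_JC := by
  intro F _ _ X m ⟨x0, hx0⟩ hX
  rw [contractible_iff_id_nullhomotopic]
  have hmem : ∀ (s : unitInterval) (q : J m X),
      ((1 - (s : ℝ)) • q.1.1, (1 - (s : ℝ)) * q.1.2.1 + s, (1 - (s : ℝ)) • q.1.2.2 + (s : ℝ) • x0) ∈ J m X := by
    rintro ⟨s, hs0, hs1⟩ ⟨⟨b, t, z⟩, hq1, hq2⟩
    simp only at hq1 hq2
    have ht0 : 0 ≤ t := by
      rcases hq2 with ⟨h, _⟩ | ⟨h, _⟩
      · exact h.ge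
      · exact h.le
    refine ⟨?_, ?_⟩
    · simp only [Pi.smul_apply, smul_eq_mul, abs_mul, abs_of_nonneg (sub_nonneg.2 hs1)]
      rw [← Finset.mul_sum]
      linear_combination (1 - s) * hq1
    · change (_ ∨ _)
      simp only
      rcases (add_nonneg (mul_nonneg (sub_nonneg.2 hs1) ht0) hs0).lt_or_eq with h | h
      · right
        refine ⟨h, ?_⟩
        rcases hq2 with ⟨h1, h2⟩ | ⟨h1, h2⟩
        · simp only at h1 h2
          rw [h1, h2]
          have hs : 0 < s := by rw [h1] at h; linarith
          have : ((1 - s) * 0 + s)⁻¹ • ((1 - s) • (0 : F) + s • x0) = x0 := by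
            rw [smul_zero, zero_add, mul_zero, zero_add, smul_smul, inv_mul_cancel₀ hs.ne', one_smul]
          rw [this]
          exact hx0
        · simp only at h1 h2
          set c := (1 - s) * t + s with hc
          have e : c⁻¹ • ((1 - s) • z + s • x0) = (c⁻¹ * ((1 - s) * t)) • (t⁻¹ • z) + (c⁻¹ * s) • x0 := by
            rw [smul_add, smul_smul, smul_smul, smul_smul]
            congr 2
            field_simp
          rw [e]
          refine hX h2 hx0 ?_ ?_ ?_
          · have := sub_nonneg.2 hs1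
            positivity
          · positivity
          · rw [← mul_add, ← hc, inv_mul_cancel₀ h.ne']
      · left
        have e1 : (1 - s) * t = 0 := by
          have := mul_nonneg (sub_nonneg.2 hs1) ht0
          linarith
        have e2 : s = 0 := by linarith
        subst e2
        rw [sub_zero, one_mul] at e1
        subst e1
        rcases hq2 with ⟨h1, h2⟩ | ⟨h1, h2⟩
        · simp only at h2
          rw [h2]
          simp
        · exact absurd h1 (lt_irrefl _)
  refine ⟨⟨(0, 1, x0), ?_⟩, ⟨{
    toFun := fun p => ⟨_, hmem p.1 p.2⟩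
    continuous_toFun := ?_
    map_zero_left := ?_
    map_one_left := ?_ }⟩⟩
  · refine ⟨by simp, Or.inr ⟨one_pos, by simpa using hx0⟩⟩
  · refine Continuous.subtype_mk ?_ _
    fun_prop
  · intro q
    apply Subtype.ext
    simp
  · intro q
    apply Subtype.ext
    simp

end Pool.Agent.K1H41.DG
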